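import Pool.Agent.N841.DY.Stm

/-!
Blow-up of the dyadic model for `β > 3` (Cheskidov), a short proof. (helper505, for helper841)
-/

set_option autoImplicit false

open Set Filter Topology

noncomputable section

namespace Pool.Agent.N841.DY.Blow

open Pool.Agent.N841.DY

/-- the product of neighbours -/
theorem nb {A B s a b : ℝ} (n : ℕ) (hA : 0 < A) (hB : 0 < B) (hs : 0 < s) (hs2 : s ^ 2 * (A * B) = 1) :
    A ^ n * (B ^ n * a * b) ≤ s / 2 * (A ^ n * B ^ n * a ^ 2 + A ^ (n + 1) * B ^ (n + 1) * b ^ 2) := by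
  have h1 : 2 * (a * b) ≤ s * a ^ 2 + s * (A * B) * b ^ 2 := by
    have h2 : 0 ≤ (s * a - b) ^ 2 := sq_nonneg _
    have h3 : 0 ≤ s * (s * a ^ 2 + s * (A * B) * b ^ 2 - 2 * (a * b)) := by
      have : s * (s * a ^ 2 + s * (A * B) * b ^ 2 - 2 * (a * b)) =
          s ^ 2 * a ^ 2 + (s ^ 2 * (A * B)) * b ^ 2 - 2 * s * a * b := by ring
      rw [this, hs2]; nlinarith
    have := nonneg_of_mul_nonneg_right h3 hs
    linarith
  have h4 : 0 < A ^ n * B ^ n := by positivity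
  have h5 := mul_le_mul_of_nonneg_left h1 h4.le
  have e1 : A ^ n * (B ^ n * a * b) = (A ^ n * B ^ n * (2 * (a * b))) / 2 := by ring
  have e2 : s / 2 * (A ^ n * B ^ n * a ^ 2 + A ^ (n + 1) * B ^ (n + 1) * b ^ 2) =
      (A ^ n * B ^ n * (s * a ^ 2 + s * (A * B) * b ^ 2)) / 2 := by rw [pow_succ, pow_succ]; ring
  rw [e1, e2]
  linarith

/-- the static inequality -/
theorem static {A B L s ν K : ℝ} {k d : ℕ → ℝ} (hA : 0 < A) (hB : 0 < B) (hL : 1 ≤ L) (hs : 0 < s)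
    (hs2 : s ^ 2 * (A * B) = 1) (hsA : s < A)
    (hρ : A * L ^ 2 / B < 1) (hK : K = (1 - A * L ^ 2 / B)⁻¹)
    (hk : ∀ n, k n = B ^ n) (hd : ∀ n, d n = ν * L ^ n) (a : ℕ → ℝ) (N : ℕ) :
    (A - s) / (2 * K) * (∑ n ∈ Finset.range (N + 1), A ^ n * a n) ^ 2 - ν ^ 2 * K / (2 * (A - s)) -
      (A * (A ^ N * B ^ N * a N ^ 2) + s / 2 * (A ^ (N + 1) * B ^ (N + 1) * a (N + 1) ^ 2)) ≤
    ∑ n ∈ Finset.range (N + 1), A ^ n * field k d a n := by
  obtain ⟨ρ, hρdef⟩ : ∃ ρ, ρ = A * L ^ 2 / B := ⟨_, rfl⟩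
  rw [← hρdef] at hρ hK
  have hL0 : 0 < L := by linarith
  have hρ0 : 0 < ρ := by rw [hρdef]; positivity
  have hKpos : 0 < K := by rw [hK]; exact inv_pos.2 (by linarith)
  obtain ⟨q, hq⟩ : ∃ q : ℕ → ℝ, q = fun n => A ^ n * B ^ n * a n ^ 2 := ⟨_, rfl⟩
  have hqn : ∀ n, q n = A ^ n * B ^ n * a n ^ 2 := fun n => by rw [hq]
  have hq0 : ∀ n, 0 ≤ q n := fun n => by rw [hqn]; positivity
  obtain ⟨Q, hQ⟩ : ∃ Q, Q = ∑ n ∈ Finset.range (N + 1), q n := ⟨_, rfl⟩
  obtain ⟨V, hV⟩ : ∃ V, V = ∑ n ∈ Finset.range (N + 1), A ^ n * (L ^ n * a n) := ⟨_, rfl⟩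
  obtain ⟨S, hS⟩ : ∃ S, S = ∑ n ∈ Finset.range (N + 1), A ^ n * a n := ⟨_, rfl⟩
  have hQ0 : 0 ≤ Q := by rw [hQ]; exact Finset.sum_nonneg fun n _ => hq0 n
  have hgeo : ∑ n ∈ Finset.range (N + 1), ρ ^ n ≤ K := by
    rw [hK, ← tsum_geometric_of_lt_one hρ0.le hρ]
    exact (summable_geometric_of_lt_one hρ0.le hρ).sum_le_tsum _ (fun n _ => pow_nonneg hρ0.le n)
  have hV2 : V ^ 2 ≤ Q * K := by
    have h1 : V ^ 2 ≤ Q * ∑ n ∈ Finset.range (N + 1), ρ ^ n := by
      rw [hV, hQ]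
      refine Finset.sum_sq_le_sum_mul_sum_of_sq_le_mul _ (fun n _ => hq0 n)
        (fun n _ => pow_nonneg hρ0.le n) (fun n _ => le_of_eq ?_)
      have e : (L ^ 2) ^ n = (L ^ n) ^ 2 := by rw [← pow_mul, ← pow_mul, mul_comm]
      rw [hqn, hρdef, div_pow, mul_pow A (L ^ 2) n, e]
      field_simp
    exact h1.trans (mul_le_mul_of_nonneg_left hgeo hQ0)
  have hS2 : S ^ 2 ≤ Q * K := by
    have h1 : S ^ 2 ≤ Q * ∑ n ∈ Finset.range (N + 1), (A / B) ^ n := by
      rw [hS, hQ]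
      refine Finset.sum_sq_le_sum_mul_sum_of_sq_le_mul _ (fun n _ => hq0 n)
        (fun n _ => by positivity) (fun n _ => le_of_eq ?_)
      rw [hqn, div_pow]
      field_simp
    have h2 : ∑ n ∈ Finset.range (N + 1), (A / B) ^ n ≤ ∑ n ∈ Finset.range (N + 1), ρ ^ n := by
      refine Finset.sum_le_sum fun n _ => ?_
      refine pow_le_pow_left₀ (by positivity) ?_ n
      rw [hρdef]
      have : 1 ≤ L ^ 2 := one_le_pow₀ hL
      apply div_le_div_of_nonneg_right _ hB.le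
      nlinarith
    exact h1.trans (mul_le_mul_of_nonneg_left (h2.trans hgeo) hQ0)
  -- the sum
  have hsplit : ∑ n ∈ Finset.range (N + 1), A ^ n * field k d a n =
      ∑ n ∈ Finset.range (N + 1), A ^ n * feed k a n -
      ∑ n ∈ Finset.range (N + 1), A ^ n * (B ^ n * a n * a (n + 1)) - ν * V := by
    rw [hV, Finset.mul_sum, ← Finset.sum_sub_distrib, ← Finset.sum_sub_distrib]
    refine Finset.sum_congr rfl fun n _ => ?_
    unfold field
    rw [hk, hd]; ring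
  have hfeed : ∑ n ∈ Finset.range (N + 1), A ^ n * feed k a n = A * (Q - q N) := by
    rw [Finset.sum_range_succ', hQ, Finset.sum_range_succ]
    have : A ^ 0 * feed k a 0 = 0 := by simp [feed]
    rw [this, add_zero, add_sub_cancel_right, Finset.mul_sum]
    refine Finset.sum_congr rfl fun n _ => ?_
    show A ^ (n + 1) * (k n * a n ^ 2) = _
    rw [hk, hqn, pow_succ]; ring
  have hnb : ∑ n ∈ Finset.range (N + 1), A ^ n * (B ^ n * a n * a (n + 1)) ≤
      s / 2 * (2 * Q + q (N + 1)) := by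
    calc ∑ n ∈ Finset.range (N + 1), A ^ n * (B ^ n * a n * a (n + 1))
        ≤ ∑ n ∈ Finset.range (N + 1), s / 2 * (q n + q (n + 1)) := by
          refine Finset.sum_le_sum fun n _ => ?_
          rw [hqn, hqn]
          exact nb n hA hB hs hs2
      _ = s / 2 * (Q + (Q + q (N + 1) - q 0)) := by
          rw [← Finset.mul_sum, Finset.sum_add_distrib]
          congr 2
          · rw [hQ]
          · have h1 := Finset.sum_range_succ' q (N + 1)
            have h2 := Finset.sum_range_succ q (N + 1)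
            rw [hQ]; linarith
      _ ≤ _ := by
          apply mul_le_mul_of_nonneg_left _ (by linarith)
          linarith [hq0 0]
  rw [hsplit, hfeed, ← hS, ← hqn, ← hqn]
  have hc0 : 0 < A - s := by linarith
  obtain ⟨c, hc⟩ : ∃ c, c = A - s := ⟨_, rfl⟩
  rw [← hc] at hc0 ⊢
  have hA' : A = c + s := by rw [hc]; ring
  have hVb : ν * V ≤ c / (2 * K) * V ^ 2 + ν ^ 2 * K / (2 * c) := by
    have h1 : 0 ≤ (c * V - ν * K) ^ 2 := sq_nonneg _
    have e : c / (2 * K) * V ^ 2 + ν ^ 2 * K / (2 * c) - ν * V = (c * V - ν * K) ^ 2 / (2 * c * K) := by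
      field_simp; ring
    have : 0 ≤ (c * V - ν * K) ^ 2 / (2 * c * K) := by positivity
    linarith
  have hcK : 0 < c / (2 * K) := by positivity
  have e3 : c / (2 * K) * (Q * K) = c / 2 * Q := by field_simp
  have h5 : c / (2 * K) * V ^ 2 ≤ c / 2 * Q := by
    rw [← e3]; exact mul_le_mul_of_nonneg_left hV2 hcK.le
  have h6 : c / (2 * K) * S ^ 2 ≤ c / 2 * Q := by
    rw [← e3]; exact mul_le_mul_of_nonneg_left hS2 hcK.le
  have h7 : A * (Q - q N) = c * Q + s * Q - A * q N := by rw [hA']; ring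
  rw [h7]
  linarith

/-- no continuous function on the closed interval `[0, 4 / (c R)]` starts at `R` and grows like this -/
theorem riccati {c K R : ℝ} (hc : 0 < c) (hR : 0 < R) (hcR : 2 * K ≤ c * R ^ 2) (S S' : ℝ → ℝ)
    (hS : ∀ t, 0 ≤ t → HasDerivWithinAt S (S' t) (Ici 0) t) (hS0 : R ≤ S 0)
    (hb : ∀ t, 0 ≤ t → t ≤ 4 / (c * R) → c * S t ^ 2 - K ≤ S' t) : False := by
  have hcR0 : 0 < c * R := mul_pos hc hR
  obtain ⟨T, hT⟩ : ∃ T, T = 4 / (c * R) := ⟨_, rfl⟩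
  have hT0 : 0 < T := by rw [hT]; positivity
  rw [← hT] at hb
  have hcont : ContinuousOn S (Icc 0 T) := fun t ht =>
    ((hS t ht.1).continuousWithinAt).mono (fun x hx => hx.1)
  obtain ⟨M, hM⟩ := isCompact_Icc.exists_bound_of_continuousOn hcont
  have hM0 : 0 ≤ M := (norm_nonneg _).trans (hM 0 ⟨le_rfl, hT0.le⟩)
  obtain ⟨δ, hδ⟩ : ∃ δ, δ = R / (M + R + 1) := ⟨_, rfl⟩
  have hden : 0 < M + R + 1 := by linarith
  have hδ0 : 0 < δ := by rw [hδ]; positivity
  have hδ1 : δ < 1 := by rw [hδ, div_lt_one hden]; linarith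
  obtain ⟨T', hT'⟩ : ∃ T', T' = T * (1 - δ) := ⟨_, rfl⟩
  have hT'0 : 0 ≤ T' := by rw [hT']; exact mul_nonneg hT0.le (by linarith)
  have hT'T : T' ≤ T := by rw [hT']; nlinarith
  have hcT : c * R / 4 * T = 1 := by rw [hT]; field_simp
  have hpos : ∀ t, t ≤ T' → δ ≤ 1 - c * R / 4 * t := by
    intro t ht
    have : c * R / 4 * t ≤ c * R / 4 * T' := mul_le_mul_of_nonneg_left ht (by positivity)
    rw [hT', ← mul_assoc, hcT] at this
    linarith
  have hbd : ∀ t, t ≤ T' → HasDerivAt (fun t => R / (1 - c * R / 4 * t))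
      (c / 4 * (R / (1 - c * R / 4 * t)) ^ 2) t := by
    intro t ht
    have hp : 1 - c * R / 4 * t ≠ 0 := by have := hpos t ht; linarith
    have h1 : HasDerivAt (fun t => 1 - c * R / 4 * t) (-(c * R / 4)) t := by
      have := ((hasDerivAt_id t).const_mul (c * R / 4)).const_sub 1
      simpa using this
    have h2 := (hasDerivAt_const t R).fun_div h1 hp
    have e : c / 4 * (R / (1 - c * R / 4 * t)) ^ 2 =
        (0 * (1 - c * R / 4 * t) - R * -(c * R / 4)) / (1 - c * R / 4 * t) ^ 2 := by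
      rw [div_pow, ← mul_div_assoc]
      congr 1
      ring
    rw [e]
    exact h2
  have hle := image_le_of_deriv_right_lt_deriv_boundary' (f := fun t => R / (1 - c * R / 4 * t))
    (f' := fun t => c / 4 * (R / (1 - c * R / 4 * t)) ^ 2) (a := 0) (b := T')
    (fun t ht => (hbd t ht.2).continuousAt.continuousWithinAt)
    (fun t ht => (hbd t ht.2.le).hasDerivWithinAt) (B := S) (B' := S')
    (by simpa using hS0) (hcont.mono (Icc_subset_Icc le_rfl hT'T))
    (fun t ht => (hS t ht.1).mono (Ici_subset_Ici.2 ht.1))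
    (by
      intro t ht he
      have h1 := hb t ht.1 (ht.2.le.trans hT'T)
      have hp := hpos t ht.2.le
      have hp1 : 1 - c * R / 4 * t ≤ 1 := by
        have : 0 ≤ c * R / 4 * t := mul_nonneg (by positivity) ht.1
        linarith
      have h2 : R ≤ R / (1 - c * R / 4 * t) := by
        rw [le_div_iff₀ (by linarith)]
        nlinarith
      have h3 : R ^ 2 ≤ (R / (1 - c * R / 4 * t)) ^ 2 := pow_le_pow_left₀ hR.le h2 2
      have he' : R / (1 - c * R / 4 * t) = S t := he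
      rw [← he'] at h1
      have h4 : c * R ^ 2 ≤ c * (R / (1 - c * R / 4 * t)) ^ 2 := mul_le_mul_of_nonneg_left h3 hc.le
      have h5 : 0 < c * R ^ 2 := by positivity
      have h7 : 0 < c * (R / (1 - c * R / 4 * t)) ^ 2 := lt_of_lt_of_le h5 h4
      show c / 4 * (R / (1 - c * R / 4 * t)) ^ 2 < S' t
      linarith)
  have h1 := hle (x := T') ⟨hT'0, le_rfl⟩
  have h2 : 1 - c * R / 4 * T' = δ := by rw [hT', ← mul_assoc, hcT]; ring
  have h3 : R / (1 - c * R / 4 * T') = M + R + 1 := by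
    rw [h2, hδ]; field_simp
  have h4 := hM T' ⟨hT'0, hT'T⟩
  rw [Real.norm_eq_abs] at h4
  have h5 := le_abs_self (S T')
  have h6 : R / (1 - c * R / 4 * T') ≤ S T' := h1
  rw [h3] at h6
  linarith

theorem t_BLOW : S_BLOW := by
  intro lam β ν hlam hν hβ
  have hlam0 : 0 < lam := by linarith
  obtain ⟨γ, hγ⟩ : ∃ γ : ℝ, γ = (-(β / 3) + (β - 4)) / 2 := ⟨_, rfl⟩
  have hγ1 : 0 < 3 * γ + β := by rw [hγ]; linarith
  have hγ2 : γ + 4 - β < 0 := by rw [hγ]; linarith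
  obtain ⟨A, hAdef⟩ : ∃ A, A = lam ^ γ := ⟨_, rfl⟩
  obtain ⟨B, hBdef⟩ : ∃ B, B = lam ^ β := ⟨_, rfl⟩
  obtain ⟨s, hsdef⟩ : ∃ s, s = lam ^ (-(γ + β) / 2) := ⟨_, rfl⟩
  have hA : 0 < A := by rw [hAdef]; positivity
  have hB : 0 < B := by rw [hBdef]; positivity
  have hs : 0 < s := by rw [hsdef]; positivity
  have hs2 : s ^ 2 * (A * B) = 1 := by
    rw [hsdef, hAdef, hBdef, ← Real.rpow_natCast, ← Real.rpow_mul hlam0.le, ← Real.rpow_add hlam0,
      ← Real.rpow_add hlam0]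
    have : -(γ + β) / 2 * ((2 : ℕ) : ℝ) + (γ + β) = 0 := by push_cast; ring
    rw [this, Real.rpow_zero]
  have hsA : s < A := by
    rw [hsdef, hAdef]
    exact Real.rpow_lt_rpow_of_exponent_lt hlam (by linarith)
  have hL : 1 ≤ lam ^ 2 := one_le_pow₀ hlam.le
  have hρ : A * (lam ^ 2) ^ 2 / B < 1 := by
    rw [div_lt_one hB, hAdef, hBdef, ← pow_mul, ← Real.rpow_natCast, ← Real.rpow_add hlam0]
    apply Real.rpow_lt_rpow_of_exponent_lt hlam
    push_cast
    linarith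
  have hk : ∀ n, coup lam β n = B ^ n := by
    intro n; unfold coup; rw [hBdef, Real.rpow_mul_natCast hlam0.le]
  have hd : ∀ n, damp lam ν n = ν * (lam ^ 2) ^ n := by
    intro n; unfold damp; rw [pow_mul]
  obtain ⟨K, hK⟩ : ∃ K, K = (1 - A * (lam ^ 2) ^ 2 / B)⁻¹ := ⟨_, rfl⟩
  have hKpos : 0 < K := by rw [hK]; exact inv_pos.2 (by linarith)
  have hc0 : 0 < A - s := by linarith
  obtain ⟨c, hc⟩ : ∃ c, c = (A - s) / (2 * K) := ⟨_, rfl⟩
  obtain ⟨K3, hK3⟩ : ∃ K3, K3 = ν ^ 2 * K / (2 * (A - s)) := ⟨_, rfl⟩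
  have hcpos : 0 < c := by rw [hc]; positivity
  have hK3pos : 0 < K3 := by rw [hK3]; positivity
  obtain ⟨R, hR⟩ : ∃ R, R = 1 + 2 * (K3 + 1) / c := ⟨_, rfl⟩
  have hR1 : 1 ≤ R := by
    rw [hR]
    have : 0 ≤ 2 * (K3 + 1) / c := by positivity
    linarith
  have hcR : 2 * (K3 + 1) ≤ c * R ^ 2 := by
    have h1 : 2 * (K3 + 1) / c ≤ R := by rw [hR]; linarith
    rw [div_le_iff₀ hcpos] at h1
    have h2 : R ≤ R ^ 2 := by nlinarith
    nlinarith
  refine ⟨fun n => if n = 0 then R else 0, ?_, ?_, ?_⟩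
  · intro n
    show 0 ≤ if n = 0 then R else 0
    split_ifs
    · linarith
    · exact le_rfl
  · intro n hn
    show (if n = 0 then R else 0) = 0
    rw [if_neg hn.ne']
  rintro ⟨X, hX, hX0, hsm⟩
  -- nonnegativity is not needed for the rest
  obtain ⟨s0, hs0⟩ := exists_nat_ge (max (γ + β) 1)
  have hs01 : γ + β ≤ s0 := (le_max_left _ _).trans hs0
  have hs02 : 1 ≤ s0 := by
    have : (1 : ℝ) ≤ s0 := (le_max_right _ _).trans hs0
    exact_mod_cast this
  obtain ⟨C, hC⟩ := hsm (4 / (c * R)) s0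
  have hT0 : 0 ≤ 4 / (c * R) := by positivity
  have hC0 : 0 ≤ C := by
    have h1 := hC 0 0 le_rfl hT0
    have h2 : 0 ≤ lam ^ (s0 * 0) * |X 0 0| := by positivity
    linarith
  have hq : ∀ n t, 0 ≤ t → t ≤ 4 / (c * R) → A ^ n * B ^ n * X n t ^ 2 ≤ C ^ 2 * (1 / lam) ^ n := by
    intro n t ht0 ht
    have h1 := hC n t ht0 ht
    have hAB : A * B ≤ lam ^ s0 := by
      rw [hAdef, hBdef, ← Real.rpow_add hlam0, ← Real.rpow_natCast]
      exact Real.rpow_le_rpow_of_exponent_le hlam.le hs01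
    have h2 : A ^ n * B ^ n ≤ lam ^ (s0 * n) := by
      rw [← mul_pow, pow_mul]
      exact pow_le_pow_left₀ (by positivity) hAB n
    have h3 : lam ^ n ≤ lam ^ (s0 * n) :=
      pow_le_pow_right₀ hlam.le (Nat.le_mul_of_pos_left n (by omega))
    have h4 : 0 ≤ |X n t| := abs_nonneg _
    have h5 : 0 < lam ^ n := by positivity
    have h6 : lam ^ n * |X n t| ≤ C := (mul_le_mul_of_nonneg_right h3 h4).trans h1
    rw [one_div, inv_pow, ← div_eq_mul_inv, le_div_iff₀ h5]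
    calc A ^ n * B ^ n * X n t ^ 2 * lam ^ n ≤ lam ^ (s0 * n) * X n t ^ 2 * lam ^ n := by gcongr
      _ = (lam ^ (s0 * n) * |X n t|) * (lam ^ n * |X n t|) := by rw [← sq_abs]; ring
      _ ≤ C * C := mul_le_mul h1 h6 (by positivity) hC0
      _ = C ^ 2 := by ring
  obtain ⟨N, hN⟩ : ∃ N : ℕ, (1 / lam) ^ N < 1 / ((A + s) * C ^ 2 + 1) :=
    exists_pow_lt_of_lt_one (by positivity) (by rw [div_lt_one hlam0]; exact hlam)
  have hε : ∀ t, 0 ≤ t → t ≤ 4 / (c * R) →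
      A * (A ^ N * B ^ N * X N t ^ 2) + s / 2 * (A ^ (N + 1) * B ^ (N + 1) * X (N + 1) t ^ 2) ≤ 1 := by
    intro t ht0 ht
    have h1 := hq N t ht0 ht
    have h2 := hq (N + 1) t ht0 ht
    have hl : 0 < 1 / lam := by positivity
    have hl1 : 1 / lam ≤ 1 := by rw [div_le_one hlam0]; exact hlam.le
    have h3 : (1 / lam) ^ (N + 1) ≤ (1 / lam) ^ N := by
      rw [pow_succ]
      exact mul_le_of_le_one_right (by positivity) hl1
    have h4 : C ^ 2 * (1 / lam) ^ (N + 1) ≤ C ^ 2 * (1 / lam) ^ N :=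
      mul_le_mul_of_nonneg_left h3 (sq_nonneg C)
    have h5 : 0 ≤ C ^ 2 * (1 / lam) ^ N := by positivity
    have h6 : A * (A ^ N * B ^ N * X N t ^ 2) ≤ A * (C ^ 2 * (1 / lam) ^ N) :=
      mul_le_mul_of_nonneg_left h1 hA.le
    have h7 : s / 2 * (A ^ (N + 1) * B ^ (N + 1) * X (N + 1) t ^ 2) ≤
        s / 2 * (C ^ 2 * (1 / lam) ^ N) :=
      mul_le_mul_of_nonneg_left (h2.trans h4) (by positivity)
    have h8 : (A + s) * C ^ 2 * (1 / lam) ^ N ≤ 1 := by
      have h9 : (A + s) * C ^ 2 * (1 / lam) ^ N ≤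
          (A + s) * C ^ 2 * (1 / ((A + s) * C ^ 2 + 1)) :=
        mul_le_mul_of_nonneg_left hN.le (by positivity)
      refine h9.trans ?_
      rw [mul_one_div, div_le_one (by positivity)]
      linarith
    nlinarith
  refine riccati (c := c) (K := K3 + 1) (R := R) hcpos (by linarith) hcR
    (fun t => ∑ n ∈ Finset.range (N + 1), A ^ n * X n t)
    (fun t => ∑ n ∈ Finset.range (N + 1), A ^ n *
      field (coup lam β) (damp lam ν) (fun j => X j t) n) ?_ ?_ ?_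
  · intro t ht
    exact HasDerivWithinAt.fun_sum fun n _ => (hX n t ht).const_mul (A ^ n)
  · show R ≤ ∑ n ∈ Finset.range (N + 1), A ^ n * X n 0
    rw [Finset.sum_eq_single 0]
    · rw [hX0]; simp
    · intro n _ hn; rw [hX0]; simp [hn]
    · intro h; exact absurd (Finset.mem_range.2 (Nat.succ_pos N)) h
  · intro t ht0 ht
    have h1 := static (A := A) (B := B) (L := lam ^ 2) (s := s) (ν := ν) (K := K)
      hA hB hL hs hs2 hsA hρ hK hk hd (fun j => X j t) N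
    have h2 := hε t ht0 ht
    rw [← hc, ← hK3] at h1
    show c * (∑ n ∈ Finset.range (N + 1), A ^ n * X n t) ^ 2 - (K3 + 1) ≤ _
    linarith

end Pool.Agent.N841.DY.Blow
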