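import Pool.Agent.N841.DY.Stm3
import Pool.Agent.N841.DY.Energy
import Pool.Agent.N841.DY.Blow

/-!
# Anomalous dissipation for `β > 3` and data which are large in the first shell
(helper887, for helper841; a refinement of `Blow.lean`)
-/

set_option autoImplicit false

open Set Filter Topology MeasureTheory

noncomputable section

namespace Pool.Agent.N841.DY.Anom

open Pool.Agent.N841.DY
open Pool.Agent.N841.DY.Energy (contX contY)

/-- the static inequality -/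
theorem static {A B L ν K θ : ℝ} {k d : ℕ → ℝ} (hA : 0 < A) (hB : 0 < B) (hL : 1 ≤ L)
    (hAB : A ^ 3 * B = 1) (hθ0 : 0 < θ) (hθ1 : θ < 1)
    (hρ : A ^ 4 * L ^ 2 < θ) (hK : K = 4 / (1 - θ) * (1 - A ^ 4 * L ^ 2 / θ)⁻¹)
    (hk : ∀ n, k n = B ^ n) (hd : ∀ n, d n = ν * L ^ n) (x : ℕ → ℝ) (N : ℕ) :
    A / (2 * K) * (∑ n ∈ Finset.range (N + 1), (2 - θ ^ n) * A ^ n * x n) ^ 2 -
      ν ^ 2 * K / (2 * A) -
      3 * A * (A ^ N * B ^ N * x N ^ 2 + A ^ (N + 1) * B ^ (N + 1) * x (N + 1) ^ 2) ≤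
    ∑ n ∈ Finset.range (N + 1), (2 - θ ^ n) * A ^ n * field k d x n := by
  have hL0 : 0 < L := by linarith
  have hθ' : 0 < 1 - θ := by linarith
  obtain ⟨ρ, hρdef⟩ : ∃ ρ, ρ = A ^ 4 * L ^ 2 / θ := ⟨_, rfl⟩
  have hρ1 : ρ < 1 := by rw [hρdef, div_lt_one hθ0]; exact hρ
  rw [← hρdef] at hK
  have hρ0 : 0 < ρ := by rw [hρdef]; positivity
  have hρi : 0 < (1 - ρ)⁻¹ := inv_pos.2 (by linarith)
  have hKpos : 0 < K := by rw [hK]; positivity
  obtain ⟨c, hcdef⟩ : ∃ c : ℕ → ℝ, c = fun n => 2 - θ ^ n := ⟨_, rfl⟩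
  have hc : ∀ n, c n = 2 - θ ^ n := fun n => by rw [hcdef]
  have hc1 : ∀ n, 1 ≤ c n := fun n => by
    rw [hc]; have := pow_le_one₀ hθ0.le hθ1.le (n := n); linarith
  have hc2 : ∀ n, c n ≤ 2 := fun n => by
    rw [hc]; have := pow_pos hθ0 n; linarith
  have hcg : ∀ n, c (n + 1) = c n + θ ^ n * (1 - θ) := fun n => by
    rw [hc, hc, pow_succ]; ring
  obtain ⟨q, hq⟩ : ∃ q : ℕ → ℝ, q = fun n => A ^ n * B ^ n * x n ^ 2 := ⟨_, rfl⟩
  have hqn : ∀ n, q n = A ^ n * B ^ n * x n ^ 2 := fun n => by rw [hq]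
  have hq0 : ∀ n, 0 ≤ q n := fun n => by rw [hqn]; positivity
  obtain ⟨Q, hQ⟩ : ∃ Q, Q = ∑ n ∈ Finset.range (N + 1), θ ^ n * (1 - θ) * q n := ⟨_, rfl⟩
  obtain ⟨W, hW⟩ : ∃ W, W = ∑ n ∈ Finset.range (N + 1), c n * q n := ⟨_, rfl⟩
  obtain ⟨V, hV⟩ : ∃ V, V = ∑ n ∈ Finset.range (N + 1), c n * A ^ n * (L ^ n * x n) := ⟨_, rfl⟩
  obtain ⟨S, hS⟩ : ∃ S, S = ∑ n ∈ Finset.range (N + 1), c n * A ^ n * x n := ⟨_, rfl⟩
  have hg0 : ∀ n, 0 ≤ θ ^ n * (1 - θ) := fun n => mul_nonneg (pow_nonneg hθ0.le n) hθ'.le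
  have hQ0 : 0 ≤ Q := by
    rw [hQ]; exact Finset.sum_nonneg fun n _ => mul_nonneg (hg0 n) (hq0 n)
  have hgeo : ∑ n ∈ Finset.range (N + 1), 4 / (1 - θ) * ρ ^ n ≤ K := by
    rw [← Finset.mul_sum, hK, ← tsum_geometric_of_lt_one hρ0.le hρ1]
    apply mul_le_mul_of_nonneg_left _ (by positivity)
    exact (summable_geometric_of_lt_one hρ0.le hρ1).sum_le_tsum _ (fun n _ => pow_nonneg hρ0.le n)
  have hprod : ∀ n, θ ^ n * (1 - θ) * q n * (4 / (1 - θ) * ρ ^ n) =
      4 * (A ^ n * (L ^ n * x n)) ^ 2 := by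
    intro n
    have e1 : (A ^ 3 * B) ^ n = 1 := by rw [hAB, one_pow]
    rw [mul_pow, ← pow_mul] at e1
    rw [hqn, hρdef, div_pow, mul_pow, ← pow_mul, ← pow_mul]
    have hθn : 0 < θ ^ n := pow_pos hθ0 n
    have e2 : θ ^ n * (1 - θ) * (A ^ n * B ^ n * x n ^ 2) *
        (4 / (1 - θ) * (A ^ (4 * n) * L ^ (2 * n) / θ ^ n)) =
        4 * (A ^ n * B ^ n * A ^ (4 * n)) * L ^ (2 * n) * x n ^ 2 := by
      field_simp
    have e3 : A ^ n * B ^ n * A ^ (4 * n) = (A ^ (3 * n) * B ^ n) * A ^ (2 * n) := by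
      ring
    rw [e2, e3, e1]
    ring
  have hV2 : V ^ 2 ≤ Q * K := by
    have h1 : V ^ 2 ≤ Q * ∑ n ∈ Finset.range (N + 1), 4 / (1 - θ) * ρ ^ n := by
      rw [hV, hQ]
      refine Finset.sum_sq_le_sum_mul_sum_of_sq_le_mul _ (fun n _ => mul_nonneg (hg0 n) (hq0 n))
        (fun n _ => by positivity) (fun n _ => ?_)
      rw [hprod]
      have h3 : (c n) ^ 2 ≤ 4 := by nlinarith [hc1 n, hc2 n]
      have h4 : 0 ≤ (A ^ n * (L ^ n * x n)) ^ 2 := sq_nonneg _
      calc (c n * A ^ n * (L ^ n * x n)) ^ 2 = (c n) ^ 2 * (A ^ n * (L ^ n * x n)) ^ 2 := by ring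
        _ ≤ 4 * (A ^ n * (L ^ n * x n)) ^ 2 := mul_le_mul_of_nonneg_right h3 h4
    exact h1.trans (mul_le_mul_of_nonneg_left hgeo hQ0)
  have hS2 : S ^ 2 ≤ Q * K := by
    have h1 : S ^ 2 ≤ Q * ∑ n ∈ Finset.range (N + 1), 4 / (1 - θ) * ρ ^ n := by
      rw [hS, hQ]
      refine Finset.sum_sq_le_sum_mul_sum_of_sq_le_mul _ (fun n _ => mul_nonneg (hg0 n) (hq0 n))
        (fun n _ => by positivity) (fun n _ => ?_)
      rw [hprod]
      have h3 : (c n) ^ 2 ≤ 4 := by nlinarith [hc1 n, hc2 n]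
      have hLn : 1 ≤ (L ^ n) ^ 2 := one_le_pow₀ (one_le_pow₀ hL)
      calc (c n * A ^ n * x n) ^ 2 = (c n) ^ 2 * 1 * (A ^ n * x n) ^ 2 := by ring
        _ ≤ 4 * (L ^ n) ^ 2 * (A ^ n * x n) ^ 2 := by gcongr
        _ = 4 * (A ^ n * (L ^ n * x n)) ^ 2 := by ring
    exact h1.trans (mul_le_mul_of_nonneg_left hgeo hQ0)
  -- the sum
  have hsplit : ∑ n ∈ Finset.range (N + 1), (2 - θ ^ n) * A ^ n * field k d x n =
      ∑ n ∈ Finset.range (N + 1), c n * A ^ n * feed k x n -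
      ∑ n ∈ Finset.range (N + 1), c n * (A ^ n * (B ^ n * x n * x (n + 1))) - ν * V := by
    rw [hV, Finset.mul_sum, ← Finset.sum_sub_distrib, ← Finset.sum_sub_distrib]
    refine Finset.sum_congr rfl fun n _ => ?_
    unfold field
    rw [hk, hd, hc]; ring
  have hfeed : ∑ n ∈ Finset.range (N + 1), c n * A ^ n * feed k x n =
      A * (W + Q - c (N + 1) * q N) := by
    have e1 : W + Q - c (N + 1) * q N = ∑ n ∈ Finset.range N, c (n + 1) * q n := by
      have e2 : W + Q = ∑ n ∈ Finset.range (N + 1), c (n + 1) * q n := by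
        rw [hW, hQ, ← Finset.sum_add_distrib]
        refine Finset.sum_congr rfl fun n _ => ?_
        rw [hcg]; ring
      rw [e2, Finset.sum_range_succ]; ring
    rw [e1, Finset.sum_range_succ', Finset.mul_sum]
    have : c 0 * A ^ 0 * feed k x 0 = 0 := by simp [feed]
    rw [this, add_zero]
    refine Finset.sum_congr rfl fun n _ => ?_
    show c (n + 1) * A ^ (n + 1) * (k n * x n ^ 2) = _
    rw [hk, hqn, pow_succ]; ring
  have hnb : ∑ n ∈ Finset.range (N + 1), c n * (A ^ n * (B ^ n * x n * x (n + 1))) ≤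
      A / 2 * (2 * W + 2 * q (N + 1)) := by
    calc ∑ n ∈ Finset.range (N + 1), c n * (A ^ n * (B ^ n * x n * x (n + 1)))
        ≤ ∑ n ∈ Finset.range (N + 1), A / 2 * (c n * q n + c (n + 1) * q (n + 1)) := by
          refine Finset.sum_le_sum fun n _ => ?_
          have h1 := Blow.nb (A := A) (B := B) (s := A) (a := x n) (b := x (n + 1)) n hA hB hA
            (by rw [← hAB]; ring)
          rw [← hqn, ← hqn] at h1
          have h2 := mul_le_mul_of_nonneg_left h1 (by linarith [hc1 n] : (0 : ℝ) ≤ c n)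
          have h3 : c n * q (n + 1) ≤ c (n + 1) * q (n + 1) :=
            mul_le_mul_of_nonneg_right (by rw [hcg]; linarith [hg0 n]) (hq0 _)
          have h4 : A / 2 * (c n * q n + c n * q (n + 1)) ≤
              A / 2 * (c n * q n + c (n + 1) * q (n + 1)) :=
            mul_le_mul_of_nonneg_left (by linarith) (by positivity)
          linarith [h2, h4]
      _ = A / 2 * (W + (W + c (N + 1) * q (N + 1) - c 0 * q 0)) := by
          rw [← Finset.mul_sum, Finset.sum_add_distrib]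
          congr 2
          · rw [hW]
          · have h1 := Finset.sum_range_succ' (fun n => c n * q n) (N + 1)
            have h2 := Finset.sum_range_succ (fun n => c n * q n) (N + 1)
            rw [hW]; linarith
      _ ≤ _ := by
          apply mul_le_mul_of_nonneg_left _ (by positivity)
          have h1 : 0 ≤ c 0 * q 0 := mul_nonneg (by linarith [hc1 0]) (hq0 0)
          have h2 : c (N + 1) * q (N + 1) ≤ 2 * q (N + 1) :=
            mul_le_mul_of_nonneg_right (hc2 _) (hq0 _)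
          linarith
  have hSe : ∑ n ∈ Finset.range (N + 1), (2 - θ ^ n) * A ^ n * x n = S := by
    rw [hS]
    exact Finset.sum_congr rfl fun n _ => by rw [hc]
  rw [hsplit, hfeed, hSe, ← hqn, ← hqn]
  have h8 : A * (c (N + 1) * q N) ≤ A * (2 * q N) :=
    mul_le_mul_of_nonneg_left (mul_le_mul_of_nonneg_right (hc2 _) (hq0 _)) hA.le
  have hVb : ν * V ≤ A / (2 * K) * V ^ 2 + ν ^ 2 * K / (2 * A) := by
    have e : A / (2 * K) * V ^ 2 + ν ^ 2 * K / (2 * A) - ν * V =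
        (A * V - ν * K) ^ 2 / (2 * A * K) := by
      field_simp; ring
    have : 0 ≤ (A * V - ν * K) ^ 2 / (2 * A * K) := by positivity
    linarith
  have hcK : 0 < A / (2 * K) := by positivity
  have e3 : A / (2 * K) * (Q * K) = A / 2 * Q := by field_simp
  have h5 : A / (2 * K) * V ^ 2 ≤ A / 2 * Q := by
    rw [← e3]; exact mul_le_mul_of_nonneg_left hV2 hcK.le
  have h6 : A / (2 * K) * S ^ 2 ≤ A / 2 * Q := by
    rw [← e3]; exact mul_le_mul_of_nonneg_left hS2 hcK.le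
  have h9 : 0 ≤ A * q N := mul_nonneg hA.le (hq0 _)
  have h10 : 0 ≤ A * q (N + 1) := mul_nonneg hA.le (hq0 _)
  nlinarith [h5, h6, h8, h9, h10, hVb, hnb]

/-- no function on the closed interval `[0, 4 / (c R)]` starts at `R` and grows like this -/
theorem riccati {c K R : ℝ} (hc : 0 < c) (hR : 0 < R) (hcR : 2 * K ≤ c * R ^ 2) (S S' : ℝ → ℝ)
    (hS : ∀ t, 0 ≤ t → HasDerivWithinAt S (S' t) (Ici 0) t) (hS0 : R ≤ S 0)
    (hb : ∀ t, 0 ≤ t → t ≤ 4 / (c * R) → 0 ≤ S t → c * S t ^ 2 - K ≤ S' t) : False := by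
  have hcR0 : 0 < c * R := mul_pos hc hR
  obtain ⟨T, hT⟩ : ∃ T, T = 4 / (c * R) := ⟨_, rfl⟩
  have hT0 : 0 < T := by rw [hT]; positivity
  rw [← hT] at hb
  have hcont : ContinuousOn S (Icc 0 T) := fun t ht =>
    ((hS t ht.1).continuousWithinAt).mono (fun x hx => hx.1)
  obtain ⟨M, hM⟩ := isCompact_Icc.exists_bound_of_continuousOn hcont
  have hM0 : 0 ≤ M := (norm_nonneg _).trans (hM 0 ⟨le_rfl, hT0.le⟩)
  obtain ⟨δ, hδ⟩ : ∃ δ, δ = R / (M + R + 1) := ⟨_, rfl⟩
  have hden : 0 < M + R + 1 := by linarith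
  have hδ0 : 0 < δ := by rw [hδ]; positivity
  have hδ1 : δ < 1 := by rw [hδ, div_lt_one hden]; linarith
  obtain ⟨T', hT'⟩ : ∃ T', T' = T * (1 - δ) := ⟨_, rfl⟩
  have hT'0 : 0 ≤ T' := by rw [hT']; exact mul_nonneg hT0.le (by linarith)
  have hT'T : T' ≤ T := by rw [hT']; nlinarith
  have hcT : c * R / 4 * T = 1 := by rw [hT]; field_simp
  have hpos : ∀ t, t ≤ T' → δ ≤ 1 - c * R / 4 * t := by
    intro t ht
    have : c * R / 4 * t ≤ c * R / 4 * T' := mul_le_mul_of_nonneg_left ht (by positivity)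
    rw [hT', ← mul_assoc, hcT] at this
    linarith
  have hbd : ∀ t, t ≤ T' → HasDerivAt (fun t => R / (1 - c * R / 4 * t))
      (c / 4 * (R / (1 - c * R / 4 * t)) ^ 2) t := by
    intro t ht
    have hp : 1 - c * R / 4 * t ≠ 0 := by have := hpos t ht; linarith
    have h1 : HasDerivAt (fun t => 1 - c * R / 4 * t) (-(c * R / 4)) t := by
      have := ((hasDerivAt_id t).const_mul (c * R / 4)).const_sub 1
      simpa using this
    have h2 := (hasDerivAt_const t R).fun_div h1 hp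
    have e : c / 4 * (R / (1 - c * R / 4 * t)) ^ 2 =
        (0 * (1 - c * R / 4 * t) - R * -(c * R / 4)) / (1 - c * R / 4 * t) ^ 2 := by
      rw [div_pow, ← mul_div_assoc]
      congr 1
      ring
    rw [e]
    exact h2
  have hle := image_le_of_deriv_right_lt_deriv_boundary' (f := fun t => R / (1 - c * R / 4 * t))
    (f' := fun t => c / 4 * (R / (1 - c * R / 4 * t)) ^ 2) (a := 0) (b := T')
    (fun t ht => (hbd t ht.2).continuousAt.continuousWithinAt)
    (fun t ht => (hbd t ht.2.le).hasDerivWithinAt) (B := S) (B' := S')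
    (by simpa using hS0) (hcont.mono (Icc_subset_Icc le_rfl hT'T))
    (fun t ht => (hS t ht.1).mono (Ici_subset_Ici.2 ht.1))
    (by
      intro t ht he
      have hp := hpos t ht.2.le
      have hp1 : 1 - c * R / 4 * t ≤ 1 := by
        have : 0 ≤ c * R / 4 * t := mul_nonneg (by positivity) ht.1
        linarith
      have h2 : R ≤ R / (1 - c * R / 4 * t) := by
        rw [le_div_iff₀ (by linarith)]
        nlinarith
      have h3 : R ^ 2 ≤ (R / (1 - c * R / 4 * t)) ^ 2 := pow_le_pow_left₀ hR.le h2 2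
      have he' : R / (1 - c * R / 4 * t) = S t := he
      have h1 := hb t ht.1 (ht.2.le.trans hT'T) (by rw [← he']; linarith)
      rw [← he'] at h1
      have h4 : c * R ^ 2 ≤ c * (R / (1 - c * R / 4 * t)) ^ 2 := mul_le_mul_of_nonneg_left h3 hc.le
      have h5 : 0 < c * R ^ 2 := by positivity
      have h7 : 0 < c * (R / (1 - c * R / 4 * t)) ^ 2 := lt_of_lt_of_le h5 h4
      show c / 4 * (R / (1 - c * R / 4 * t)) ^ 2 < S' t
      linarith)
  have h1 := hle (x := T') ⟨hT'0, le_rfl⟩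
  have h2 : 1 - c * R / 4 * T' = δ := by rw [hT', ← mul_assoc, hcT]; ring
  have h3 : R / (1 - c * R / 4 * T') = M + R + 1 := by
    rw [h2, hδ]; field_simp
  have h4 := hM T' ⟨hT'0, hT'T⟩
  rw [Real.norm_eq_abs] at h4
  have h5 := le_abs_self (S T')
  have h6 : R / (1 - c * R / 4 * T') ≤ S T' := h1
  rw [h3] at h6
  linarith

lemma young {y δ : ℝ} (hy : 0 ≤ y) (hδ : 0 < δ) : y ^ 2 ≤ δ ^ 2 + y ^ 3 / δ := by
  rcases le_total y δ with h | h
  · have h1 : y ^ 2 ≤ δ ^ 2 := pow_le_pow_left₀ hy h 2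
    have h2 : 0 ≤ y ^ 3 / δ := by positivity
    linarith
  · have h1 : y ^ 2 ≤ y ^ 3 / δ := by
      rw [le_div_iff₀ hδ]
      nlinarith [mul_le_mul_of_nonneg_left h (sq_nonneg y)]
    have h2 : 0 ≤ δ ^ 2 := sq_nonneg δ
    linarith

/-- the quadratic quantity in terms of the cubic one -/
lemma young' {A B x δ : ℝ} (hA : 0 < A) (hAB : A ^ 3 * B = 1) (hx : 0 ≤ x) (hδ : 0 < δ) (n : ℕ) :
    A ^ n * B ^ n * x ^ 2 ≤ δ ^ 2 + B ^ n * x ^ 3 / δ := by
  have h := young (y := x / A ^ n) (δ := δ) (by positivity) hδ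
  have e1 : (A ^ 3 * B) ^ n = 1 := by rw [hAB, one_pow]
  rw [mul_pow, ← pow_mul] at e1
  have hAn : 0 < A ^ n := pow_pos hA n
  have e2 : (x / A ^ n) ^ 2 = A ^ n * B ^ n * x ^ 2 := by
    rw [div_pow, div_eq_iff (by positivity)]
    calc x ^ 2 = (A ^ (3 * n) * B ^ n) * x ^ 2 := by rw [e1, one_mul]
      _ = _ := by ring
  have e3 : (x / A ^ n) ^ 3 = B ^ n * x ^ 3 := by
    rw [div_pow, div_eq_iff (by positivity)]
    calc x ^ 3 = (A ^ (3 * n) * B ^ n) * x ^ 3 := by rw [e1, one_mul]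
      _ = _ := by ring
  rw [e2, e3] at h
  exact h

theorem t_ANOM (hF : S_FDEC) : S_ANOM := by
  intro lam β ν hlam hν hβ T hT
  have hlam0 : 0 < lam := by linarith
  obtain ⟨A, hAdef⟩ : ∃ A, A = lam ^ (-(β / 3)) := ⟨_, rfl⟩
  obtain ⟨B, hBdef⟩ : ∃ B, B = lam ^ β := ⟨_, rfl⟩
  have hA : 0 < A := by rw [hAdef]; positivity
  have hB : 0 < B := by rw [hBdef]; positivity
  have hAB : A ^ 3 * B = 1 := by
    rw [hAdef, hBdef, ← Real.rpow_natCast, ← Real.rpow_mul hlam0.le, ← Real.rpow_add hlam0]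
    have : -(β / 3) * ((3 : ℕ) : ℝ) + β = 0 := by push_cast; ring
    rw [this, Real.rpow_zero]
  have hL : 1 ≤ lam ^ 2 := one_le_pow₀ hlam.le
  have hη : A ^ 4 * (lam ^ 2) ^ 2 < 1 := by
    rw [hAdef, ← pow_mul, ← Real.rpow_natCast, ← Real.rpow_natCast, ← Real.rpow_mul hlam0.le,
      ← Real.rpow_add hlam0]
    apply Real.rpow_lt_one_of_one_lt_of_neg hlam
    push_cast
    linarith
  have hη0 : 0 < A ^ 4 * (lam ^ 2) ^ 2 := by positivity
  obtain ⟨θ, hθ⟩ : ∃ θ, θ = (1 + A ^ 4 * (lam ^ 2) ^ 2) / 2 := ⟨_, rfl⟩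
  have hθ0 : 0 < θ := by rw [hθ]; positivity
  have hθ1 : θ < 1 := by rw [hθ]; linarith
  have hρ : A ^ 4 * (lam ^ 2) ^ 2 < θ := by rw [hθ]; linarith
  have hk : ∀ n, coup lam β n = B ^ n := by
    intro n; unfold coup; rw [hBdef, Real.rpow_mul_natCast hlam0.le]
  have hd : ∀ n, damp lam ν n = ν * (lam ^ 2) ^ n := by
    intro n; unfold damp; rw [pow_mul]
  obtain ⟨K, hK⟩ : ∃ K, K = 4 / (1 - θ) * (1 - A ^ 4 * (lam ^ 2) ^ 2 / θ)⁻¹ := ⟨_, rfl⟩
  have hKpos : 0 < K := by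
    rw [hK]
    have h1 : 0 < 1 - θ := by linarith
    have h2 : 0 < 1 - A ^ 4 * (lam ^ 2) ^ 2 / θ := by
      have := (div_lt_one hθ0).2 hρ
      linarith
    positivity
  obtain ⟨c, hc⟩ : ∃ c, c = A / (2 * K) := ⟨_, rfl⟩
  obtain ⟨K3, hK3⟩ : ∃ K3, K3 = ν ^ 2 * K / (2 * A) := ⟨_, rfl⟩
  have hcpos : 0 < c := by rw [hc]; positivity
  have hK3pos : 0 < K3 := by rw [hK3]; positivity
  refine ⟨2 + 2 * K3 / c + 4 / (c * T), by positivity, ?_⟩
  intro R hR X hX hpos hX0 hXn hflux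
  -- the radius
  have hp1 : 0 < 2 * K3 / c := by positivity
  have hp2 : 0 < 4 / (c * T) := by positivity
  have hr1 : 1 ≤ R - 1 := by linarith
  have hcr : 2 * K3 ≤ c * (R - 1) ^ 2 := by
    have h1 : 2 * K3 / c ≤ R - 1 := by linarith
    rw [div_le_iff₀ hcpos] at h1
    nlinarith
  have hrT : 4 / (c * (R - 1)) ≤ T := by
    have h1 : 4 / (c * T) ≤ R - 1 := by linarith
    rw [div_le_iff₀ (by positivity)] at h1
    rw [div_le_iff₀ (by nlinarith)]
    linarith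
  -- summability and the cubic integrals
  have hsum : Summable (fun n => X n 0 ^ 2) := by
    apply summable_of_ne_finset_zero (s := {0})
    intro n hn
    rw [hXn n (Nat.pos_of_ne_zero (by simpa using hn))]
    norm_num
  have hT0 := hF lam β ν hlam hν X hX hpos hsum T hT.le hflux
  obtain ⟨δ, hδ⟩ : ∃ δ, δ = Real.sqrt (1 / (12 * A * T)) := ⟨_, rfl⟩
  have hδ0 : 0 < δ := by rw [hδ]; exact Real.sqrt_pos.2 (by positivity)
  have hδ2 : δ ^ 2 = 1 / (12 * A * T) := by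
    rw [hδ, Real.sq_sqrt (by positivity)]
  have hε : 0 < δ / (12 * A) := by positivity
  obtain ⟨N, hN⟩ := Filter.eventually_atTop.1
    (hT0.eventually (gt_mem_nhds hε))
  have hN1 := hN N le_rfl
  have hN2 := hN (N + 1) (Nat.le_succ N)
  -- the error term
  obtain ⟨e, he⟩ : ∃ e : ℝ → ℝ, e = fun t => 3 * A * (A ^ N * B ^ N * X N (max t 0) ^ 2 +
      A ^ (N + 1) * B ^ (N + 1) * X (N + 1) (max t 0) ^ 2) := ⟨_, rfl⟩
  have hcY := contY hX N
  have hcY1 := contY hX (N + 1)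
  have hec : Continuous e := by
    rw [he]
    exact continuous_const.mul ((continuous_const.mul (hcY.pow 2)).add
      (continuous_const.mul (hcY1.pow 2)))
  have he0 : ∀ t, 0 ≤ e t := fun t => by rw [he]; positivity
  have hcub : ∀ n, ∫ t in (0 : ℝ)..T, A ^ n * B ^ n * X n (max t 0) ^ 2 ≤
      δ ^ 2 * T + (∫ t in (0 : ℝ)..T, coup lam β n * X n t ^ 3) / δ := by
    intro n
    have hcn := contY hX n
    have e1 : (∫ t in (0 : ℝ)..T, coup lam β n * X n t ^ 3) =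
        ∫ t in (0 : ℝ)..T, B ^ n * X n (max t 0) ^ 3 := by
      apply intervalIntegral.integral_congr
      intro t ht
      rw [uIcc_of_le hT.le] at ht
      simp only
      rw [hk, max_eq_left ht.1]
    have hc3 : Continuous fun t => B ^ n * X n (max t 0) ^ 3 := continuous_const.mul (hcn.pow 3)
    have hc2 : Continuous fun t => A ^ n * B ^ n * X n (max t 0) ^ 2 :=
      continuous_const.mul (hcn.pow 2)
    have e2 : δ ^ 2 * T + (∫ t in (0 : ℝ)..T, B ^ n * X n (max t 0) ^ 3) / δ =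
        ∫ t in (0 : ℝ)..T, (δ ^ 2 + B ^ n * X n (max t 0) ^ 3 / δ) := by
      rw [intervalIntegral.integral_add intervalIntegrable_const
        ((hc3.div_const δ).intervalIntegrable _ _), intervalIntegral.integral_const,
        intervalIntegral.integral_div, smul_eq_mul]
      ring
    rw [e1, e2]
    apply intervalIntegral.integral_mono_on hT.le (hc2.intervalIntegrable _ _)
      ((continuous_const.add (hc3.div_const δ)).intervalIntegrable _ _)
    intro t ht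
    exact young' hA hAB (hpos n _ (le_max_right t 0)) hδ0 n
  obtain ⟨J, hJ⟩ : ∃ J : ℝ → ℝ, J = fun t => ∫ s in (0 : ℝ)..t, e s := ⟨_, rfl⟩
  have hJd : ∀ t, HasDerivAt J (e t) t := by
    intro t
    rw [hJ]
    exact (hec.integral_hasStrictDerivAt 0 t).hasDerivAt
  have hJ0 : J 0 = 0 := by rw [hJ]; simp
  have hJT : J T ≤ 1 := by
    have hc2 : ∀ n, Continuous fun t => A ^ n * B ^ n * X n (max t 0) ^ 2 := fun n =>
      continuous_const.mul ((contY hX n).pow 2)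
    have e1 : J T = 3 * A * ((∫ t in (0 : ℝ)..T, A ^ N * B ^ N * X N (max t 0) ^ 2) +
        ∫ t in (0 : ℝ)..T, A ^ (N + 1) * B ^ (N + 1) * X (N + 1) (max t 0) ^ 2) := by
      rw [hJ, he]
      simp only
      rw [intervalIntegral.integral_const_mul, intervalIntegral.integral_add
        ((hc2 N).intervalIntegrable _ _) ((hc2 (N + 1)).intervalIntegrable _ _)]
    have h1 := hcub N
    have h2 := hcub (N + 1)
    have h3 : (∫ t in (0 : ℝ)..T, coup lam β N * X N t ^ 3) / δ ≤ 1 / (12 * A) := by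
      rw [div_le_iff₀ hδ0]
      calc (∫ t in (0 : ℝ)..T, coup lam β N * X N t ^ 3) ≤ δ / (12 * A) := hN1.le
        _ = 1 / (12 * A) * δ := by ring
    have h4 : (∫ t in (0 : ℝ)..T, coup lam β (N + 1) * X (N + 1) t ^ 3) / δ ≤ 1 / (12 * A) := by
      rw [div_le_iff₀ hδ0]
      calc (∫ t in (0 : ℝ)..T, coup lam β (N + 1) * X (N + 1) t ^ 3) ≤ δ / (12 * A) := hN2.le
        _ = 1 / (12 * A) * δ := by ring
    have h5 : δ ^ 2 * T = 1 / (12 * A) := by
      rw [hδ2]; field_simp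
    rw [e1]
    calc 3 * A * ((∫ t in (0 : ℝ)..T, A ^ N * B ^ N * X N (max t 0) ^ 2) +
        ∫ t in (0 : ℝ)..T, A ^ (N + 1) * B ^ (N + 1) * X (N + 1) (max t 0) ^ 2)
        ≤ 3 * A * (4 * (1 / (12 * A))) := by
          apply mul_le_mul_of_nonneg_left _ (by positivity)
          linarith
      _ = 1 := by field_simp; norm_num
  have hJle : ∀ t, t ≤ T → 0 ≤ t → J t ≤ 1 := by
    intro t ht ht0
    refine le_trans ?_ hJT
    rw [hJ]
    simp only
    rw [← intervalIntegral.integral_add_adjacent_intervals (b := t)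
      (hec.intervalIntegrable 0 t) (hec.intervalIntegrable t T)]
    have := intervalIntegral.integral_nonneg (μ := volume) (f := e) ht (fun u _ => he0 u)
    linarith
  refine riccati (c := c) (K := K3) (R := R - 1) hcpos (by linarith) hcr
    (fun t => (∑ n ∈ Finset.range (N + 1), (2 - θ ^ n) * A ^ n * X n t) + (J t - 1))
    (fun t => (∑ n ∈ Finset.range (N + 1), (2 - θ ^ n) * A ^ n *
      field (coup lam β) (damp lam ν) (fun j => X j t) n) + e t) ?_ ?_ ?_
  · intro t ht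
    exact (HasDerivWithinAt.fun_sum fun n _ => (hX n t ht).const_mul ((2 - θ ^ n) * A ^ n)).add
      ((hJd t).sub_const 1).hasDerivWithinAt
  · show R - 1 ≤ (∑ n ∈ Finset.range (N + 1), (2 - θ ^ n) * A ^ n * X n 0) + (J 0 - 1)
    rw [Finset.sum_eq_single 0, hX0, hJ0]
    · norm_num
    · intro n _ hn; rw [hXn n (Nat.pos_of_ne_zero hn)]; simp
    · intro h; exact absurd (Finset.mem_range.2 (Nat.succ_pos N)) h
  · intro t ht0 ht hu
    have h1 := static (A := A) (B := B) (L := lam ^ 2) (ν := ν) (K := K) (θ := θ)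
      hA hB hL hAB hθ0 hθ1 hρ hK hk hd (fun j => X j t) N
    have h2 := hJle t (ht.trans hrT) ht0
    rw [← hc, ← hK3] at h1
    have h3 : e t = 3 * A * (A ^ N * B ^ N * X N t ^ 2 +
        A ^ (N + 1) * B ^ (N + 1) * X (N + 1) t ^ 2) := by
      rw [he]; simp only; rw [max_eq_left ht0]
    beta_reduce at h1 hu ⊢
    rw [← h3] at h1
    obtain ⟨S, hS⟩ : ∃ S, S = ∑ n ∈ Finset.range (N + 1), (2 - θ ^ n) * A ^ n * X n t := ⟨_, rfl⟩
    rw [← hS] at h1 hu ⊢
    have h4 : (S + (J t - 1)) ^ 2 ≤ S ^ 2 := pow_le_pow_left₀ hu (by linarith) 2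
    have h5 := mul_le_mul_of_nonneg_left h4 hcpos.le
    linarith

end Pool.Agent.N841.DY.Anom

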