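import Pool.Agent.N841.DY.Stm

/-!
The barrier.
-/

set_option autoImplicit false

open Set Filter Topology

noncomputable section

namespace Pool.Agent.N841.DY.Bar

/-- previous component, `0` for `n = 0` -/
def prev (b : ℕ → ℝ → ℝ) : ℕ → ℝ → ℝ
  | 0 => fun _ => 0
  | n + 1 => b n

theorem gcurve_mono_one {x : ℝ} (h0 : 0 ≤ x) (h1 : x ≤ 1) : gcurve x ≤ 1 := by
  unfold gcurve
  nlinarith

theorem barrier_abs (hE : S_EXIT) (hKA : S_KA) (hKB : S_KB)
    (b D m : ℕ → ℝ → ℝ) (θ σ Λ ε T : ℝ) (hε : 0 < ε) (hσ1 : 1 ≤ σ) (hσ2 : σ ≤ 1 + 1 / 500)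
    (hθ : 1 - 3 / 500 ≤ θ) (hΛ : 4 ≤ Λ)
    (hm : ∀ n t, 0 < m n t) (hm' : ∀ n t, m (n + 1) t = Λ / σ * m n t)
    (hD0 : ∀ n t, 0 ≤ t → t ≤ T → 0 < D n t)
    (hDσ : ∀ n t, 0 ≤ t → t ≤ T → σ ≤ 1 + D n t / 500)
    (hDθ : ∀ n t, 0 ≤ t → t ≤ T → 1 - 3 * D n t / 500 ≤ θ)
    (hD1 : ∀ n t, D (n + 1) t = σ * D n t)
    (hDd : ∀ n t, 0 ≤ t → HasDerivWithinAt (D n) (-ε * D n t) (Ici 0) t)
    (hb0 : ∀ n t, 0 ≤ t → 0 ≤ b n t)
    (hbd : ∀ n t, 0 ≤ t → HasDerivWithinAt (b n)
      (m n t * (prev b n t ^ 2 - θ * b n t * b (n + 1) t - D n t * b n t) - ε * b n t) (Ici 0) t)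
    (N : ℕ) (hN : ∀ t, 0 ≤ t → t ≤ T → 1 ≤ D N t) (hbi : ∀ n, n ≤ N + 2 → b n 0 ≤ 1 / 6) :
    ∀ n, n ≤ N + 2 → ∀ t, 0 ≤ t → t ≤ T → b n t ≤ 1 := by
  have hθ0 : 0 < θ := by linarith
  have hσ0 : 0 < σ := by linarith
  have hDge : ∀ n, N ≤ n → ∀ t, 0 ≤ t → t ≤ T → 1 ≤ D n t := by
    intro n hn
    induction n, hn using Nat.le_induction with
    | base => exact hN
    | succ k hk ih =>
      intro t h0 h1
      rw [hD1]
      have := ih t h0 h1
      nlinarith
  let ι := Fin (N + 3) ⊕ (Fin N ⊕ Fin (N + 1))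
  let S : ℕ → ℝ → ℝ := fun n t => (if n = 0 then 12 / 25 else 1) - b n t
  let S' : ℕ → ℝ → ℝ := fun n t => 0 -
    (m n t * (prev b n t ^ 2 - θ * b n t * b (n + 1) t - D n t * b n t) - ε * b n t)
  let F : ℕ → ℝ → ℝ := fun n t => θ * b (n + 1) t + D n t - b n t * (6 * b n t - 1) / 5
  let B : ℕ → ℝ → ℝ := fun n t =>
    m n t * (prev b n t ^ 2 - θ * b n t * b (n + 1) t - D n t * b n t) - ε * b n t
  let F' : ℕ → ℝ → ℝ := fun n t => θ * B (n + 1) t + -ε * D n t - (12 * b n t - 1) / 5 * B n t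
  let G : ℕ → ℝ → ℝ := fun n t =>
    1 - 13 / 25 * (1 - b n t) + (D n t + θ - 1) / 18 - b (n + 1) t
  let G' : ℕ → ℝ → ℝ := fun n t => 13 / 25 * B n t + -ε * D n t / 18 - B (n + 1) t
  have hSd : ∀ n t, 0 ≤ t → HasDerivWithinAt (S n) (S' n t) (Ici 0) t := by
    intro n t ht
    exact (hasDerivWithinAt_const t (Ici (0:ℝ)) _).sub (hbd n t ht)
  have hFd : ∀ n t, 0 ≤ t → HasDerivWithinAt (F n) (F' n t) (Ici 0) t := by
    intro n t ht
    have h1 := ((hbd (n + 1) t ht).const_mul θ).add (hDd n t ht)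
    have hb := hbd n t ht
    have h2 := (hb.mul ((hb.const_mul 6).sub_const 1)).div_const 5
    refine (h1.sub h2).congr_deriv ?_
    simp only [F', B]
    ring
  have hGd : ∀ n t, 0 ≤ t → HasDerivWithinAt (G n) (G' n t) (Ici 0) t := by
    intro n t ht
    have h1 := hbd (n + 1) t ht
    have hb := hbd n t ht
    have h3 := hDd n t ht
    have h2 := ((hasDerivWithinAt_const t (Ici (0:ℝ)) (1:ℝ)).sub
      ((((hasDerivWithinAt_const t (Ici (0:ℝ)) (1:ℝ)).sub hb)).const_mul (13 / 25))).add
      (((h3.add_const θ).sub_const 1).div_const 18)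
    refine (h2.sub h1).congr_deriv ?_
    simp only [G', B]
    ring
  let φ : ι → ℝ → ℝ := Sum.elim (fun i => S i) (Sum.elim (fun i => F i) (fun i => G i))
  let φ' : ι → ℝ → ℝ := Sum.elim (fun i => S' i) (Sum.elim (fun i => F' i) (fun i => G' i))
  by_cases hT : 0 ≤ T
  swap
  · intro n _ t h0 h1
    linarith
  have key : ∀ t, 0 ≤ t → t ≤ T → ∀ i, 0 < φ i t := by
    refine hE ι φ φ' T ?_ ?_ ?_
    · rintro (i | i | i) t ht _
      · exact hSd i t ht
      · exact hFd i t ht
      · exact hGd i t ht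
    · rintro (i | i | i)
      · have := hbi i (by omega)
        simp only [φ, S, Sum.elim_inl]
        split_ifs <;> linarith
      · have h1 := hbi i (by omega)
        have h2 := hb0 i 0 le_rfl
        have h3 := hD0 i 0 le_rfl hT
        have h4 := hb0 (i + 1) 0 le_rfl
        simp only [φ, F, Sum.elim_inl, Sum.elim_inr]
        have h5 : 0 ≤ θ * b (i + 1) 0 := by positivity
        nlinarith
      · have h1 := hbi (i + 1) (by omega)
        have h2 := hb0 i 0 le_rfl
        have h3 := hD0 i 0 le_rfl hT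
        simp only [φ, G, Sum.elim_inr]
        linarith
    · intro t h0 h1 hall
      have hb : ∀ n, 0 ≤ b n t := fun n => hb0 n t h0
      have hS : ∀ n, n ≤ N + 2 → b n t ≤ 1 := by
        intro n hn
        have := hall (Sum.inl ⟨n, by omega⟩)
        simp only [φ, S, Sum.elim_inl] at this
        split_ifs at this <;> linarith
      have hS0 : b 0 t ≤ 12 / 25 := by
        have := hall (Sum.inl ⟨0, by omega⟩)
        simp only [φ, S, Sum.elim_inl, if_true] at this
        linarith
      have hF : ∀ n, n ≤ N + 2 → gcurve (b n t) ≤ θ * b (n + 1) t + D n t := by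
        intro n hn
        by_cases hnN : n < N
        · have := hall (Sum.inr (Sum.inl ⟨n, hnN⟩))
          simp only [φ, F, Sum.elim_inl, Sum.elim_inr] at this
          unfold gcurve
          linarith
        · have h2 := hDge n (by omega) t h0 h1
          have h3 := gcurve_mono_one (hb n) (hS n hn)
          have h4 := hb (n + 1)
          have h5 : 0 ≤ θ * b (n + 1) t := by positivity
          linarith
      have hG : ∀ n, n ≤ N →
          b (n + 1) t ≤ 1 - 13 / 25 * (1 - b n t) + (D n t + θ - 1) / 18 := by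
        intro n hn
        have := hall (Sum.inr (Sum.inr ⟨n, by omega⟩))
        simp only [φ, G, Sum.elim_inr] at this
        linarith
      have hp0 : ∀ n, 0 ≤ prev b n t := by
        intro n; cases n with
        | zero => simp [prev]
        | succ k => exact hb k
      have hp1 : ∀ n, n ≤ N + 3 → prev b n t ≤ 1 := by
        intro n hn; cases n with
        | zero => simp [prev]
        | succ k => exact hS k (by omega)
      have casS : ∀ n, n ≤ N + 2 → S n t = 0 → 0 < S' n t := by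
        intro n hin hi
        simp only [S, S'] at hi ⊢
        cases n with
        | zero =>
          simp only [if_true] at hi
          simp only [prev]
          have h2 := hm 0 t
          have h3 := hD0 0 t h0 h1
          have h4 := hb 1
          have h5 : b 0 t = 12 / 25 := by linarith
          rw [h5]
          have h6 : 0 ≤ m 0 t * (θ * (12 / 25) * b (0 + 1) t + D 0 t * (12 / 25)) := by positivity
          nlinarith
        | succ k =>
          simp only [Nat.succ_ne_zero, if_false] at hi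
          have h5 : b (k + 1) t = 1 := by linarith
          have h6 := hF (k + 1) hin
          rw [h5] at h6
          have h7 : gcurve 1 = 1 := by unfold gcurve; norm_num
          rw [h7] at h6
          have h8 := hp1 (k + 1) (by omega)
          have h9 := hp0 (k + 1)
          rw [h5]
          have h10 : prev b (k + 1) t ^ 2 ≤ 1 := by nlinarith
          have h11 := hm (k + 1) t
          have h12 : 0 ≤ m (k + 1) t * (θ * b (k + 1 + 1) t + D (k + 1) t - prev b (k + 1) t ^ 2) := by
            apply mul_nonneg h11.le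
            linarith
          nlinarith
      have casF : ∀ n, n < N → F n t = 0 → 0 < F' n t := by
        intro n hin hi
        simp only [F, F'] at hi ⊢
        have hDn := hD0 n t h0 h1
        have hbn1 := hb (n + 1)
        have hg : θ * b (n + 1) t + D n t = gcurve (b n t) := by
          unfold gcurve; linarith
        have hz : b (n + 2) t ≤ 1 - 13 / 25 * (1 - b (n + 1) t) + (σ * D n t + θ - 1) / 18 := by
          have := hG (n + 1) (by omega)
          rw [hD1] at this
          exact this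
        have hw : gcurve (prev b n t) ≤ θ * b n t + D n t / σ := by
          cases n with
          | zero =>
            have h3 := hb 0
            have : gcurve (prev b 0 t) = 0 := by simp [prev, gcurve]
            rw [this]
            positivity
          | succ k =>
            have h3 := hF k (by omega)
            have h4 : D (k + 1) t / σ = D k t := by
              rw [hD1]; field_simp
            rw [h4]
            exact h3
        have hK := hKA (prev b n t) (b n t) (b (n + 1) t) (b (n + 2) t) (D n t) θ σ Λ (hp0 n)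
          (hp1 n (by omega)) (hb n) (hS n (by omega)) (hb _) (hb _) (hS _ (by omega)) hDn hσ1
          (hDσ n t h0 h1) (hDθ n t h0 h1) hΛ hg hz hw
        have hmn := hm n t
        have hxpos : 0 < b n t := by
          rcases (hb n).lt_or_eq with h | h
          · exact h
          · exfalso
            have h5 : 0 ≤ θ * b (n + 1) t := by positivity
            rw [← h] at hg
            unfold gcurve at hg
            nlinarith
        have hq : (12 * b n t - 1) / 5 * b n t - θ * b (n + 1) t - D n t = 6 / 5 * b n t ^ 2 := by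
          have : θ * b (n + 1) t + D n t = b n t * (6 * b n t - 1) / 5 := by linarith
          nlinarith
        have hB : θ * B (n + 1) t + -ε * D n t - (12 * b n t - 1) / 5 * B n t
            = m n t * (Λ / σ * (θ * (b n t ^ 2 - b (n + 1) t * (θ * b (n + 2) t + σ * D n t)))
              - (12 * b n t - 1) / 5 * (prev b n t ^ 2 - b n t * (θ * b (n + 1) t + D n t)))
              + ε * ((12 * b n t - 1) / 5 * b n t - θ * b (n + 1) t - D n t) := by
          simp only [B, prev, hm', hD1]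
          ring
        rw [hB, hq]
        have h1' : 0 ≤ m n t * (Λ / σ * (θ * (b n t ^ 2 - b (n + 1) t * (θ * b (n + 2) t + σ * D n t)))
              - (12 * b n t - 1) / 5 * (prev b n t ^ 2 - b n t * (θ * b (n + 1) t + D n t))) :=
          mul_nonneg hmn.le (by linarith)
        have h2' : 0 < ε * (6 / 5 * b n t ^ 2) := by positivity
        linarith
      have casG : ∀ n, n ≤ N → G n t = 0 → 0 < G' n t := by
        intro n hin hi
        simp only [G, G'] at hi ⊢
        have hDn := hD0 n t h0 h1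
        have hy : b (n + 1) t = 1 - 13 / 25 * (1 - b n t) + (D n t + θ - 1) / 18 := by linarith
        have hx : b n t ≤ 1 - 13 / 25 * (1 - prev b n t) + (D n t / σ + θ - 1) / 18 := by
          cases n with
          | zero =>
            have h3 : prev b 0 t = 0 := rfl
            rw [h3]
            have h4 := hDθ 0 t h0 h1
            have h5 : D 0 t * (3 / 500) ≤ D 0 t / σ := by
              rw [le_div_iff₀ hσ0]
              nlinarith
            linarith
          | succ k =>
            have h3 := hG k (by omega)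
            have h4 : D (k + 1) t / σ = D k t := by
              rw [hD1]; field_simp
            rw [h4]
            exact h3
        have hgy : gcurve (b (n + 1) t) ≤ θ * b (n + 2) t + σ * D n t := by
          have := hF (n + 1) (by omega)
          rw [hD1] at this
          exact this
        have hK := hKB (prev b n t) (b n t) (b (n + 1) t) (b (n + 2) t) (D n t) θ σ Λ (hp0 n)
          (hp1 n (by omega)) (hb n) (hS n (by omega)) (hb _) (hS _ (by omega)) (hb _)
          (hS _ (by omega)) hDn hσ1 (hDσ n t h0 h1) hσ2 (hDθ n t h0 h1) hθ hΛ hy hx hgy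
        have hmn := hm n t
        have hB : 13 / 25 * B n t + -ε * D n t / 18 - B (n + 1) t
            = m n t * (13 / 25 * (prev b n t ^ 2 - b n t * (θ * b (n + 1) t + D n t))
              - Λ / σ * (b n t ^ 2 - b (n + 1) t * (θ * b (n + 2) t + σ * D n t)))
              + ε * (b (n + 1) t - 13 / 25 * b n t - D n t / 18) := by
          simp only [B, prev, hm', hD1]
          ring
        rw [hB]
        have h1' : 0 ≤ m n t * (13 / 25 * (prev b n t ^ 2 - b n t * (θ * b (n + 1) t + D n t))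
              - Λ / σ * (b n t ^ 2 - b (n + 1) t * (θ * b (n + 2) t + σ * D n t))) :=
          mul_nonneg hmn.le (by linarith)
        have h2' : 0 < ε * (b (n + 1) t - 13 / 25 * b n t - D n t / 18) := by
          apply mul_pos hε
          rw [hy]
          linarith
        linarith
      rintro (i | i | i) hi
      · exact casS i (by omega) hi
      · exact casF i i.2 hi
      · exact casG i (by omega) hi
  intro n hn t h0 h1
  have := key t h0 h1 (Sum.inl ⟨n, by omega⟩)
  simp only [φ, S, Sum.elim_inl] at this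
  split_ifs at this <;> linarith

theorem coup_eq {lam : ℝ} (hlam : 0 < lam) (β : ℝ) (n : ℕ) : coup lam β n = (lam ^ β) ^ n := by
  unfold coup
  rw [Real.rpow_mul hlam.le, Real.rpow_natCast]

theorem damp_eq {lam : ℝ} (ν : ℝ) (n : ℕ) : damp lam ν n = ν * (lam ^ 2) ^ n := by
  unfold damp
  rw [pow_mul]

theorem bar_eps (hE : S_EXIT) (hKA : S_KA) (hKB : S_KB) {L ν A a σ c0 lam : ℝ} (hL : 0 < L)
    (hν : 0 < ν) (hA : 0 < A) (ha : 0 < a) (hσ1 : 1 < σ) (hσ2 : σ ≤ 1 + 1 / 1500)
    (hc0 : c0 = a * σ) (hlam : 2 ≤ lam) (hLc : L * c0 = lam ^ 2) (hc : 1 ≤ lam * c0)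
    (hd : σ - 1 ≤ ν * L * c0 ^ 2 / (4 * A) / 1500)
    (X : ℕ → ℝ → ℝ) (hX : IsSol (fun n => L ^ n) (fun n => ν * (lam ^ 2) ^ n) X)
    (hX0 : ∀ n t, 0 ≤ t → 0 ≤ X n t) (N : ℕ) (hN : 2 ≤ ν * L * a ^ 2 / A * σ ^ N)
    (hi : ∀ n, n ≤ N + 2 → X n 0 ≤ A / 6 * a ^ n)
    (T : ℝ) (ε : ℝ) (hε : 0 < ε) (hεT : ε * T ≤ 1 / 2) (n : ℕ) (hn : n ≤ N + 2) (t : ℝ)
    (h0 : 0 ≤ t) (h1 : t ≤ T) :
    X n t ≤ A * a ^ n * Real.exp (ε * t) := by
  have hσ0 : 0 < σ := by linarith
  have hc00 : 0 < c0 := by rw [hc0]; positivity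
  set D0 : ℝ := ν * L * a ^ 2 / A with hD0
  have hD0pos : 0 < D0 := by positivity
  set θ : ℝ := L * a ^ 3 with hθdef
  have hD0ge : ν * L * c0 ^ 2 / (4 * A) ≤ D0 := by
    rw [hD0, hc0, div_le_div_iff₀ (by positivity) hA]
    have h2 : σ ^ 2 ≤ 4 := by nlinarith
    have h3 : 0 ≤ ν * L * a ^ 2 * A := by positivity
    nlinarith
  have hθge : 1 - 3 * (σ - 1) ≤ θ := by
    have h2 : θ * σ ^ 3 = (lam * c0) ^ 2 := by
      rw [hθdef, mul_pow, ← hLc, hc0]; ring
    have h3 : 1 ≤ θ * σ ^ 3 := by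
      rw [h2]; nlinarith
    have h4 : (1 - 3 * (σ - 1)) * σ ^ 3 ≤ 1 := by
      nlinarith [sq_nonneg (σ - 1), mul_pos hσ0 hσ0, mul_pos (mul_pos hσ0 hσ0) hσ0,
        mul_nonneg hσ0.le (sq_nonneg (σ - 1)), mul_nonneg (sq_nonneg σ) (sq_nonneg (σ - 1)),
        sq_nonneg (σ ^ 2 - 1), sq_nonneg (σ ^ 2 - σ)]
    have h5 : 0 < σ ^ 3 := by positivity
    have h6 : (1 - 3 * (σ - 1)) * σ ^ 3 ≤ θ * σ ^ 3 := h4.trans h3
    exact le_of_mul_le_mul_right h6 h5
  let b : ℕ → ℝ → ℝ := fun n t => X n t * Real.exp (-ε * t) / (A * a ^ n)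
  let D : ℕ → ℝ → ℝ := fun n t => D0 * σ ^ n * Real.exp (-ε * t)
  let m : ℕ → ℝ → ℝ := fun n t => A * (Real.exp (-ε * t))⁻¹ * L⁻¹ * (a ^ 2)⁻¹ * (L * a) ^ n
  have hexpge : ∀ t, t ≤ T → 1 / 2 ≤ Real.exp (-ε * t) := by
    intro t ht
    have h2 : -(1 / 2) ≤ -ε * t := by nlinarith
    have h3 := Real.add_one_le_exp (-ε * t)
    linarith
  have hDge : ∀ n t, t ≤ T → D0 / 2 ≤ D n t := by
    intro n t ht
    have h2 := hexpge t ht
    have h3 : 1 ≤ σ ^ n := one_le_pow₀ hσ1.le
    have h4 : D0 * 1 * (1 / 2) ≤ D0 * σ ^ n * Real.exp (-ε * t) := by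
      gcongr
    simp only [D]
    linarith
  have hσD : ∀ n t, t ≤ T → σ - 1 ≤ D n t / 750 := by
    intro n t ht
    have := hDge n t ht
    linarith
  have hexpd : ∀ t : ℝ, HasDerivWithinAt (fun t => Real.exp (-ε * t))
      (-ε * Real.exp (-ε * t)) (Ici 0) t := by
    intro t
    have h2 : HasDerivAt (fun t : ℝ => -ε * t) (-ε) t := by
      simpa using (hasDerivAt_id t).const_mul (-ε)
    have h3 := h2.exp
    exact (h3.congr_deriv (by ring)).hasDerivWithinAt
  by_cases hT : 0 ≤ T
  swap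
  · linarith
  have hres := barrier_abs hE hKA hKB b D m θ σ (lam ^ 2) ε T hε hσ1.le (by linarith) (by linarith)
    (by nlinarith)
    (by intro n t; positivity)
    (by
      intro n t
      have h2 : lam ^ 2 / σ = L * a := by
        rw [← hLc, hc0]; field_simp
      simp only [m]
      rw [h2]; ring)
    (by intro n t _ _; positivity)
    (by intro n t _ ht; have := hσD n t ht; have := hDge n t ht; linarith)
    (by intro n t _ ht; have := hσD n t ht; have := hDge n t ht; linarith)
    (by intro n t; simp only [D]; ring)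
    (by
      intro n t _
      exact ((hexpd t).const_mul (D0 * σ ^ n)).congr_deriv (by simp only [D]; ring))
    (by intro n t ht; have := hX0 n t ht; positivity)
    (by
      intro n t ht
      have h2 := ((hX n t ht).mul (hexpd t)).div_const (A * a ^ n)
      refine h2.congr_deriv ?_
      have hEne : Real.exp (-ε * t) ≠ 0 := (Real.exp_pos _).ne'
      have hlam2 : lam ^ 2 = L * (a * σ) := by rw [← hLc, hc0]
      cases n with
      | zero =>
        simp only [field, feed, prev, b, m, D, hD0, hθdef]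
        field_simp
        ring
      | succ k =>
        simp only [field, feed, prev, b, m, D, hD0, hθdef, hlam2]
        field_simp
        ring)
    N (by
      intro t _ ht
      have h2 := hexpge t ht
      have h5 : 2 ≤ D0 * σ ^ N := hN
      simp only [D]
      nlinarith)
    (by
      intro n hn
      have := hi n hn
      simp only [b]
      rw [mul_zero, Real.exp_zero, mul_one, div_le_iff₀ (by positivity)]
      linarith)
    n hn t h0 h1
  simp only [b] at hres
  rw [div_le_iff₀ (by positivity)] at hres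
  have h2 : Real.exp (-ε * t) * Real.exp (ε * t) = 1 := by
    rw [← Real.exp_add]; simp
  have h3 := Real.exp_pos (ε * t)
  calc X n t = X n t * Real.exp (-ε * t) * Real.exp (ε * t) := by rw [mul_assoc, h2, mul_one]
    _ ≤ (1 * (A * a ^ n)) * Real.exp (ε * t) := by gcongr
    _ = A * a ^ n * Real.exp (ε * t) := by ring

theorem bar_lim (hE : S_EXIT) (hKA : S_KA) (hKB : S_KB) {L ν A a σ c0 lam : ℝ} (hL : 0 < L)
    (hν : 0 < ν) (hA : 0 < A) (ha : 0 < a) (hσ1 : 1 < σ) (hσ2 : σ ≤ 1 + 1 / 1500)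
    (hc0 : c0 = a * σ) (hlam : 2 ≤ lam) (hLc : L * c0 = lam ^ 2) (hc : 1 ≤ lam * c0)
    (hd : σ - 1 ≤ ν * L * c0 ^ 2 / (4 * A) / 1500)
    (X : ℕ → ℝ → ℝ) (hX : IsSol (fun n => L ^ n) (fun n => ν * (lam ^ 2) ^ n) X)
    (hX0 : ∀ n t, 0 ≤ t → 0 ≤ X n t) (N : ℕ) (hN : 2 ≤ ν * L * a ^ 2 / A * σ ^ N)
    (hi : ∀ n, n ≤ N + 2 → X n 0 ≤ A / 6 * a ^ n)
    (n : ℕ) (hn : n ≤ N + 2) (t : ℝ) (ht : 0 ≤ t) :
    X n t ≤ A * a ^ n := by
  have hev : ∀ᶠ ε in 𝓝[>] (0:ℝ), X n t ≤ A * a ^ n * Real.exp (ε * t) := by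
    have h1 : ∀ᶠ ε in 𝓝[>] (0:ℝ), ε < 1 / (2 * (t + 1)) :=
      nhdsWithin_le_nhds (gt_mem_nhds (by positivity))
    filter_upwards [h1, self_mem_nhdsWithin] with ε h2 h3
    have h3' : 0 < ε := h3
    rw [lt_div_iff₀ (by positivity)] at h2
    exact bar_eps hE hKA hKB hL hν hA ha hσ1 hσ2 hc0 hlam hLc hc hd X hX hX0
      N hN hi t ε h3' (by nlinarith) n hn t ht le_rfl
  have hlim : Tendsto (fun ε : ℝ => A * a ^ n * Real.exp (ε * t)) (𝓝[>] 0)
      (𝓝 (A * a ^ n)) := by
    have h1 : Continuous (fun ε : ℝ => A * a ^ n * Real.exp (ε * t)) := by fun_prop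
    have h2 := h1.tendsto 0
    simp only [zero_mul, Real.exp_zero, mul_one] at h2
    exact h2.mono_left nhdsWithin_le_nhds
  exact ge_of_tendsto hlim hev

theorem t_BAR (hE : S_EXIT) (hKA : S_KA) (hKB : S_KB) : S_BAR := by
  intro lam β ν hlam hν hβ X hX hX0 C a₁ ha₁ ha₁' hinit
  have hlam0 : 0 < lam := by linarith
  have hlam1 : 1 < lam := by linarith
  set L : ℝ := lam ^ β with hLdef
  have hL : 0 < L := Real.rpow_pos_of_pos hlam0 _
  set c0 : ℝ := lam ^ (2 - β) with hc0def
  have hc00 : 0 < c0 := Real.rpow_pos_of_pos hlam0 _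
  have hLc : L * c0 = lam ^ 2 := by
    rw [hLdef, hc0def, ← Real.rpow_add hlam0]
    have : β + (2 - β) = ((2 : ℕ) : ℝ) := by push_cast; ring
    rw [this, Real.rpow_natCast]
  have hc : 1 ≤ lam * c0 := by
    have h2 : lam * c0 = lam ^ (3 - β) := by
      rw [hc0def]
      nth_rewrite 1 [← Real.rpow_one lam]
      rw [← Real.rpow_add hlam0]
      congr 1; ring
    rw [h2]
    exact Real.one_le_rpow hlam1.le (by linarith)
  set A : ℝ := 6 * max C 1 with hA
  have hA0 : 0 < A := by positivity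
  set d0 : ℝ := ν * L * c0 ^ 2 / (4 * A) with hd0
  have hd0pos : 0 < d0 := by positivity
  set σ : ℝ := min (c0 / a₁) (1 + min 1 d0 / 1500) with hσ
  have hσ1 : 1 < σ := by
    apply lt_min
    · rw [lt_div_iff₀ ha₁]; linarith
    · have : 0 < min 1 d0 := lt_min one_pos hd0pos
      linarith
  have hσ0 : 0 < σ := by linarith
  have hσ2 : σ ≤ 1 + 1 / 1500 := by
    refine (min_le_right _ _).trans ?_
    have := min_le_left 1 d0
    linarith
  have hσ3 : σ - 1 ≤ d0 / 1500 := by
    have h1 := min_le_right (c0 / a₁) (1 + min 1 d0 / 1500)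
    have h2 := min_le_right 1 d0
    rw [← hσ] at h1
    linarith
  have hσ4 : a₁ * σ ≤ c0 := by
    have h1 := min_le_left (c0 / a₁) (1 + min 1 d0 / 1500)
    rw [← hσ, le_div_iff₀ ha₁] at h1
    linarith
  refine ⟨A, c0 / σ, by positivity, ?_, ?_⟩
  · rw [div_lt_iff₀ hσ0]; nlinarith
  · have ha0 : 0 < c0 / σ := by positivity
    have ha1 : a₁ ≤ c0 / σ := by rw [le_div_iff₀ hσ0]; exact hσ4
    intro n t ht
    have hX' : IsSol (fun n => L ^ n) (fun n => ν * (lam ^ 2) ^ n) X := by
      have e1 : coup lam β = fun n => L ^ n := by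
        funext n; exact coup_eq hlam0 β n
      have e2 : damp lam ν = fun n => ν * (lam ^ 2) ^ n := by
        funext n; exact damp_eq ν n
      rw [← e1, ← e2]; exact hX
    have hinit' : ∀ n, X n 0 ≤ A / 6 * (c0 / σ) ^ n := by
      intro n
      refine (hinit n).trans ?_
      have h1 : C ≤ A / 6 := by
        rw [hA]; have := le_max_left C 1; linarith
      have h2 : a₁ ^ n ≤ (c0 / σ) ^ n := by gcongr
      have h3 : 0 ≤ A / 6 := by positivity
      have h4 : 0 ≤ a₁ ^ n := by positivity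
      calc C * a₁ ^ n ≤ A / 6 * a₁ ^ n := by gcongr
        _ ≤ A / 6 * (c0 / σ) ^ n := by gcongr
    obtain ⟨N0, hN0⟩ : ∃ N0 : ℕ, 2 / (ν * L * (c0 / σ) ^ 2 / A) ≤ σ ^ N0 := by
      obtain ⟨N0, h⟩ := pow_unbounded_of_one_lt (2 / (ν * L * (c0 / σ) ^ 2 / A)) hσ1
      exact ⟨N0, h.le⟩
    have hN : 2 ≤ ν * L * (c0 / σ) ^ 2 / A * σ ^ (max N0 n) := by
      have h3 : σ ^ N0 ≤ σ ^ (max N0 n) := pow_le_pow_right₀ hσ1.le (le_max_left _ _)
      have h4 := hN0.trans h3
      rw [div_le_iff₀ (by positivity)] at h4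
      linarith
    exact bar_lim hE hKA hKB hL hν hA0 ha0 hσ1 hσ2 (by field_simp) hlam hLc hc hσ3 X hX' hX0
      (max N0 n) hN (fun n _ => hinit' n) n (by omega) t ht

end Pool.Agent.N841.DY.Bar
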