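import Pool.Agent.N841.DY.Stm

/-!
DY/BOOT (helper702): a subcritical bound implies smoothness.
-/

set_option autoImplicit false

open Set Filter Topology

noncomputable section

namespace Pool.Agent.N841.DY.Boot

open Pool.Agent.N841.DY

/-- scalar comparison -/
lemma cmp (y y' : ℝ → ℝ) (t₁ m b : ℝ) (ht₁ : 0 ≤ t₁) (hm : 0 < m) (hb : 0 ≤ b)
    (hy : ∀ t, t₁ ≤ t → HasDerivWithinAt y (y' t) (Ici 0) t)
    (hle : ∀ t, t₁ ≤ t → y' t ≤ -(m * y t) + b) (t : ℝ) (ht : t₁ ≤ t) :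
    y t ≤ Real.exp (-(m * (t - t₁))) * y t₁ + b / m := by
  set g : ℝ → ℝ := fun s => (y s - b / m) * Real.exp (m * s) with hg
  have hexp : ∀ s, HasDerivAt (fun s => Real.exp (m * s)) (Real.exp (m * s) * m) s := by
    intro s
    have h1 : HasDerivAt (fun s : ℝ => m * s) m s := by
      simpa using (hasDerivAt_id s).const_mul m
    exact h1.exp
  have hder : ∀ s, t₁ < s → HasDerivAt g ((y' s) * Real.exp (m * s) +
      (y s - b / m) * (Real.exp (m * s) * m)) s := by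
    intro s hs
    have h1 : HasDerivAt y (y' s) s :=
      (hy s hs.le).hasDerivAt (Ici_mem_nhds (lt_of_le_of_lt ht₁ hs))
    exact (h1.sub_const _).mul (hexp s)
  have hcont : ContinuousOn g (Ici t₁) := by
    intro s hs
    have h1 : ContinuousWithinAt y (Ici t₁) s :=
      ((hy s hs).continuousWithinAt).mono (Ici_subset_Ici.mpr ht₁)
    exact (h1.sub continuousWithinAt_const).mul (hexp s).continuousAt.continuousWithinAt
  have hanti : AntitoneOn g (Ici t₁) := by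
    apply antitoneOn_of_deriv_nonpos (convex_Ici t₁) hcont
    · intro s hs
      rw [interior_Ici] at hs
      exact (hder s hs).differentiableAt.differentiableWithinAt
    · intro s hs
      rw [interior_Ici] at hs
      rw [(hder s hs).deriv]
      have h1 := hle s (le_of_lt hs)
      have h2 : y' s * Real.exp (m * s) + (y s - b / m) * (Real.exp (m * s) * m) =
          (y' s + m * y s - b) * Real.exp (m * s) := by
        field_simp
        ring
      rw [h2]
      apply mul_nonpos_of_nonpos_of_nonneg _ (Real.exp_pos _).le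
      linarith
  have h := hanti (mem_Ici.mpr le_rfl) (mem_Ici.mpr ht) ht
  simp only [hg] at h
  have h3 : y t - b / m ≤ (y t₁ - b / m) * Real.exp (-(m * (t - t₁))) := by
    have h4 : Real.exp (-(m * (t - t₁))) = Real.exp (m * t₁) * Real.exp (-(m * t)) := by
      rw [← Real.exp_add]; congr 1; ring
    have h5 : y t - b / m = (y t - b / m) * Real.exp (m * t) * Real.exp (-(m * t)) := by
      rw [mul_assoc, ← Real.exp_add]
      simp
    rw [h4, h5]
    calc (y t - b / m) * Real.exp (m * t) * Real.exp (-(m * t))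
        ≤ (y t₁ - b / m) * Real.exp (m * t₁) * Real.exp (-(m * t)) := by
          apply mul_le_mul_of_nonneg_right h (Real.exp_pos _).le
      _ = _ := by ring
  have h6 : 0 ≤ b / m * Real.exp (-(m * (t - t₁))) := by positivity
  nlinarith

/-- the step: the bound for the shell `m + 1` -/
lemma step (lam β ν : ℝ) (hlam : 1 < lam) (hν : 0 < ν) (X : ℕ → ℝ → ℝ)
    (hX : IsSol (coup lam β) (damp lam ν) X) (hpos : ∀ n t, 0 ≤ t → 0 ≤ X n t)
    (t₁ C a : ℝ) (ht₁ : 0 ≤ t₁) (hC : 0 ≤ C) (ha : 0 < a)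
    (hbd : ∀ n t, t₁ ≤ t → X n t ≤ C * a ^ n) (m : ℕ) (t : ℝ) (ht : t₁ ≤ t) :
    X (m + 1) t ≤ Real.exp (-(ν * lam ^ (2 * (m + 1)) * (t - t₁))) * X (m + 1) t₁ +
      C ^ 2 / (ν * lam ^ 2) * (a * (a / lam ^ (2 - β))) ^ m := by
  have hlam0 : 0 < lam := by linarith
  have h1 := cmp (X (m + 1)) (fun t => field (coup lam β) (damp lam ν) (fun j => X j t) (m + 1))
    t₁ (ν * lam ^ (2 * (m + 1))) (lam ^ (β * m) * (C * a ^ m) ^ 2) ht₁ (by positivity)
    (by positivity) (fun s hs => hX (m + 1) s (ht₁.trans hs)) ?_ t ht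
  · refine h1.trans_eq ?_
    congr 1
    have h2 : lam ^ (β * (m : ℝ)) = (lam ^ β) ^ m := by
      rw [Real.rpow_mul hlam0.le, Real.rpow_natCast]
    have h3 : lam ^ (2 - β) = lam ^ 2 / lam ^ β := by
      rw [Real.rpow_sub hlam0]
      norm_num
    have h4 : (0 : ℝ) < lam ^ β := Real.rpow_pos_of_pos hlam0 β
    rw [h2, h3]
    have h5 : a * (a / (lam ^ 2 / lam ^ β)) = a ^ 2 * lam ^ β / lam ^ 2 := by
      field_simp
    rw [h5, div_pow, mul_pow]
    have h6 : lam ^ (2 * (m + 1)) = lam ^ 2 * (lam ^ 2) ^ m := by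
      rw [mul_add, pow_add, ← pow_mul]; ring
    rw [h6]
    field_simp
    ring
  · intro s hs
    have hs0 : 0 ≤ s := ht₁.trans hs
    simp only [field, feed, coup, damp]
    have h2 : X m s ^ 2 ≤ (C * a ^ m) ^ 2 := by
      have := hbd m s hs
      have := hpos m s hs0
      gcongr
    have h3 : 0 ≤ lam ^ (β * ((m + 1 : ℕ) : ℝ)) * X (m + 1) s * X (m + 1 + 1) s := by
      have h4 := hpos (m + 1) s hs0
      have h5 := hpos (m + 1 + 1) s hs0
      have h6 : 0 ≤ lam ^ (β * ((m + 1 : ℕ) : ℝ)) := Real.rpow_nonneg hlam0.le _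
      positivity
    have h7 : lam ^ (β * (m : ℝ)) * X m s ^ 2 ≤ lam ^ (β * (m : ℝ)) * (C * a ^ m) ^ 2 := by
      have h6 : 0 ≤ lam ^ (β * (m : ℝ)) := Real.rpow_nonneg hlam0.le _
      gcongr
    linarith

/-- the exponential beats every power -/
lemma exp_bound (c L ρ : ℝ) (hc : 0 < c) (hL : 1 < L) (hρ : 0 < ρ) :
    ∃ M : ℝ, 0 < M ∧ ∀ n : ℕ, Real.exp (-(c * L ^ n)) ≤ M * ρ ^ n := by
  obtain ⟨K, hK⟩ := pow_unbounded_of_one_lt (1 / ρ) hL
  have hL0 : 0 < L := by linarith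
  refine ⟨K.factorial / c ^ K, by positivity, fun n => ?_⟩
  have h1 := Real.pow_div_factorial_le_exp (c * L ^ n) (by positivity) K
  have h2 : 0 < (c * L ^ n) ^ K / (K.factorial : ℝ) := by positivity
  rw [Real.exp_neg]
  calc (Real.exp (c * L ^ n))⁻¹ ≤ ((c * L ^ n) ^ K / (K.factorial : ℝ))⁻¹ :=
        inv_anti₀ h2 h1
    _ = K.factorial / c ^ K * ((1 / L ^ K) ^ n) := by
        rw [mul_pow, ← pow_mul, one_div, inv_pow, ← pow_mul, mul_comm n K]
        field_simp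
    _ ≤ K.factorial / c ^ K * ρ ^ n := by
        have h3 : 1 / L ^ K ≤ ρ := by
          rw [div_lt_iff₀ hρ] at hK
          rw [div_le_iff₀ (by positivity)]
          linarith
        gcongr

section
variable (lam β ν : ℝ) (hlam : 1 < lam) (hν : 0 < ν) (X : ℕ → ℝ → ℝ)
    (hX : IsSol (coup lam β) (damp lam ν) X) (hpos : ∀ n t, 0 ≤ t → 0 ≤ X n t)

include hlam hν hX hpos

/-- improvement when the initial term is controlled -/
lemma improve (t₁ t₂ C a ρ M : ℝ) (ht₁ : 0 ≤ t₁) (ht₂ : t₁ ≤ t₂) (hC : 0 ≤ C) (ha : 0 < a)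
    (hρ : 0 < ρ) (haρ : a / lam ^ (2 - β) ≤ ρ)
    (hbd : ∀ n t, t₁ ≤ t → X n t ≤ C * a ^ n)
    (hM : ∀ n t, t₂ ≤ t → Real.exp (-(ν * lam ^ (2 * n) * (t - t₁))) * X n t₁ ≤
      M * (a * ρ) ^ n) :
    ∃ C' : ℝ, 0 ≤ C' ∧ ∀ n t, t₂ ≤ t → X n t ≤ C' * (a * ρ) ^ n := by
  have hlam0 : 0 < lam := by linarith
  have hpow : 0 < lam ^ (2 - β) := Real.rpow_pos_of_pos hlam0 _
  refine ⟨C + |M| + C ^ 2 / (ν * lam ^ 2) / (a * ρ), by positivity, ?_⟩
  intro n t ht
  rcases n with _ | m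
  · have h1 := hbd 0 t (ht₂.trans ht)
    simp only [pow_zero, mul_one] at h1 ⊢
    have h2 : 0 ≤ |M| + C ^ 2 / (ν * lam ^ 2) / (a * ρ) := by positivity
    linarith
  · have h1 := step lam β ν hlam hν X hX hpos t₁ C a ht₁ hC ha hbd m t (ht₂.trans ht)
    have h2 := hM (m + 1) t ht
    have h3 : C ^ 2 / (ν * lam ^ 2) * (a * (a / lam ^ (2 - β))) ^ m ≤
        C ^ 2 / (ν * lam ^ 2) * (a * ρ) ^ m := by
      have : 0 ≤ a / lam ^ (2 - β) := by positivity
      gcongr
    have h4 : C ^ 2 / (ν * lam ^ 2) * (a * ρ) ^ m =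
        C ^ 2 / (ν * lam ^ 2) / (a * ρ) * (a * ρ) ^ (m + 1) := by
      have h9 : a * ρ ≠ 0 := (mul_pos ha hρ).ne'
      rw [pow_succ (a * ρ) m]
      generalize C ^ 2 / (ν * lam ^ 2) = D
      generalize (a * ρ) = r at h9 ⊢
      field_simp
    have h5 : M * (a * ρ) ^ (m + 1) ≤ |M| * (a * ρ) ^ (m + 1) := by
      have := le_abs_self M
      gcongr
    have h6 : 0 ≤ C * (a * ρ) ^ (m + 1) := by positivity
    have h7 : (C + |M| + C ^ 2 / (ν * lam ^ 2) / (a * ρ)) * (a * ρ) ^ (m + 1) =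
        C * (a * ρ) ^ (m + 1) + |M| * (a * ρ) ^ (m + 1) +
          C ^ 2 / (ν * lam ^ 2) / (a * ρ) * (a * ρ) ^ (m + 1) := by ring
    rw [h7]
    linarith

lemma iter_pos (C a : ℝ) (ha : 0 < a) (hal : a < lam ^ (2 - β))
    (hbd : ∀ n t, 0 ≤ t → X n t ≤ C * a ^ n) (j : ℕ) :
    ∀ τ : ℝ, 0 < τ → ∃ C' : ℝ, 0 ≤ C' ∧ ∀ n t, τ ≤ t →
      X n t ≤ C' * (a * (a / lam ^ (2 - β)) ^ j) ^ n := by
  have hlam0 : 0 < lam := by linarith
  have hpow : 0 < lam ^ (2 - β) := Real.rpow_pos_of_pos hlam0 _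
  have hρ : 0 < a / lam ^ (2 - β) := by positivity
  have hρ1 : a / lam ^ (2 - β) < 1 := by rw [div_lt_one hpow]; exact hal
  induction j with
  | zero =>
    intro τ hτ
    refine ⟨|C|, abs_nonneg _, fun n t ht => ?_⟩
    rw [pow_zero, mul_one]
    refine (hbd n t (hτ.le.trans ht)).trans ?_
    have := le_abs_self C
    gcongr
  | succ j ih =>
    intro τ hτ
    obtain ⟨C', hC', hb⟩ := ih (τ / 2) (by positivity)
    set a' := a * (a / lam ^ (2 - β)) ^ j with ha'
    have ha'0 : 0 < a' := by positivity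
    have ha'a : a' ≤ a := by
      rw [ha']
      have : (a / lam ^ (2 - β)) ^ j ≤ 1 := pow_le_one₀ hρ.le hρ1.le
      nlinarith
    obtain ⟨M, hM0, hM⟩ := exp_bound (ν * (τ / 2)) (lam ^ 2) (a / lam ^ (2 - β))
      (by positivity) (one_lt_pow₀ hlam two_ne_zero) hρ
    have h := improve lam β ν hlam hν X hX hpos (τ / 2) τ C' a' (a / lam ^ (2 - β)) (M * C')
      (by positivity) (by linarith) hC' ha'0 hρ (by gcongr) hb ?_
    · have e : a * (a / lam ^ (2 - β)) ^ (j + 1) = a' * (a / lam ^ (2 - β)) := by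
        rw [ha', pow_succ]; ring
      rw [e]; exact h
    · intro n t ht
      have h1 : Real.exp (-(ν * lam ^ (2 * n) * (t - τ / 2))) ≤
          Real.exp (-(ν * (τ / 2) * (lam ^ 2) ^ n)) := by
        apply Real.exp_le_exp.mpr
        rw [pow_mul]
        have h2 : 0 < ν * (lam ^ 2) ^ n := by positivity
        have h3 : τ / 2 ≤ t - τ / 2 := by linarith
        nlinarith
      have h4 := hb n (τ / 2) le_rfl
      have h5 := hpos n (τ / 2) (by positivity)
      calc Real.exp (-(ν * lam ^ (2 * n) * (t - τ / 2))) * X n (τ / 2)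
          ≤ (M * (a / lam ^ (2 - β)) ^ n) * (C' * a' ^ n) := by
            apply mul_le_mul (h1.trans (hM n)) h4 h5 (by positivity)
        _ = M * C' * (a' * (a / lam ^ (2 - β))) ^ n := by rw [mul_pow]; ring

lemma iter_zero (hR : Rapid lam (fun n => X n 0)) (C a : ℝ) (ha : 0 < a)
    (hal : a < lam ^ (2 - β)) (hbd : ∀ n t, 0 ≤ t → X n t ≤ C * a ^ n) (j : ℕ) :
    ∃ C' : ℝ, 0 ≤ C' ∧ ∀ n t, 0 ≤ t →
      X n t ≤ C' * (a * (a / lam ^ (2 - β)) ^ j) ^ n := by
  have hlam0 : 0 < lam := by linarith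
  have hpow : 0 < lam ^ (2 - β) := Real.rpow_pos_of_pos hlam0 _
  have hρ : 0 < a / lam ^ (2 - β) := by positivity
  have hρ1 : a / lam ^ (2 - β) < 1 := by rw [div_lt_one hpow]; exact hal
  induction j with
  | zero =>
    refine ⟨|C|, abs_nonneg _, fun n t ht => ?_⟩
    rw [pow_zero, mul_one]
    refine (hbd n t ht).trans ?_
    have := le_abs_self C
    gcongr
  | succ j ih =>
    obtain ⟨C', hC', hb⟩ := ih
    set a' := a * (a / lam ^ (2 - β)) ^ j with ha'
    have ha'0 : 0 < a' := by positivity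
    have ha'a : a' ≤ a := by
      rw [ha']
      have : (a / lam ^ (2 - β)) ^ j ≤ 1 := pow_le_one₀ hρ.le hρ1.le
      nlinarith
    have hx0 : 0 < a' * (a / lam ^ (2 - β)) := by positivity
    obtain ⟨s, hs⟩ := pow_unbounded_of_one_lt (1 / (a' * (a / lam ^ (2 - β)))) hlam
    obtain ⟨M, hM⟩ := hR s
    have h := improve lam β ν hlam hν X hX hpos 0 0 C' a' (a / lam ^ (2 - β)) M
      le_rfl le_rfl hC' ha'0 hρ (by gcongr) hb ?_
    · have e : a * (a / lam ^ (2 - β)) ^ (j + 1) = a' * (a / lam ^ (2 - β)) := by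
        rw [ha', pow_succ]; ring
      rw [e]; exact h
    · intro n t ht
      have h1 : Real.exp (-(ν * lam ^ (2 * n) * (t - 0))) ≤ 1 := by
        rw [Real.exp_le_one_iff]
        have : 0 ≤ ν * lam ^ (2 * n) * (t - 0) := by
          have : 0 ≤ t - 0 := by linarith
          positivity
        linarith
      have h5 := hpos n 0 le_rfl
      have h6 := hM n
      simp only [abs_of_nonneg h5] at h6
      have h7 : 1 ≤ (lam ^ s * (a' * (a / lam ^ (2 - β)))) ^ n := by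
        apply one_le_pow₀
        rw [div_lt_iff₀ hx0] at hs
        linarith
      have h8 : X n 0 ≤ M * (a' * (a / lam ^ (2 - β))) ^ n := by
        calc X n 0 ≤ X n 0 * (lam ^ s * (a' * (a / lam ^ (2 - β)))) ^ n := by nlinarith
          _ = (lam ^ (s * n) * X n 0) * (a' * (a / lam ^ (2 - β))) ^ n := by
              rw [mul_pow, ← pow_mul]; ring
          _ ≤ M * (a' * (a / lam ^ (2 - β))) ^ n := by gcongr
      calc Real.exp (-(ν * lam ^ (2 * n) * (t - 0))) * X n 0 ≤ 1 * X n 0 := by gcongr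
        _ = X n 0 := one_mul _
        _ ≤ _ := h8

end

/-- from the iterated bounds to smoothness -/
lemma smooth_of (lam β τ a : ℝ) (hlam : 1 < lam) (ha : 0 < a) (hal : a < lam ^ (2 - β))
    (hτ : 0 ≤ τ) (X : ℕ → ℝ → ℝ) (hpos : ∀ n t, 0 ≤ t → 0 ≤ X n t)
    (h : ∀ j : ℕ, ∃ C' : ℝ, 0 ≤ C' ∧ ∀ n t, τ ≤ t →
      X n t ≤ C' * (a * (a / lam ^ (2 - β)) ^ j) ^ n) : SmoothFrom lam τ X := by
  have hlam0 : 0 < lam := by linarith
  have hpow : 0 < lam ^ (2 - β) := Real.rpow_pos_of_pos hlam0 _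
  have hρ : 0 < a / lam ^ (2 - β) := by positivity
  have hρ1 : a / lam ^ (2 - β) < 1 := by rw [div_lt_one hpow]; exact hal
  intro s
  obtain ⟨j, hj⟩ := exists_pow_lt_of_lt_one (show 0 < 1 / (lam ^ s * a) by positivity) hρ1
  obtain ⟨C', hC', hb⟩ := h j
  refine ⟨C', fun n t ht => ?_⟩
  rw [abs_of_nonneg (hpos n t (hτ.trans ht))]
  have h1 : (lam ^ s * (a * (a / lam ^ (2 - β)) ^ j)) ^ n ≤ 1 := by
    apply pow_le_one₀ (by positivity)
    rw [lt_div_iff₀ (by positivity)] at hj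
    linarith
  calc lam ^ (s * n) * X n t ≤ lam ^ (s * n) * (C' * (a * (a / lam ^ (2 - β)) ^ j) ^ n) := by
        gcongr
        exact hb n t ht
    _ = C' * (lam ^ s * (a * (a / lam ^ (2 - β)) ^ j)) ^ n := by
        rw [mul_pow (lam ^ s), ← pow_mul]; ring
    _ ≤ C' * 1 := by gcongr
    _ = C' := mul_one _

theorem t_BOOT : S_BOOT := by
  intro lam β ν hlam hν X hX hpos C a ha hal hbd
  refine ⟨fun τ hτ => ?_, fun hR => ?_⟩
  · exact smooth_of lam β τ a hlam ha hal hτ.le X hpos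
      (fun j => iter_pos lam β ν hlam hν X hX hpos C a ha hal hbd j τ hτ)
  · exact smooth_of lam β 0 a hlam ha hal le_rfl X hpos
      (fun j => iter_zero lam β ν hlam hν X hX hpos hR C a ha hal hbd j)

end Pool.Agent.N841.DY.Boot
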