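import Pool.Agent.N841.DY.Stm

/-!
Statements of further steps: data of finite energy.
-/

set_option autoImplicit false

open Set Filter Topology

noncomputable section

namespace Pool.Agent.N841.DY

/-- uniform bound for the cubic integrals -/
def S_FLUX : Prop := ∀ (lam β ν : ℝ), 1 < lam → 0 < ν → ∀ X : ℕ → ℝ → ℝ,
  IsSol (coup lam β) (damp lam ν) X → (∀ n t, 0 ≤ t → 0 ≤ X n t) →
  Summable (fun n => X n 0 ^ 2) → ∀ T, 0 ≤ T →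
  ∃ C, ∀ n, ∫ t in (0 : ℝ)..T, coup lam β n * X n t ^ 3 ≤ C

/-- uniqueness of nonnegative solutions with data of finite energy -/
def S_UNIQ2 : Prop := ∀ (lam β ν : ℝ), 1 < lam → 0 < ν → ∀ X Y : ℕ → ℝ → ℝ,
  IsSol (coup lam β) (damp lam ν) X → IsSol (coup lam β) (damp lam ν) Y →
  (∀ n t, 0 ≤ t → 0 ≤ X n t) → (∀ n t, 0 ≤ t → 0 ≤ Y n t) → (∀ n, X n 0 = Y n 0) →
  Summable (fun n => X n 0 ^ 2) → ∀ n t, 0 ≤ t → X n t = Y n t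

/-- energy inequality, in the form of a bound for the dissipation at some time in `[0, τ]` -/
def S_ENERGY2 : Prop := ∀ (k d : ℕ → ℝ) (X : ℕ → ℝ → ℝ), (∀ n, 0 ≤ k n) → (∀ n, 0 ≤ d n) →
  IsSol k d X → (∀ n t, 0 ≤ t → 0 ≤ X n t) → Summable (fun n => X n 0 ^ 2) →
  ∀ τ, 0 < τ → ∃ t₀, 0 ≤ t₀ ∧ t₀ ≤ τ ∧ ∃ C, ∀ N, ∑ n ∈ Finset.range N, d n * X n t₀ ^ 2 ≤ C

/-- the barrier for critical data, `β = 3` -/
def S_BAR3 : Prop := ∀ (lam ν : ℝ), 2 ≤ lam → 0 < ν → ∀ X : ℕ → ℝ → ℝ,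
  IsSol (coup lam 3) (damp lam ν) X → (∀ n t, 0 ≤ t → 0 ≤ X n t) →
  Tendsto (fun n => lam ^ n * X n 0) atTop (𝓝 0) →
  ∀ τ, 0 < τ → ∃ C' a : ℝ, 0 < a ∧ a < lam⁻¹ ∧ ∀ n t, τ ≤ t → X n t ≤ C' * a ^ n

end Pool.Agent.N841.DY
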