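import Pool.Agent.N841.DY.Bar
import Pool.Agent.N841.DY.Boot
import Pool.Agent.N841.DY.Stm2

/-!
The barrier for critical data, `β = 3`.
-/

set_option autoImplicit false
set_option maxHeartbeats 4000000

open Set Filter Topology

noncomputable section

namespace Pool.Agent.N841.DY.Bar3

/-- `lam ^ (2 n)`-scaled inequality for the shell `n + 1` when `β = 3`: if `X n ≤ z` on `[s, t]` -/
theorem shell {lam ν : ℝ} (hlam : 2 ≤ lam) (hν : 0 < ν) {X : ℕ → ℝ → ℝ}
    (hX : IsSol (coup lam 3) (damp lam ν) X) (hX0 : ∀ n t, 0 ≤ t → 0 ≤ X n t)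
    {n : ℕ} {s z : ℝ} (hs : 0 ≤ s) (hz : 0 ≤ z) (h : ∀ t, s ≤ t → lam ^ n * X n t ≤ z)
    {t : ℝ} (ht : s ≤ t) :
    lam ^ (n + 1) * X (n + 1) t ≤
      Real.exp (-(ν * lam ^ (2 * (n + 1)) * (t - s))) * (lam ^ (n + 1) * X (n + 1) s)
        + z ^ 2 / (ν * lam) := by
  have hlam0 : 0 < lam := by linarith
  have hc : coup lam 3 n = lam ^ (3 * n) := by
    unfold coup
    have : (3 : ℝ) * n = ((3 * n : ℕ) : ℝ) := by push_cast; ring
    rw [this, Real.rpow_natCast]
  have hd : damp lam ν (n + 1) = ν * lam ^ (2 * (n + 1)) := rfl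
  have h1 := Boot.cmp (X (n + 1)) (fun t => field (coup lam 3) (damp lam ν) (fun j => X j t) (n + 1))
    s (ν * lam ^ (2 * (n + 1))) (lam ^ n * z ^ 2) hs (by positivity) (by positivity)
    (fun t ht => hX (n + 1) t (hs.trans ht))
    (by
      intro t ht
      have h0t := hs.trans ht
      simp only [field, feed]
      rw [hc, hd]
      have h2 := h t ht
      have h3 := hX0 n t h0t
      have h4 := hX0 (n + 1) t h0t
      have h5 := hX0 (n + 2) t h0t
      have h6 : 0 ≤ coup lam 3 (n + 1) * X (n + 1) t * X (n + 1 + 1) t := by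
        have : 0 ≤ coup lam 3 (n + 1) := by unfold coup; positivity
        positivity
      have h7 : lam ^ (3 * n) * X n t ^ 2 = lam ^ n * (lam ^ n * X n t) ^ 2 := by ring
      have h8 : (lam ^ n * X n t) ^ 2 ≤ z ^ 2 := by
        have : 0 ≤ lam ^ n * X n t := by positivity
        gcongr
      have h9 : lam ^ (3 * n) * X n t ^ 2 ≤ lam ^ n * z ^ 2 := by
        rw [h7]; gcongr
      linarith) t ht
  have h2 : lam ^ (n + 1) * X (n + 1) t ≤ lam ^ (n + 1) *
      (Real.exp (-(ν * lam ^ (2 * (n + 1)) * (t - s))) * X (n + 1) s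
        + lam ^ n * z ^ 2 / (ν * lam ^ (2 * (n + 1)))) := by gcongr
  refine h2.trans (le_of_eq ?_)
  have h3 : lam ^ (n + 1) * (lam ^ n * z ^ 2 / (ν * lam ^ (2 * (n + 1)))) = z ^ 2 / (ν * lam) := by
    field_simp
    ring
  rw [mul_add, h3]
  ring

theorem t_BAR3 (hE : S_EXIT) (hKA : S_KA) (hKB : S_KB) : S_BAR3 := by
  intro lam ν hlam hν X hX hX0 hlim τ hτ
  have hlam0 : 0 < lam := by linarith
  set η : ℝ := ν * lam / 8 with hη
  have hη0 : 0 < η := by positivity
  -- bound K and n₀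
  obtain ⟨K, hK⟩ : ∃ K, ∀ n, lam ^ n * X n 0 ≤ K := by
    obtain ⟨K, hK⟩ := hlim.bddAbove_range
    exact ⟨K, fun n => hK (mem_range_self n)⟩
  obtain ⟨n₀, hn₀⟩ : ∃ n₀ : ℕ, ∀ n, n₀ ≤ n → lam ^ n * X n 0 ≤ η / 12 := by
    have h1 : ∀ᶠ n in atTop, lam ^ n * X n 0 < η / 12 :=
      hlim.eventually (gt_mem_nhds (by positivity))
    obtain ⟨n₀, h⟩ := eventually_atTop.1 h1
    exact ⟨n₀, fun n hn => (h n hn).le⟩
  set A : ℝ := 12 * max K 1 with hA
  have hA0 : 0 < A := by positivity
  have hKA' : K ≤ A / 12 := by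
    rw [hA]; have := le_max_left K 1; linarith
  set L : ℝ := lam ^ 3 with hLdef
  have hL : 0 < L := by positivity
  set c0 : ℝ := lam⁻¹ with hc0def
  have hc00 : 0 < c0 := by positivity
  have hLc : L * c0 = lam ^ 2 := by rw [hLdef, hc0def]; field_simp
  have hc : 1 ≤ lam * c0 := by rw [hc0def, mul_inv_cancel₀ hlam0.ne']
  set d0 : ℝ := ν * L * c0 ^ 2 / (4 * A) with hd0
  have hd0pos : 0 < d0 := by positivity
  set σ : ℝ := 1 + min (min 1 d0 / 1500) (1 / (2 * (n₀ + 3))) with hσ
  have hσ1 : 1 < σ := by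
    have : 0 < min (min 1 d0 / 1500) (1 / (2 * ((n₀ : ℝ) + 3))) := by
      apply lt_min
      · have : 0 < min 1 d0 := lt_min one_pos hd0pos
        positivity
      · positivity
    linarith
  have hσ0 : 0 < σ := by linarith
  have hσa : σ - 1 ≤ min 1 d0 / 1500 := by
    have := min_le_left (min 1 d0 / 1500) (1 / (2 * ((n₀ : ℝ) + 3)))
    linarith
  have hσb : σ - 1 ≤ 1 / (2 * ((n₀ : ℝ) + 3)) := by
    have := min_le_right (min 1 d0 / 1500) (1 / (2 * ((n₀ : ℝ) + 3)))
    linarith
  have hσ2 : σ ≤ 1 + 1 / 1500 := by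
    have := min_le_left 1 d0
    linarith
  have hσ3 : σ - 1 ≤ d0 / 1500 := by
    have := min_le_right 1 d0
    linarith
  have hpow : ∀ n : ℕ, n ≤ n₀ + 3 → σ ^ n ≤ 2 := by
    intro n hn
    have h1 : σ ^ n ≤ σ ^ (n₀ + 3) := pow_le_pow_right₀ hσ1.le hn
    have h2 : σ ≤ Real.exp (σ - 1) := by
      have := Real.add_one_le_exp (σ - 1); linarith
    have h3 : σ ^ (n₀ + 3) ≤ Real.exp (((n₀ + 3 : ℕ) : ℝ) * (σ - 1)) := by
      rw [Real.exp_nat_mul]
      gcongr
    have h4 : ((n₀ + 3 : ℕ) : ℝ) * (σ - 1) ≤ 1 / 2 := by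
      rw [le_div_iff₀ (by positivity)] at hσb
      push_cast
      linarith
    have h5 : Real.exp (1 / 2) ≤ 2 := by
      have h6 := Real.add_one_le_exp (-(1 / 2 : ℝ))
      have h7 : Real.exp (-(1 / 2 : ℝ)) * Real.exp (1 / 2) = 1 := by
        rw [← Real.exp_add]; simp
      have h8 := Real.exp_pos (1 / 2 : ℝ)
      nlinarith
    exact h1.trans (h3.trans ((Real.exp_le_exp.2 h4).trans h5))
  -- the level N
  have hex : ∃ N : ℕ, n₀ ≤ N ∧ A ≤ η * σ ^ N := by
    obtain ⟨N0, h⟩ := pow_unbounded_of_one_lt (A / η) hσ1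
    refine ⟨max n₀ N0, le_max_left _ _, ?_⟩
    have h3 : σ ^ N0 ≤ σ ^ (max n₀ N0) := pow_le_pow_right₀ hσ1.le (le_max_right _ _)
    have h4 := h.le.trans h3
    rw [div_le_iff₀ hη0] at h4
    linarith
  classical
  set N : ℕ := Nat.find hex with hNdef
  have hN := Nat.find_spec hex
  rw [← hNdef] at hN
  have hNmin : n₀ < N → η * σ ^ (N - 1) < A := by
    intro h
    by_contra hcon
    push_neg at hcon
    have := Nat.find_min hex (m := N - 1) (by rw [← hNdef]; omega)
    exact this ⟨by omega, hcon⟩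
  have ha0 : 0 < c0 / σ := by positivity
  have hN2 : 2 ≤ ν * L * (c0 / σ) ^ 2 / A * σ ^ N := by
    have h1 : ν * L * (c0 / σ) ^ 2 = ν * lam / σ ^ 2 := by
      rw [hLdef, hc0def]; field_simp
    rw [h1, div_mul_eq_mul_div, le_div_iff₀ hA0, div_mul_eq_mul_div, le_div_iff₀ (by positivity)]
    have h2 : σ ^ 2 ≤ 4 := by nlinarith
    have h3 := hN.2
    rw [hη] at h3
    nlinarith
  have hi : ∀ n, n ≤ N + 2 → X n 0 ≤ A / 6 * (c0 / σ) ^ n := by
    intro n hn
    have hpn : 0 < σ ^ n := by positivity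
    have hln : 0 < lam ^ n := by positivity
    have h1 : A / 6 * (c0 / σ) ^ n = A / 6 / (lam ^ n * σ ^ n) := by
      rw [hc0def, div_pow, inv_pow]; field_simp
    rw [h1, le_div_iff₀ (by positivity)]
    have h2 : X n 0 * (lam ^ n * σ ^ n) = (lam ^ n * X n 0) * σ ^ n := by ring
    rw [h2]
    by_cases hcase : n ≤ n₀ + 2
    · have h3 := hpow n (by omega)
      have h4 := hK n
      have h5 := hX0 n 0 le_rfl
      have h6 : 0 ≤ lam ^ n * X n 0 := by positivity
      calc (lam ^ n * X n 0) * σ ^ n ≤ (A / 12) * 2 := by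
            apply mul_le_mul (h4.trans hKA') h3 hpn.le (by positivity)
        _ = A / 6 := by ring
    · have h3 := hn₀ n (by omega)
      have h4 := hNmin (by omega)
      have h5 : σ ^ n ≤ σ ^ (N - 1) * σ ^ 3 := by
        rw [← pow_add]
        exact pow_le_pow_right₀ hσ1.le (by omega)
      have h6 : σ ^ 3 ≤ 2 := hpow 3 (by omega)
      have h7 : 0 < σ ^ (N - 1) := by positivity
      calc (lam ^ n * X n 0) * σ ^ n ≤ (η / 12) * (σ ^ (N - 1) * σ ^ 3) := by
            apply mul_le_mul h3 h5 hpn.le (by positivity)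
        _ ≤ (η / 12) * (σ ^ (N - 1) * 2) := by gcongr
        _ ≤ A / 6 := by nlinarith
  have hX' : IsSol (fun n => L ^ n) (fun n => ν * (lam ^ 2) ^ n) X := by
    have e1 : coup lam 3 = fun n => L ^ n := by
      funext n
      rw [Bar.coup_eq hlam0, hLdef]
      norm_num
    have e2 : damp lam ν = fun n => ν * (lam ^ 2) ^ n := by
      funext n; exact Bar.damp_eq ν n
    rw [← e1, ← e2]; exact hX
  have hbar := Bar.bar_lim hE hKA hKB hL hν hA0 ha0 hσ1 hσ2 (by field_simp) hlam hLc hc hσ3 X hX'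
    hX0 N hN2 hi
  -- the critical norm above N is small
  have hZN : ∀ t, 0 ≤ t → lam ^ N * X N t ≤ η := by
    intro t ht
    have h1 := hbar N (by omega) t ht
    have h2 : A * (c0 / σ) ^ N = A / (lam ^ N * σ ^ N) := by
      rw [hc0def, div_pow, inv_pow]; field_simp
    rw [h2, le_div_iff₀ (by positivity)] at h1
    have h3 := hN.2
    have h4 : 0 < σ ^ N := by positivity
    have h5 : (lam ^ N * X N t) * σ ^ N ≤ η * σ ^ N := by linarith
    exact le_of_mul_le_mul_right h5 h4
  have hηsq : η ^ 2 / (ν * lam) = η / 8 := by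
    rw [hη]; field_simp
  have hsmall : ∀ j : ℕ, ∀ t, 0 ≤ t → lam ^ (N + j) * X (N + j) t ≤ η := by
    intro j
    induction j with
    | zero => exact hZN
    | succ j ih =>
      intro t ht
      have h1 := shell hlam hν hX hX0 (n := N + j) (s := 0) le_rfl hη0.le ih ht
      rw [hηsq] at h1
      have h2 := hn₀ (N + j + 1) (by omega)
      have h3 := hX0 (N + j + 1) 0 le_rfl
      have h4 : Real.exp (-(ν * lam ^ (2 * (N + j + 1)) * (t - 0))) ≤ 1 := by
        apply Real.exp_le_one_iff.2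
        have : 0 ≤ ν * lam ^ (2 * (N + j + 1)) * (t - 0) := by
          rw [sub_zero]; positivity
        linarith
      have h5 : 0 ≤ lam ^ (N + j + 1) * X (N + j + 1) 0 := by positivity
      have h6 : Real.exp (-(ν * lam ^ (2 * (N + j + 1)) * (t - 0))) *
          (lam ^ (N + j + 1) * X (N + j + 1) 0) ≤ 1 * (η / 12) := by
        apply mul_le_mul h4 h2 h5 zero_le_one
      have h7 : lam ^ (N + (j + 1)) * X (N + (j + 1)) t ≤ 1 * (η / 12) + η / 8 := by
        have : N + (j + 1) = N + j + 1 := by ring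
        rw [this]
        linarith
      linarith
  -- decay
  set Bc : ℝ := max 1 (2 / (ν * τ)) with hBc
  have hB1 : 1 ≤ Bc := le_max_left _ _
  have hB2 : 2 / (ν * τ) ≤ Bc := le_max_right _ _
  have hdec : ∀ j : ℕ, ∀ t, τ * (1 - (1 / 2) ^ j) ≤ t →
      lam ^ (N + j) * X (N + j) t ≤ Bc * (1 / 2) ^ j * η := by
    intro j
    induction j with
    | zero =>
      intro t ht
      simp only [pow_zero, sub_self, mul_zero] at ht
      have := hZN t ht
      simp only [pow_zero, mul_one, add_zero]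
      nlinarith
    | succ j ih =>
      intro t ht
      set q : ℝ := (1 / 2) ^ j with hq
      have hq0 : 0 < q := by positivity
      have hq1 : q ≤ 1 := by rw [hq]; exact pow_le_one₀ (by norm_num) (by norm_num)
      have hqs : (1 / 2 : ℝ) ^ (j + 1) = q / 2 := by rw [pow_succ, hq]; ring
      rw [hqs] at ht ⊢
      set s : ℝ := t - τ * (q / 2) with hs
      have hs1 : τ * (1 - q) ≤ s := by rw [hs]; nlinarith
      have hs0 : 0 ≤ s := le_trans (mul_nonneg hτ.le (by linarith)) hs1
      have hst : s ≤ t := by rw [hs]; have : 0 ≤ τ * (q / 2) := by positivity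
                             linarith
      have hz : ∀ t', s ≤ t' → lam ^ (N + j) * X (N + j) t' ≤ min (Bc * q * η) η := by
        intro t' ht'
        exact le_min (ih t' (hs1.trans ht')) (hsmall j t' (hs0.trans ht'))
      have h1 := shell hlam hν hX hX0 (n := N + j) hs0 (by positivity) hz hst
      have h2 : (min (Bc * q * η) η) ^ 2 / (ν * lam) ≤ Bc * q * η / 8 := by
        have h3 : (min (Bc * q * η) η) ^ 2 ≤ Bc * q * η * η := by
          have h4 := min_le_left (Bc * q * η) η
          have h5 := min_le_right (Bc * q * η) η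
          have h6 : 0 ≤ min (Bc * q * η) η := by positivity
          rw [sq]
          apply mul_le_mul h4 h5 h6 (by positivity)
        calc (min (Bc * q * η) η) ^ 2 / (ν * lam) ≤ Bc * q * η * η / (ν * lam) := by gcongr
          _ = Bc * q * (η ^ 2 / (ν * lam)) := by ring
          _ = Bc * q * η / 8 := by rw [hηsq]; ring
      have h3 := hsmall (j + 1) s hs0
      have h3' : lam ^ (N + j + 1) * X (N + j + 1) s ≤ η := h3
      have h3'' : 0 ≤ lam ^ (N + j + 1) * X (N + j + 1) s := by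
        have := hX0 (N + j + 1) s hs0
        positivity
      -- the exponential factor
      have h4 : Real.exp (-(ν * lam ^ (2 * (N + j + 1)) * (t - s))) ≤ Bc * q * (3 / 8) := by
        have h5 : t - s = τ * (q / 2) := by rw [hs]; ring
        rw [h5]
        set y : ℝ := ν * lam ^ (2 * (N + j + 1)) * (τ * (q / 2)) with hy
        have hy0 : 0 < y := by positivity
        have h6 : Real.exp (-y) ≤ 1 / y := by
          rw [Real.exp_neg, ← one_div]
          apply one_div_le_one_div_of_le hy0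
          have := Real.add_one_le_exp y
          linarith
        have h7 : 4 ≤ lam ^ (2 * (N + j + 1)) * q * q := by
          have h8 : (4 : ℝ) ^ (j + 1) ≤ lam ^ (2 * (N + j + 1)) := by
            have h9 : (4 : ℝ) ^ (j + 1) ≤ (lam ^ 2) ^ (j + 1) := by
              gcongr; nlinarith
            have h10 : (lam ^ 2) ^ (j + 1) ≤ (lam ^ 2) ^ (N + j + 1) := by
              apply pow_le_pow_right₀ (by nlinarith) (by omega)
            rw [pow_mul]
            exact h9.trans h10
          have h11 : (4 : ℝ) ^ (j + 1) * q * q = 4 := by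
            have h12 : (4 : ℝ) ^ (j + 1) * (1 / 2 : ℝ) ^ j * (1 / 2 : ℝ) ^ j
                = 4 * (4 * ((1 / 2) * (1 / 2))) ^ j := by
              rw [pow_succ, mul_pow, mul_pow]; ring
            rw [hq, h12]; norm_num
          calc (4 : ℝ) = (4 : ℝ) ^ (j + 1) * q * q := h11.symm
            _ ≤ lam ^ (2 * (N + j + 1)) * q * q := by gcongr
        have h13 : 1 / y ≤ Bc * q * (3 / 8) := by
          rw [div_le_iff₀ hy0, hy]
          have h14 : 2 ≤ Bc * (ν * τ) := by
            rw [div_le_iff₀ (by positivity)] at hB2; linarith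
          have h15 : Bc * q * (3 / 8) * (ν * lam ^ (2 * (N + j + 1)) * (τ * (q / 2)))
              = (3 / 16) * (Bc * (ν * τ)) * (lam ^ (2 * (N + j + 1)) * q * q) := by ring
          rw [h15]
          nlinarith
        exact h6.trans h13
      have h5 : Real.exp (-(ν * lam ^ (2 * (N + j + 1)) * (t - s))) *
          (lam ^ (N + j + 1) * X (N + j + 1) s) ≤ Bc * q * (3 / 8) * η := by
        apply mul_le_mul h4 h3' h3'' (by positivity)
      have h6 : N + (j + 1) = N + j + 1 := by ring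
      rw [h6]
      calc lam ^ (N + j + 1) * X (N + j + 1) t ≤ Bc * q * (3 / 8) * η + Bc * q * η / 8 := by linarith
        _ = Bc * (q / 2) * η := by ring
  refine ⟨max (A * 2 ^ N) (Bc * η * 2 ^ N), lam⁻¹ / 2, by positivity, ?_, ?_⟩
  · have : 0 < lam⁻¹ := by positivity
    linarith
  · intro n t ht
    have ht0 : 0 ≤ t := hτ.le.trans ht
    have hl : 0 < lam ^ n := by positivity
    have he : ∀ C : ℝ, C * (lam⁻¹ / 2) ^ n = C * (1 / 2) ^ n / lam ^ n := by
      intro C; rw [div_pow, inv_pow, div_pow, one_pow]; field_simp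
    rw [he, le_div_iff₀ hl]
    by_cases hn : n ≤ N
    · have h1 := hbar n (by omega) t ht0
      have h2 : A * (c0 / σ) ^ n = A / (lam ^ n * σ ^ n) := by
        rw [hc0def, div_pow, inv_pow]; field_simp
      rw [h2, le_div_iff₀ (by positivity)] at h1
      have h3 : 1 ≤ σ ^ n := one_le_pow₀ hσ1.le
      have h4 := hX0 n t ht0
      have h5 : X n t * lam ^ n ≤ A := by
        have : 0 ≤ X n t * lam ^ n := by positivity
        nlinarith
      have h6 : (1 : ℝ) ≤ 2 ^ N * (1 / 2) ^ n := by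
        have h7 : (2 : ℝ) ^ n ≤ 2 ^ N := pow_le_pow_right₀ (by norm_num) hn
        have h8 : (2 : ℝ) ^ n * (1 / 2) ^ n = 1 := by
          rw [← mul_pow]; norm_num
        have h9 : (0 : ℝ) ≤ (1 / 2) ^ n := by positivity
        nlinarith
      calc X n t * lam ^ n ≤ A * 1 := by linarith
        _ ≤ A * (2 ^ N * (1 / 2) ^ n) := by gcongr
        _ = A * 2 ^ N * (1 / 2) ^ n := by ring
        _ ≤ max (A * 2 ^ N) (Bc * η * 2 ^ N) * (1 / 2) ^ n := by
          gcongr; exact le_max_left _ _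
    · obtain ⟨j, rfl⟩ : ∃ j, n = N + j := ⟨n - N, by omega⟩
      have h1 := hdec j t (by
        have : 0 ≤ (1 / 2 : ℝ) ^ j := by positivity
        nlinarith)
      have h2 : (2 : ℝ) ^ N * (1 / 2) ^ (N + j) = (1 / 2) ^ j := by
        rw [pow_add, ← mul_assoc, ← mul_pow]; norm_num
      calc X (N + j) t * lam ^ (N + j) = lam ^ (N + j) * X (N + j) t := by ring
        _ ≤ Bc * (1 / 2) ^ j * η := h1
        _ = Bc * η * (1 / 2) ^ j := by ring
        _ = Bc * η * (2 ^ N * (1 / 2) ^ (N + j)) := by rw [h2]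
        _ = Bc * η * 2 ^ N * (1 / 2) ^ (N + j) := by ring
        _ ≤ max (A * 2 ^ N) (Bc * η * 2 ^ N) * (1 / 2) ^ (N + j) := by
          gcongr; exact le_max_right _ _

end Pool.Agent.N841.DY.Bar3
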