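import Mathlib

/-!
# The dyadic Navier-Stokes model

The dyadic model (Desnyansky-Novikov, Katz-Pavlovic) with scale ratio `lam`, transport exponent
`β` and viscosity `ν`:

`X_n' = lam ^ (β (n-1)) X_(n-1) ^ 2 - lam ^ (β n) X_n X_(n+1) - ν lam ^ (2 n) X_n`, `n = 0, 1, 2, ...`

(the first term is absent for `n = 0`).
-/

set_option autoImplicit false

noncomputable section

namespace Pool.Agent.N841.DY

/-- The energy which shell `n - 1` feeds into shell `n` (divided by `X_n`). -/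
def feed (k : ℕ → ℝ) (a : ℕ → ℝ) : ℕ → ℝ
  | 0 => 0
  | n + 1 => k n * a n ^ 2

/-- The right-hand side of the `n`-th equation, `k` are the coupling coefficients and `d` the
damping coefficients. -/
def field (k d : ℕ → ℝ) (a : ℕ → ℝ) (n : ℕ) : ℝ :=
  feed k a n - k n * a n * a (n + 1) - d n * a n

/-- `X` solves the equations for all times `t ≥ 0`. -/
def IsSol (k d : ℕ → ℝ) (X : ℕ → ℝ → ℝ) : Prop :=
  ∀ n, ∀ t, 0 ≤ t → HasDerivWithinAt (X n) (field k d (fun j => X j t) n) (Set.Ici 0) t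

/-- The coupling coefficients `lam ^ (β n)`. -/
def coup (lam β : ℝ) (n : ℕ) : ℝ := lam ^ (β * n)

/-- The damping coefficients `ν lam ^ (2 n)`. -/
def damp (lam ν : ℝ) (n : ℕ) : ℝ := ν * lam ^ (2 * n)

/-- Faster decay in `n` than any exponential: all Sobolev norms of the datum are finite. -/
def Rapid (lam : ℝ) (x : ℕ → ℝ) : Prop := ∀ s : ℕ, ∃ C, ∀ n, lam ^ (s * n) * |x n| ≤ C

/-- All Sobolev norms of `X` are bounded uniformly for `t ≥ τ`. -/
def SmoothFrom (lam τ : ℝ) (X : ℕ → ℝ → ℝ) : Prop :=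
  ∀ s : ℕ, ∃ C, ∀ n t, τ ≤ t → lam ^ (s * n) * |X n t| ≤ C

/-- All Sobolev norms of `X` are bounded on each bounded interval of times. -/
def SmoothLoc (lam : ℝ) (X : ℕ → ℝ → ℝ) : Prop :=
  ∀ T : ℝ, ∀ s : ℕ, ∃ C, ∀ n t, 0 ≤ t → t ≤ T → lam ^ (s * n) * |X n t| ≤ C

end Pool.Agent.N841.DY
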