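import Pool.Agent.N841.DY.Stm2
import Pool.Agent.N841.DY.Energy

/-!
# Uniform bound of the cubic integrals (helper539)
-/

set_option autoImplicit false

open Set Filter Topology MeasureTheory

noncomputable section

namespace Pool.Agent.N841.DY.Flux

open Pool.Agent.N841.DY
open Pool.Agent.N841.DY.Energy (sum_deriv contX contY)

/-- the integral over `[0, T]` -/
def I (T : ℝ) (f : ℝ → ℝ) : ℝ := ∫ t in (0 : ℝ)..T, f t

lemma I_add (T : ℝ) {f g : ℝ → ℝ} (hf : Continuous f) (hg : Continuous g) :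
    I T (fun t => f t + g t) = I T f + I T g :=
  intervalIntegral.integral_add (hf.intervalIntegrable _ _) (hg.intervalIntegrable _ _)

lemma I_mul (T a : ℝ) (f : ℝ → ℝ) : I T (fun t => a * f t) = a * I T f :=
  intervalIntegral.integral_const_mul _ _

lemma I_mono {T : ℝ} (hT : 0 ≤ T) {f g : ℝ → ℝ} (hf : Continuous f) (hg : Continuous g)
    (h : ∀ t, 0 ≤ t → f t ≤ g t) : I T f ≤ I T g :=
  intervalIntegral.integral_mono_on hT (hf.intervalIntegrable _ _) (hg.intervalIntegrable _ _)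
    fun t ht => h t ht.1

lemma I_nonneg {T : ℝ} (hT : 0 ≤ T) {f : ℝ → ℝ} (h : ∀ t, 0 ≤ t → 0 ≤ f t) : 0 ≤ I T f :=
  intervalIntegral.integral_nonneg hT fun t ht => h t ht.1

lemma I_const (T a : ℝ) : I T (fun _ => a) = T * a := by
  unfold I
  rw [intervalIntegral.integral_const, smul_eq_mul, sub_zero]

lemma I_two (T a b : ℝ) {f g : ℝ → ℝ} (hf : Continuous f) (hg : Continuous g) :
    I T (fun t => a * f t + b * g t) = a * I T f + b * I T g := by
  have c1 : Continuous fun t => a * f t := by fun_prop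
  have c2 : Continuous fun t => b * g t := by fun_prop
  rw [I_add T c1 c2, I_mul, I_mul]

/-- integration of a pointwise inequality -/
lemma I_le8 {T : ℝ} (hT : 0 ≤ T) {f P f1 f2 f3 f4 f5 f6 f7 : ℝ → ℝ} (a1 a2 a3 a4 a5 a6 a7 : ℝ)
    (cf : Continuous f) (cP : Continuous P) (c1 : Continuous f1) (c2 : Continuous f2)
    (c3 : Continuous f3) (c4 : Continuous f4) (c5 : Continuous f5) (c6 : Continuous f6)
    (c7 : Continuous f7) (h : ∀ t, 0 ≤ t → f t ≤ P t + (a1 * f1 t + (a2 * f2 t + (a3 * f3 t +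
      (a4 * f4 t + (a5 * f5 t + (a6 * f6 t + a7 * f7 t))))))) :
    I T f ≤ I T P + (a1 * I T f1 + (a2 * I T f2 + (a3 * I T f3 + (a4 * I T f4 +
      (a5 * I T f5 + (a6 * I T f6 + a7 * I T f7)))))) := by
  have s7 : Continuous fun t => a7 * f7 t := by fun_prop
  have s6 : Continuous fun t => a6 * f6 t + a7 * f7 t := by fun_prop
  have s5 : Continuous fun t => a5 * f5 t + (a6 * f6 t + a7 * f7 t) := by fun_prop
  have s4 : Continuous fun t => a4 * f4 t + (a5 * f5 t + (a6 * f6 t + a7 * f7 t)) := by fun_prop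
  have s3 : Continuous fun t => a3 * f3 t + (a4 * f4 t + (a5 * f5 t + (a6 * f6 t +
    a7 * f7 t))) := by fun_prop
  have s2 : Continuous fun t => a2 * f2 t + (a3 * f3 t + (a4 * f4 t + (a5 * f5 t +
    (a6 * f6 t + a7 * f7 t)))) := by fun_prop
  have s1 : Continuous fun t => a1 * f1 t + (a2 * f2 t + (a3 * f3 t + (a4 * f4 t +
    (a5 * f5 t + (a6 * f6 t + a7 * f7 t))))) := by fun_prop
  have d6 : Continuous fun t => a6 * f6 t := by fun_prop
  have d5 : Continuous fun t => a5 * f5 t := by fun_prop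
  have d4 : Continuous fun t => a4 * f4 t := by fun_prop
  have d3 : Continuous fun t => a3 * f3 t := by fun_prop
  have d2 : Continuous fun t => a2 * f2 t := by fun_prop
  have d1 : Continuous fun t => a1 * f1 t := by fun_prop
  have s0 := cP.add s1
  have hle := I_mono hT cf s0 h
  refine hle.trans (le_of_eq ?_)
  have e : I T (P + fun t => a1 * f1 t + (a2 * f2 t + (a3 * f3 t + (a4 * f4 t +
    (a5 * f5 t + (a6 * f6 t + a7 * f7 t)))))) = I T P + I T (fun t => a1 * f1 t +
    (a2 * f2 t + (a3 * f3 t + (a4 * f4 t + (a5 * f5 t + (a6 * f6 t + a7 * f7 t)))))) :=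
    I_add T cP s1
  refine e.trans ?_
  rw [I_add T d1 s2, I_add T d2 s3, I_add T d3 s4, I_add T d4 s5, I_add T d5 s6, I_add T d6 s7,
    I_mul, I_mul, I_mul, I_mul, I_mul, I_mul, I_mul]

section gen

variable {k d : ℕ → ℝ} {X : ℕ → ℝ → ℝ} (hk : ∀ n, 0 ≤ k n) (hd : ∀ n, 0 ≤ d n)
  (hX : IsSol k d X) (hpos : ∀ n t, 0 ≤ t → 0 ≤ X n t) (hsum : Summable (fun n => X n 0 ^ 2))

include hk hd hX hpos hsum

/-- the energy identity -/
lemma energy {T : ℝ} (hT : 0 ≤ T) (N : ℕ) :
    X N T ^ 2 ≤ ∑' n, X n 0 ^ 2 ∧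
    2 * I T (fun t => k N * X N (max t 0) ^ 2 * X (N + 1) (max t 0)) ≤ ∑' n, X n 0 ^ 2 ∧
    2 * I T (fun t => d N * X N (max t 0) ^ 2) ≤ ∑' n, X n 0 ^ 2 := by
  have cG : Continuous (fun t => k N * X N (max t 0) ^ 2 * X (N + 1) (max t 0)) :=
    (continuous_const.mul ((contY hX N).pow 2)).mul (contY hX (N + 1))
  have cD : Continuous (fun t => ∑ n ∈ Finset.range (N + 1), d n * X n (max t 0) ^ 2) :=
    continuous_finsetSum _ fun n _ => continuous_const.mul ((contY hX n).pow 2)
  have cd : Continuous (fun t => d N * X N (max t 0) ^ 2) :=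
    continuous_const.mul ((contY hX N).pow 2)
  have h1 : I T (fun t => -2 * (k N * X N (max t 0) ^ 2 * X (N + 1) (max t 0)) +
      -2 * ∑ n ∈ Finset.range (N + 1), d n * X n (max t 0) ^ 2) =
      (∑ n ∈ Finset.range (N + 1), X n T ^ 2) - ∑ n ∈ Finset.range (N + 1), X n 0 ^ 2 := by
    refine intervalIntegral.integral_eq_sub_of_hasDeriv_right_of_le
      (f := fun s => ∑ n ∈ Finset.range (N + 1), X n s ^ 2) hT ?_ ?_ ?_
    · refine ContinuousOn.mono ?_ (Icc_subset_Ici_self)
      exact continuousOn_finsetSum _ fun n _ => (contX hX n).pow 2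
    · intro t ht
      have h2 := (sum_deriv hX N ht.1.le).hasDerivAt (Ici_mem_nhds ht.1)
      have h3 := h2.hasDerivWithinAt (s := Ioi t)
      refine h3.congr_deriv ?_
      simp only [max_eq_left ht.1.le]
      ring
    · exact ((continuous_const.mul cG).add (continuous_const.mul cD)).intervalIntegrable _ _
  rw [I_two T (-2) (-2) cG cD] at h1
  have h7 : ∑ n ∈ Finset.range (N + 1), X n 0 ^ 2 ≤ ∑' n, X n 0 ^ 2 :=
    hsum.sum_le_tsum _ fun n _ => sq_nonneg _
  have h5 : 0 ≤ I T (fun t => k N * X N (max t 0) ^ 2 * X (N + 1) (max t 0)) :=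
    I_nonneg hT fun t _ =>
      mul_nonneg (mul_nonneg (hk N) (sq_nonneg _)) (hpos _ _ (le_max_right _ _))
  have h8 : 0 ≤ I T (fun t => d N * X N (max t 0) ^ 2) :=
    I_nonneg hT fun t _ => mul_nonneg (hd N) (sq_nonneg _)
  have h9 : I T (fun t => d N * X N (max t 0) ^ 2) ≤
      I T (fun t => ∑ n ∈ Finset.range (N + 1), d n * X n (max t 0) ^ 2) :=
    I_mono hT cd cD fun t _ =>
      Finset.single_le_sum (f := fun j => d j * X j (max t 0) ^ 2)
        (fun j _ => mul_nonneg (hd j) (sq_nonneg _)) (Finset.mem_range.2 (Nat.lt_succ_self N))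
  have h10 : X N T ^ 2 ≤ ∑ n ∈ Finset.range (N + 1), X n T ^ 2 :=
    Finset.single_le_sum (f := fun j => X j T ^ 2) (fun j _ => sq_nonneg _)
      (Finset.mem_range.2 (Nat.lt_succ_self N))
  have h11 : 0 ≤ X N T ^ 2 := sq_nonneg _
  refine ⟨by linarith, by linarith, by linarith⟩

omit hk hd hpos hsum in
lemma feed_cont (n : ℕ) : Continuous (fun t => feed k (fun j => X j (max t 0)) n) := by
  cases n with
  | zero => exact continuous_const
  | succ n => exact continuous_const.mul ((contY hX n).pow 2)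

omit hd hX hpos hsum in
lemma feed_nonneg (n : ℕ) (t : ℝ) : 0 ≤ feed k (fun j => X j (max t 0)) n := by
  cases n with
  | zero => exact le_rfl
  | succ n => exact mul_nonneg (hk n) (sq_nonneg _)

omit hk hd hpos hsum in
lemma prod_int {T : ℝ} (hT : 0 ≤ T) (n : ℕ) :
    I T (fun t => X (n + 1) (max t 0) * field k d (fun j => X j (max t 0)) n +
      X n (max t 0) * field k d (fun j => X j (max t 0)) (n + 1)) =
      X n T * X (n + 1) T - X n 0 * X (n + 1) 0 := by
  have cf : ∀ n, Continuous (fun t => field k d (fun j => X j (max t 0)) n) := fun n =>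
    ((feed_cont hX n).sub ((continuous_const.mul (contY hX n)).mul (contY hX (n + 1)))).sub
      (continuous_const.mul (contY hX n))
  refine intervalIntegral.integral_eq_sub_of_hasDeriv_right_of_le
    (f := fun s => X n s * X (n + 1) s) hT ?_ ?_ ?_
  · exact ContinuousOn.mono ((contX hX n).mul (contX hX (n + 1))) Icc_subset_Ici_self
  · intro t ht
    have h2 := ((hX n t ht.1.le).mul (hX (n + 1) t ht.1.le)).hasDerivAt (Ici_mem_nhds ht.1)
    have h3 := h2.hasDerivWithinAt (s := Ioi t)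
    refine h3.congr_deriv ?_
    simp only [max_eq_left ht.1.le]
    ring
  · exact (((contY hX (n + 1)).mul (cf n)).add
      ((contY hX n).mul (cf (n + 1)))).intervalIntegrable _ _

end gen

/-- the pointwise inequality -/
lemma pointwise {f k mu d l2 c x y z : ℝ} (hf : 0 ≤ f) (hk : 0 ≤ k) (hmu : 0 < mu) (hd : 0 ≤ d)
    (hl : 1 ≤ l2) (hc : 0 < c) (hx : 0 ≤ x) (hy : 0 ≤ y) (hz : 0 ≤ z) :
    k * x ^ 3 ≤ (y * (f - k * x * y - d * x) +
        x * (k * x ^ 2 - mu * k * y * z - l2 * d * y)) +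
      (c / 2 * (k * x ^ 2 * y) + (1 / (2 * c * mu) * (mu * k * y ^ 3) +
        (c / 2 * (mu * k * y ^ 2 * z) + (mu / (2 * c) * (k * x ^ 3) +
          (1 / (2 * c * mu) * (mu * (mu * k) * z ^ 3) +
            (l2 * (d * x ^ 2) + l2 * (l2 * d * y ^ 2))))))) := by
  have a1 : k * x * y ^ 2 ≤ c / 2 * (k * x ^ 2 * y) + 1 / (2 * c * mu) * (mu * k * y ^ 3) := by
    have e : c / 2 * (k * x ^ 2 * y) + 1 / (2 * c * mu) * (mu * k * y ^ 3) - k * x * y ^ 2 =
        k * y / (2 * c) * (c * x - y) ^ 2 := by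
      field_simp
      ring
    have : 0 ≤ k * y / (2 * c) * (c * x - y) ^ 2 := by positivity
    linarith
  have a2 : x ^ 2 * z ≤ x ^ 3 + z ^ 3 := by
    rcases le_total x z with h | h
    · have : x ^ 2 * z ≤ z ^ 2 * z := mul_le_mul_of_nonneg_right (pow_le_pow_left₀ hx h 2) hz
      have h3 : 0 ≤ x ^ 3 := pow_nonneg hx 3
      nlinarith
    · have : x ^ 2 * z ≤ x ^ 2 * x := mul_le_mul_of_nonneg_left h (sq_nonneg x)
      have h3 : 0 ≤ z ^ 3 := pow_nonneg hz 3
      nlinarith
  have a3 : mu * k * x * y * z ≤ c / 2 * (mu * k * y ^ 2 * z) + (mu / (2 * c) * (k * x ^ 3) +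
      1 / (2 * c * mu) * (mu * (mu * k) * z ^ 3)) := by
    have e : c / 2 * (mu * k * y ^ 2 * z) + mu * k / (2 * c) * (x ^ 2 * z) -
        mu * k * x * y * z = mu * k * z / (2 * c) * (c * y - x) ^ 2 := by
      field_simp
      ring
    have h1 : 0 ≤ mu * k * z / (2 * c) * (c * y - x) ^ 2 := by positivity
    have h2 : mu * k / (2 * c) * (x ^ 2 * z) ≤ mu * k / (2 * c) * (x ^ 3 + z ^ 3) :=
      mul_le_mul_of_nonneg_left a2 (by positivity)
    have e2 : mu * k / (2 * c) * (x ^ 3 + z ^ 3) = mu / (2 * c) * (k * x ^ 3) +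
        1 / (2 * c * mu) * (mu * (mu * k) * z ^ 3) := by
      field_simp
    linarith
  have a4 : (d + l2 * d) * (x * y) ≤ l2 * (d * x ^ 2) + l2 * (l2 * d * y ^ 2) := by
    have h1 : 0 ≤ d * (x - y) ^ 2 := by positivity
    have h2 : 0 ≤ (l2 - 1) * d * x ^ 2 := mul_nonneg (mul_nonneg (by linarith) hd) (sq_nonneg _)
    have h3 : 0 ≤ (l2 - 1) * d * y ^ 2 := mul_nonneg (mul_nonneg (by linarith) hd) (sq_nonneg _)
    have h4 : 0 ≤ l2 * ((l2 - 1) * d * y ^ 2) := mul_nonneg (by linarith) h3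
    have h5 : 0 ≤ l2 * (d * (x - y) ^ 2) := mul_nonneg (by linarith) h1
    nlinarith
  have a5 : 0 ≤ y * f := mul_nonneg hy hf
  nlinarith

theorem t_FLUX : S_FLUX := by
  intro lam β ν hlam hν X hX hpos hsum T hT
  have hl0 : 0 < lam := by linarith
  have hk : ∀ n, 0 ≤ coup lam β n := fun n => Real.rpow_nonneg hl0.le _
  have hd : ∀ n, 0 ≤ damp lam ν n := fun n => mul_nonneg hν.le (pow_nonneg hl0.le _)
  obtain ⟨mu, hmu⟩ : ∃ mu, mu = lam ^ β := ⟨_, rfl⟩
  have hmu0 : 0 < mu := by rw [hmu]; exact Real.rpow_pos_of_pos hl0 _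
  have hks : ∀ n, coup lam β (n + 1) = mu * coup lam β n := by
    intro n
    unfold coup
    rw [hmu, ← Real.rpow_add hl0]
    congr 1
    push_cast
    ring
  have hk0 : coup lam β 0 = 1 := by
    unfold coup
    simp
  have hds : ∀ n, damp lam ν (n + 1) = lam ^ 2 * damp lam ν n := by
    intro n
    unfold damp
    ring
  have hkpow : ∀ n, coup lam β n = mu ^ n := by
    intro n
    induction n with
    | zero => rw [hk0, pow_zero]
    | succ n ih => rw [hks, ih, pow_succ']
  obtain ⟨E, hE⟩ : ∃ E, E = ∑' n, X n 0 ^ 2 := ⟨_, rfl⟩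
  have hen := fun N => energy hk hd hX hpos hsum hT N
  rw [← hE] at hen
  have hE0 : 0 ≤ E := by rw [hE]; exact tsum_nonneg fun n => sq_nonneg _
  have hsq : ∀ n t, 0 ≤ t → X n t ^ 2 ≤ E := by
    intro n t ht
    rw [hE]
    exact (energy hk hd hX hpos hsum ht n).1
  obtain ⟨B, hB⟩ : ∃ B, B = max 1 mu := ⟨_, rfl⟩
  have hB1 : 1 ≤ B := by rw [hB]; exact le_max_left _ _
  have hBm : mu ≤ B := by rw [hB]; exact le_max_right _ _
  have hB0 : 0 < B := by linarith
  obtain ⟨c, hc⟩ : ∃ c, c = mu + (4 + 2 * (B + B ^ 2)) / mu := ⟨_, rfl⟩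
  have hcm : mu ≤ c := by
    rw [hc]
    have : 0 ≤ (4 + 2 * (B + B ^ 2)) / mu := by positivity
    linarith
  have hc0 : 0 < c := by linarith
  have hcmu : 4 + 2 * (B + B ^ 2) ≤ c * mu := by
    rw [hc, add_mul, div_mul_cancel₀ _ hmu0.ne']
    have : 0 ≤ mu * mu := by positivity
    linarith
  have hcmu0 : 0 < c * mu := by positivity
  -- the cubic integrals
  obtain ⟨F, hF⟩ : ∃ F : ℕ → ℝ,
      F = fun n => I T (fun t => coup lam β n * X n (max t 0) ^ 3) := ⟨_, rfl⟩
  have cκ : ∀ n, Continuous (fun t => coup lam β n * X n (max t 0) ^ 3) := fun n =>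
    continuous_const.mul ((contY hX n).pow 3)
  have hF0 : ∀ n, 0 ≤ F n := by
    intro n
    rw [hF]
    exact I_nonneg hT fun t _ =>
      mul_nonneg (hk n) (pow_nonneg (hpos _ _ (le_max_right _ _)) 3)
  obtain ⟨K, hK⟩ : ∃ K, K = T * (E * (E + 1)) := ⟨_, rfl⟩
  have hK0 : 0 ≤ K := by rw [hK]; positivity
  have hcrude : ∀ n, F n ≤ K * B ^ n := by
    intro n
    have h1 : F n ≤ I T (fun _ => B ^ n * (E * (E + 1))) := by
      rw [hF]
      refine I_mono hT (cκ n) continuous_const fun t ht => ?_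
      have hx := hpos n (max t 0) (le_max_right _ _)
      have hx2 := hsq n (max t 0) (le_max_right _ _)
      have hx1 : X n (max t 0) ≤ E + 1 := by nlinarith [sq_nonneg (X n (max t 0) - 1)]
      have hx3 : X n (max t 0) ^ 3 ≤ E * (E + 1) := by
        calc X n (max t 0) ^ 3 = X n (max t 0) ^ 2 * X n (max t 0) := by ring
          _ ≤ E * (E + 1) := mul_le_mul hx2 hx1 hx hE0
      rw [hkpow]
      exact mul_le_mul (pow_le_pow_left₀ hmu0.le hBm n) hx3 (pow_nonneg hx 3)
        (pow_nonneg hB0.le n)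
    rw [I_const] at h1
    rw [hK]
    linarith
  obtain ⟨C1, hC1⟩ : ∃ C1, C1 = 2 * E + c * E + 2 * lam ^ 2 * E := ⟨_, rfl⟩
  have hC10 : 0 ≤ C1 := by rw [hC1]; positivity
  have hrec : ∀ n, F n ≤ C1 + 1 / (c * mu) * (F (n + 1) + F (n + 2)) := by
    intro n
    have cf : ∀ n, Continuous (fun t => field (coup lam β) (damp lam ν)
        (fun j => X j (max t 0)) n) := fun n =>
      ((feed_cont hX n).sub ((continuous_const.mul (contY hX n)).mul (contY hX (n + 1)))).sub
        (continuous_const.mul (contY hX n))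
    have cg : ∀ n, Continuous (fun t => coup lam β n * X n (max t 0) ^ 2 *
        X (n + 1) (max t 0)) := fun n =>
      (continuous_const.mul ((contY hX n).pow 2)).mul (contY hX (n + 1))
    have ch : ∀ n, Continuous (fun t => damp lam ν n * X n (max t 0) ^ 2) := fun n =>
      continuous_const.mul ((contY hX n).pow 2)
    have cP : Continuous (fun t => X (n + 1) (max t 0) * field (coup lam β) (damp lam ν)
        (fun j => X j (max t 0)) n + X n (max t 0) * field (coup lam β) (damp lam ν)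
        (fun j => X j (max t 0)) (n + 1)) :=
      ((contY hX (n + 1)).mul (cf n)).add ((contY hX n).mul (cf (n + 1)))
    have hle := I_le8 hT (c / 2) (1 / (2 * c * mu)) (c / 2) (mu / (2 * c)) (1 / (2 * c * mu))
      (lam ^ 2) (lam ^ 2) (cκ n) cP (cg n) (cκ (n + 1)) (cg (n + 1)) (cκ n) (cκ (n + 1 + 1))
      (ch n) (ch (n + 1)) (fun t ht => by
      have hp := pointwise (f := feed (coup lam β) (fun j => X j (max t 0)) n)
        (k := coup lam β n) (mu := mu) (d := damp lam ν n) (l2 := lam ^ 2) (c := c)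
        (x := X n (max t 0)) (y := X (n + 1) (max t 0)) (z := X (n + 1 + 1) (max t 0))
        (feed_nonneg hk n t) (hk n) hmu0 (hd n) (one_le_pow₀ hlam.le) hc0
        (hpos _ _ (le_max_right _ _)) (hpos _ _ (le_max_right _ _)) (hpos _ _ (le_max_right _ _))
      refine hp.trans (le_of_eq ?_)
      simp only [field, feed, hks, hds])
    rw [prod_int hX hT n] at hle
    have e0 : I T (fun t => coup lam β n * X n (max t 0) ^ 3) = F n := by rw [hF]
    have e1 : I T (fun t => coup lam β (n + 1) * X (n + 1) (max t 0) ^ 3) = F (n + 1) := by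
      rw [hF]
    have e2 : I T (fun t => coup lam β (n + 1 + 1) * X (n + 1 + 1) (max t 0) ^ 3) =
      F (n + 2) := by rw [hF]
    rw [e0, e1, e2] at hle
    have g0 := (hen n).2.1
    have g1 := (hen (n + 1)).2.1
    have h0 := (hen n).2.2
    have h1 := (hen (n + 1)).2.2
    have p0 : 0 ≤ X n 0 * X (n + 1) 0 := mul_nonneg (hpos n 0 le_rfl) (hpos (n + 1) 0 le_rfl)
    have pT : X n T * X (n + 1) T ≤ E := by
      have q1 := (hen n).1
      have q2 := (hen (n + 1)).1
      nlinarith [sq_nonneg (X n T - X (n + 1) T)]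
    have b1 : c / 2 * I T (fun t => coup lam β n * X n (max t 0) ^ 2 * X (n + 1) (max t 0)) ≤
        c / 2 * (E / 2) := mul_le_mul_of_nonneg_left (by linarith) (by positivity)
    have b2 : c / 2 * I T (fun t => coup lam β (n + 1) * X (n + 1) (max t 0) ^ 2 *
        X (n + 1 + 1) (max t 0)) ≤ c / 2 * (E / 2) :=
      mul_le_mul_of_nonneg_left (by linarith) (by positivity)
    have b3 : lam ^ 2 * I T (fun t => damp lam ν n * X n (max t 0) ^ 2) ≤ lam ^ 2 * (E / 2) :=
      mul_le_mul_of_nonneg_left (by linarith) (by positivity)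
    have b4 : lam ^ 2 * I T (fun t => damp lam ν (n + 1) * X (n + 1) (max t 0) ^ 2) ≤
        lam ^ 2 * (E / 2) := mul_le_mul_of_nonneg_left (by linarith) (by positivity)
    have b5 : mu / (2 * c) * F n ≤ 1 / 2 * F n := by
      refine mul_le_mul_of_nonneg_right ?_ (hF0 n)
      rw [div_le_iff₀ (by positivity)]
      linarith
    have b6 : 1 / (2 * c * mu) * F (n + 1) = 1 / 2 * (1 / (c * mu) * F (n + 1)) := by
      field_simp
    have b7 : 1 / (2 * c * mu) * F (n + 2) = 1 / 2 * (1 / (c * mu) * F (n + 2)) := by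
      field_simp
    rw [b6, b7] at hle
    rw [hC1, mul_add (1 / (c * mu))]
    linarith
  -- iteration
  have hη1 : 1 / (c * mu) * 4 ≤ 1 := by
    rw [one_div, inv_mul_le_iff₀ hcmu0]
    have : 0 ≤ 2 * (B + B ^ 2) := by positivity
    linarith
  have hη2 : 1 / (c * mu) * (B + B ^ 2) ≤ 1 / 2 := by
    rw [one_div, inv_mul_le_iff₀ hcmu0]
    linarith
  have hη0 : 0 ≤ 1 / (c * mu) := by positivity
  have hiter : ∀ j n : ℕ, F n ≤ 2 * C1 + K * (1 / 2) ^ j * B ^ n := by
    intro j
    induction j with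
    | zero =>
      intro n
      have := hcrude n
      rw [pow_zero, mul_one]
      linarith
    | succ j ih =>
      intro n
      have h1 := hrec n
      have h2 := ih (n + 1)
      have h3 := ih (n + 2)
      have h4 : 1 / (c * mu) * (F (n + 1) + F (n + 2)) ≤ 1 / (c * mu) *
          ((2 * C1 + K * (1 / 2) ^ j * B ^ (n + 1)) + (2 * C1 + K * (1 / 2) ^ j * B ^ (n + 2))) :=
        mul_le_mul_of_nonneg_left (add_le_add h2 h3) hη0
      have h5 : 1 / (c * mu) *
          ((2 * C1 + K * (1 / 2) ^ j * B ^ (n + 1)) + (2 * C1 + K * (1 / 2) ^ j * B ^ (n + 2))) =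
          1 / (c * mu) * 4 * C1 + 1 / (c * mu) * (B + B ^ 2) * (K * (1 / 2) ^ j * B ^ n) := by
        ring
      have h6 : 1 / (c * mu) * 4 * C1 ≤ 1 * C1 := mul_le_mul_of_nonneg_right hη1 hC10
      have h7 : 1 / (c * mu) * (B + B ^ 2) * (K * (1 / 2) ^ j * B ^ n) ≤
          1 / 2 * (K * (1 / 2) ^ j * B ^ n) := mul_le_mul_of_nonneg_right hη2 (by positivity)
      have h8 : K * (1 / 2) ^ (j + 1) * B ^ n = 1 / 2 * (K * (1 / 2) ^ j * B ^ n) := by
        rw [pow_succ]
        ring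
      rw [h8]
      linarith
  refine ⟨2 * C1, fun n => ?_⟩
  have hlim : Tendsto (fun j : ℕ => 2 * C1 + K * (1 / 2 : ℝ) ^ j * B ^ n) atTop
      (𝓝 (2 * C1 + K * 0 * B ^ n)) :=
    tendsto_const_nhds.add ((tendsto_const_nhds.mul (tendsto_pow_atTop_nhds_zero_of_lt_one
      (by norm_num) (by norm_num))).mul tendsto_const_nhds)
  have h1 := ge_of_tendsto' hlim fun j => hiter j n
  rw [mul_zero, zero_mul, add_zero] at h1
  refine le_trans (le_of_eq ?_) h1
  rw [hF]
  unfold I
  refine intervalIntegral.integral_congr fun t ht => ?_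
  rw [uIcc_of_le hT] at ht
  simp only [max_eq_left ht.1]

end Pool.Agent.N841.DY.Flux
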