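import Pool.Agent.N841.DY.Stm3
import Pool.Agent.N841.DY.Flux

/-!
# The cubic integrals tend to zero if the flux does (helper434)
-/

set_option autoImplicit false

open Set Filter Topology MeasureTheory

noncomputable section

namespace Pool.Agent.N841.DY.Fdec

open Pool.Agent.N841.DY
open Pool.Agent.N841.DY.Energy (sum_deriv contX contY)
open Pool.Agent.N841.DY.Flux

section gen

variable {k d : ℕ → ℝ} {X : ℕ → ℝ → ℝ} (hk : ∀ n, 0 ≤ k n) (hd : ∀ n, 0 ≤ d n)
  (hX : IsSol k d X) (hpos : ∀ n t, 0 ≤ t → 0 ≤ X n t) (hsum : Summable (fun n => X n 0 ^ 2))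

include hk hX hpos hsum

/-- the energy inequality, with all shells -/
lemma energy_sum {T : ℝ} (hT : 0 ≤ T) (N : ℕ) :
    ∑ n ∈ Finset.range (N + 1), X n T ^ 2 +
      2 * ∑ n ∈ Finset.range (N + 1), I T (fun t => d n * X n (max t 0) ^ 2) ≤
      ∑' n, X n 0 ^ 2 := by
  have cG : Continuous (fun t => k N * X N (max t 0) ^ 2 * X (N + 1) (max t 0)) :=
    (continuous_const.mul ((contY hX N).pow 2)).mul (contY hX (N + 1))
  have cD : Continuous (fun t => ∑ n ∈ Finset.range (N + 1), d n * X n (max t 0) ^ 2) :=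
    continuous_finsetSum _ fun n _ => continuous_const.mul ((contY hX n).pow 2)
  have h1 : I T (fun t => -2 * (k N * X N (max t 0) ^ 2 * X (N + 1) (max t 0)) +
      -2 * ∑ n ∈ Finset.range (N + 1), d n * X n (max t 0) ^ 2) =
      (∑ n ∈ Finset.range (N + 1), X n T ^ 2) - ∑ n ∈ Finset.range (N + 1), X n 0 ^ 2 := by
    refine intervalIntegral.integral_eq_sub_of_hasDeriv_right_of_le
      (f := fun s => ∑ n ∈ Finset.range (N + 1), X n s ^ 2) hT ?_ ?_ ?_
    · refine ContinuousOn.mono ?_ (Icc_subset_Ici_self)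
      exact continuousOn_finsetSum _ fun n _ => (contX hX n).pow 2
    · intro t ht
      have h2 := (sum_deriv hX N ht.1.le).hasDerivAt (Ici_mem_nhds ht.1)
      have h3 := h2.hasDerivWithinAt (s := Ioi t)
      refine h3.congr_deriv ?_
      simp only [max_eq_left ht.1.le]
      ring
    · exact ((continuous_const.mul cG).add (continuous_const.mul cD)).intervalIntegrable _ _
  rw [I_two T (-2) (-2) cG cD] at h1
  have h7 : ∑ n ∈ Finset.range (N + 1), X n 0 ^ 2 ≤ ∑' n, X n 0 ^ 2 :=
    hsum.sum_le_tsum _ fun n _ => sq_nonneg _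
  have h5 : 0 ≤ I T (fun t => k N * X N (max t 0) ^ 2 * X (N + 1) (max t 0)) :=
    I_nonneg hT fun t _ =>
      mul_nonneg (mul_nonneg (hk N) (sq_nonneg _)) (hpos _ _ (le_max_right _ _))
  have h8 : I T (fun t => ∑ n ∈ Finset.range (N + 1), d n * X n (max t 0) ^ 2) =
      ∑ n ∈ Finset.range (N + 1), I T (fun t => d n * X n (max t 0) ^ 2) := by
    unfold I
    exact intervalIntegral.integral_finsetSum fun n _ =>
      (continuous_const.mul ((contY hX n).pow 2)).intervalIntegrable _ _
  rw [h8] at h1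
  linarith

include hd

lemma tendsto_D {T : ℝ} (hT : 0 ≤ T) :
    Tendsto (fun n => I T (fun t => d n * X n (max t 0) ^ 2)) atTop (𝓝 0) := by
  have h0 : ∀ n, 0 ≤ I T (fun t => d n * X n (max t 0) ^ 2) := fun n =>
    I_nonneg hT fun t _ => mul_nonneg (hd n) (sq_nonneg _)
  have hs : Summable fun n => I T (fun t => d n * X n (max t 0) ^ 2) := by
    refine summable_of_sum_range_le (c := ∑' n, X n 0 ^ 2) h0 fun n => ?_
    have h1 := energy_sum hk hX hpos hsum hT n
    have h2 : 0 ≤ ∑ n ∈ Finset.range (n + 1), X n T ^ 2 :=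
      Finset.sum_nonneg fun n _ => sq_nonneg _
    have h3 : ∑ i ∈ Finset.range n, I T (fun t => d i * X i (max t 0) ^ 2) ≤
        ∑ i ∈ Finset.range (n + 1), I T (fun t => d i * X i (max t 0) ^ 2) := by
      rw [Finset.sum_range_succ]
      linarith [h0 n]
    have h4 : 0 ≤ ∑ i ∈ Finset.range (n + 1), I T (fun t => d i * X i (max t 0) ^ 2) :=
      Finset.sum_nonneg fun n _ => h0 n
    linarith
  exact hs.tendsto_atTop_zero

lemma tendsto_X {T : ℝ} (hT : 0 ≤ T) : Tendsto (fun n => X n T ^ 2) atTop (𝓝 0) := by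
  have h0 : ∀ n, 0 ≤ I T (fun t => d n * X n (max t 0) ^ 2) := fun n =>
    I_nonneg hT fun t _ => mul_nonneg (hd n) (sq_nonneg _)
  have hs : Summable fun n => X n T ^ 2 := by
    refine summable_of_sum_range_le (c := ∑' n, X n 0 ^ 2) (fun n => sq_nonneg _) fun n => ?_
    have h1 := energy_sum hk hX hpos hsum hT n
    have h3 : ∑ i ∈ Finset.range n, X i T ^ 2 ≤ ∑ i ∈ Finset.range (n + 1), X i T ^ 2 := by
      rw [Finset.sum_range_succ]
      linarith [sq_nonneg (X n T)]
    have h4 : 0 ≤ ∑ i ∈ Finset.range (n + 1), I T (fun t => d i * X i (max t 0) ^ 2) :=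
      Finset.sum_nonneg fun n _ => h0 n
    linarith
  exact hs.tendsto_atTop_zero

end gen

theorem t_FDEC : S_FDEC := by
  intro lam β ν hlam hν X hX hpos hsum T hT hflux
  obtain ⟨B, hB⟩ := t_FLUX lam β ν hlam hν X hX hpos hsum T hT
  have hl0 : 0 < lam := by linarith
  have hk : ∀ n, 0 ≤ coup lam β n := fun n => Real.rpow_nonneg hl0.le _
  have hd : ∀ n, 0 ≤ damp lam ν n := fun n => mul_nonneg hν.le (pow_nonneg hl0.le _)
  obtain ⟨mu, hmu⟩ : ∃ mu, mu = lam ^ β := ⟨_, rfl⟩
  have hmu0 : 0 < mu := by rw [hmu]; exact Real.rpow_pos_of_pos hl0 _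
  have hks : ∀ n, coup lam β (n + 1) = mu * coup lam β n := by
    intro n
    unfold coup
    rw [hmu, ← Real.rpow_add hl0]
    congr 1
    push_cast
    ring
  have hds : ∀ n, damp lam ν (n + 1) = lam ^ 2 * damp lam ν n := by
    intro n
    unfold damp
    ring
  obtain ⟨c, hc⟩ : ∃ c, c = 2 * mu + 4 / mu := ⟨_, rfl⟩
  have hcm : 2 * mu ≤ c := by
    rw [hc]
    have : 0 ≤ 4 / mu := by positivity
    linarith
  have hc0 : 0 < c := by linarith
  have hcmu : 4 ≤ c * mu := by
    rw [hc, add_mul, div_mul_cancel₀ _ hmu0.ne']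
    have : 0 ≤ 2 * mu * mu := by positivity
    linarith
  -- the cubic integrals
  obtain ⟨F, hF⟩ : ∃ F : ℕ → ℝ,
      F = fun n => I T (fun t => coup lam β n * X n (max t 0) ^ 3) := ⟨_, rfl⟩
  have hFe : ∀ n, F n = ∫ t in (0 : ℝ)..T, coup lam β n * X n t ^ 3 := by
    intro n
    rw [hF]
    unfold I
    refine intervalIntegral.integral_congr fun t ht => ?_
    rw [uIcc_of_le hT] at ht
    simp only [max_eq_left ht.1]
  have hφe : ∀ n, I T (fun t => coup lam β n * X n (max t 0) ^ 2 * X (n + 1) (max t 0)) =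
      flux (coup lam β) X T n := by
    intro n
    unfold I flux
    refine intervalIntegral.integral_congr fun t ht => ?_
    rw [uIcc_of_le hT] at ht
    simp only [max_eq_left ht.1]
  have cκ : ∀ n, Continuous (fun t => coup lam β n * X n (max t 0) ^ 3) := fun n =>
    continuous_const.mul ((contY hX n).pow 3)
  have hF0 : ∀ n, 0 ≤ F n := by
    intro n
    rw [hF]
    exact I_nonneg hT fun t _ =>
      mul_nonneg (hk n) (pow_nonneg (hpos _ _ (le_max_right _ _)) 3)
  have hFB : ∀ n, F n ≤ B := fun n => by rw [hFe]; exact hB n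
  have hB0 : 0 ≤ B := (hF0 0).trans (hFB 0)
  obtain ⟨a, ha⟩ : ∃ a : ℕ → ℝ, a = fun n => (X n T ^ 2 + X (n + 1) T ^ 2) +
      (c / 2 * flux (coup lam β) X T n + c / 2 * flux (coup lam β) X T (n + 1) +
        (lam ^ 2 * I T (fun t => damp lam ν n * X n (max t 0) ^ 2) +
          lam ^ 2 * I T (fun t => damp lam ν (n + 1) * X (n + 1) (max t 0) ^ 2))) := ⟨_, rfl⟩
  have ha0 : Tendsto a atTop (𝓝 0) := by
    rw [ha]
    have t1 := tendsto_X hk hd hX hpos hsum hT
    have t1' := t1.comp (tendsto_add_atTop_nat 1)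
    have t2' := hflux.comp (tendsto_add_atTop_nat 1)
    have t3 := tendsto_D hk hd hX hpos hsum hT
    have t3' := t3.comp (tendsto_add_atTop_nat 1)
    have := (t1.add t1').add (((hflux.const_mul (c / 2)).add (t2'.const_mul (c / 2))).add
      ((t3.const_mul (lam ^ 2)).add (t3'.const_mul (lam ^ 2))))
    simpa using this
  have hrec : ∀ n, F n ≤ a n + (1 / 4 * F n + (1 / 8 * F (n + 1) + 1 / 8 * F (n + 2))) := by
    intro n
    have cf : ∀ n, Continuous (fun t => field (coup lam β) (damp lam ν)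
        (fun j => X j (max t 0)) n) := fun n =>
      ((feed_cont hX n).sub ((continuous_const.mul (contY hX n)).mul (contY hX (n + 1)))).sub
        (continuous_const.mul (contY hX n))
    have cg : ∀ n, Continuous (fun t => coup lam β n * X n (max t 0) ^ 2 *
        X (n + 1) (max t 0)) := fun n =>
      (continuous_const.mul ((contY hX n).pow 2)).mul (contY hX (n + 1))
    have ch : ∀ n, Continuous (fun t => damp lam ν n * X n (max t 0) ^ 2) := fun n =>
      continuous_const.mul ((contY hX n).pow 2)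
    have cP : Continuous (fun t => X (n + 1) (max t 0) * field (coup lam β) (damp lam ν)
        (fun j => X j (max t 0)) n + X n (max t 0) * field (coup lam β) (damp lam ν)
        (fun j => X j (max t 0)) (n + 1)) :=
      ((contY hX (n + 1)).mul (cf n)).add ((contY hX n).mul (cf (n + 1)))
    have hle := I_le8 hT (c / 2) (1 / (2 * c * mu)) (c / 2) (mu / (2 * c)) (1 / (2 * c * mu))
      (lam ^ 2) (lam ^ 2) (cκ n) cP (cg n) (cκ (n + 1)) (cg (n + 1)) (cκ n) (cκ (n + 1 + 1))
      (ch n) (ch (n + 1)) (fun t ht => by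
      have hp := pointwise (f := feed (coup lam β) (fun j => X j (max t 0)) n)
        (k := coup lam β n) (mu := mu) (d := damp lam ν n) (l2 := lam ^ 2) (c := c)
        (x := X n (max t 0)) (y := X (n + 1) (max t 0)) (z := X (n + 1 + 1) (max t 0))
        (feed_nonneg hk n t) (hk n) hmu0 (hd n) (one_le_pow₀ hlam.le) hc0
        (hpos _ _ (le_max_right _ _)) (hpos _ _ (le_max_right _ _)) (hpos _ _ (le_max_right _ _))
      refine hp.trans (le_of_eq ?_)
      simp only [field, feed, hks, hds])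
    rw [prod_int hX hT n] at hle
    have e0 : I T (fun t => coup lam β n * X n (max t 0) ^ 3) = F n := by rw [hF]
    have e1 : I T (fun t => coup lam β (n + 1) * X (n + 1) (max t 0) ^ 3) = F (n + 1) := by
      rw [hF]
    have e2 : I T (fun t => coup lam β (n + 1 + 1) * X (n + 1 + 1) (max t 0) ^ 3) =
      F (n + 2) := by rw [hF]
    rw [e0, e1, e2, hφe n, hφe (n + 1)] at hle
    have p0 : 0 ≤ X n 0 * X (n + 1) 0 := mul_nonneg (hpos n 0 le_rfl) (hpos (n + 1) 0 le_rfl)
    have pT : X n T * X (n + 1) T ≤ X n T ^ 2 + X (n + 1) T ^ 2 := by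
      nlinarith [sq_nonneg (X n T - X (n + 1) T), sq_nonneg (X n T), sq_nonneg (X (n + 1) T)]
    have b5 : mu / (2 * c) * F n ≤ 1 / 4 * F n := by
      refine mul_le_mul_of_nonneg_right ?_ (hF0 n)
      rw [div_le_iff₀ (by positivity)]
      linarith
    have b0 : 1 / (2 * c * mu) ≤ 1 / 8 := by
      apply one_div_le_one_div_of_le (by norm_num)
      linarith
    have b6 : 1 / (2 * c * mu) * F (n + 1) ≤ 1 / 8 * F (n + 1) :=
      mul_le_mul_of_nonneg_right b0 (hF0 _)
    have b7 : 1 / (2 * c * mu) * F (n + 2) ≤ 1 / 8 * F (n + 2) :=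
      mul_le_mul_of_nonneg_right b0 (hF0 _)
    rw [ha]
    simp only
    linarith
  -- the limit
  have hlim : Tendsto F atTop (𝓝 0) := by
    rw [Metric.tendsto_atTop]
    intro ε hε
    obtain ⟨n0, hn0⟩ := (Metric.tendsto_atTop.1 ha0) (ε / 4) (by linarith)
    refine ⟨n0, fun n hn => ?_⟩
    have hiter : ∀ j n : ℕ, n0 ≤ n → F n ≤ 2 * (ε / 4) + B * (1 / 2) ^ j := by
      intro j
      induction j with
      | zero =>
        intro n _
        have := hFB n
        rw [pow_zero, mul_one]
        linarith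
      | succ j ih =>
        intro n hn
        have h1 := hrec n
        have h2 := ih n hn
        have h3 := ih (n + 1) (by omega)
        have h4 := ih (n + 2) (by omega)
        have h5 := hn0 n hn
        rw [Real.dist_eq, sub_zero] at h5
        have h6 := (abs_lt.1 h5).2
        rw [pow_succ]
        linarith
    have hl : Tendsto (fun j : ℕ => 2 * (ε / 4) + B * (1 / 2 : ℝ) ^ j) atTop
        (𝓝 (2 * (ε / 4) + B * 0)) :=
      tendsto_const_nhds.add (tendsto_const_nhds.mul (tendsto_pow_atTop_nhds_zero_of_lt_one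
        (by norm_num) (by norm_num)))
    have h1 := ge_of_tendsto' hl fun j => hiter j n hn
    rw [Real.dist_eq, sub_zero, abs_of_nonneg (hF0 n)]
    linarith
  refine hlim.congr fun n => hFe n

end Pool.Agent.N841.DY.Fdec
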