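import Pool.Agent.N841.DY.Stm3
import Pool.Agent.N841.DY.Energy

/-!
# No anomalous dissipation for smooth solutions (helper134)
-/

set_option autoImplicit false

open Set Filter Topology MeasureTheory

noncomputable section

namespace Pool.Agent.N841.DY.Noanom

open Pool.Agent.N841.DY Pool.Agent.N841.DY.Energy

theorem t_NOANOM (hT : S_TEL) : S_NOANOM := by
  intro lam β ν hlam hν X hX hpos hsum hsm t ht
  have hlam0 : 0 < lam := by linarith
  have hk : ∀ n, 0 ≤ coup lam β n := fun n => (Real.rpow_pos_of_pos hlam0 _).le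
  have hd : ∀ n, 0 ≤ damp lam ν n := fun n => by unfold damp; positivity
  have hf0 : ∀ N s, 0 ≤ s → 0 ≤ coup lam β N * X N s ^ 2 * X (N + 1) s := fun N s hs =>
    mul_nonneg (mul_nonneg (hk N) (sq_nonneg _)) (hpos _ _ hs)
  have hfl0 : ∀ r, 0 ≤ r → ∀ N, 0 ≤ flux (coup lam β) X r N := by
    intro r hr N
    exact intervalIntegral.integral_nonneg hr fun s hs => hf0 N s hs.1
  rcases ht.eq_or_lt with rfl | ht'
  · unfold flux
    simp only [intervalIntegral.integral_same]
    exact tendsto_const_nhds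
  rw [Metric.tendsto_atTop]
  intro ε hε
  obtain ⟨E, hE⟩ : ∃ E : ℝ, E = ∑' n, X n 0 ^ 2 := ⟨_, rfl⟩
  have hpart : ∀ N, ∑ n ∈ Finset.range N, X n 0 ^ 2 ≤ E := fun N => by
    rw [hE]
    exact hsum.sum_le_tsum _ fun n _ => sq_nonneg _
  obtain ⟨M, hM⟩ : ∃ M, E - ε / 4 < ∑ n ∈ Finset.range (M + 1), X n 0 ^ 2 := by
    have h1 := hsum.hasSum.tendsto_sum_nat
    rw [← hE] at h1
    have h2 := (h1.comp (tendsto_add_atTop_nat 1)).eventually
      (lt_mem_nhds (show E - ε / 4 < E by linarith))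
    exact h2.exists
  -- a small time
  have hcont : ContinuousWithinAt (fun s => ∑ n ∈ Finset.range (M + 1), X n s ^ 2) (Ici 0) 0 := by
    have : ContinuousOn (fun s => ∑ n ∈ Finset.range (M + 1), X n s ^ 2) (Ici 0) :=
      continuousOn_finsetSum _ fun n _ => (contX hX n).pow 2
    exact this 0 (mem_Ici.2 le_rfl)
  have hev : ∀ᶠ s in 𝓝[>] (0 : ℝ), E - ε / 4 < ∑ n ∈ Finset.range (M + 1), X n s ^ 2 :=
    (hcont.eventually (lt_mem_nhds hM)).filter_mono (nhdsWithin_mono _ Ioi_subset_Ici_self)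
  obtain ⟨τ, hτ1, hτ2⟩ := (hev.and (Ioo_mem_nhdsGT ht')).exists
  obtain ⟨hτ0, hτt⟩ := hτ2
  have hsmall : ∀ N, M ≤ N → flux (coup lam β) X τ N ≤ ε / 8 := by
    intro N hN
    have h1 := hT (coup lam β) (damp lam ν) X hX τ hτ0.le N
    have h2 : ∑ n ∈ Finset.range (M + 1), X n τ ^ 2 ≤ ∑ n ∈ Finset.range (N + 1),
        (X n τ ^ 2 + 2 * ∫ s in (0 : ℝ)..τ, damp lam ν n * X n s ^ 2) := by
      refine (Finset.sum_le_sum_of_subset_of_nonneg
        (Finset.range_subset_range.2 (by omega : M + 1 ≤ N + 1))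
        fun n _ _ => sq_nonneg _).trans (Finset.sum_le_sum fun n _ => ?_)
      have h3 : 0 ≤ ∫ s in (0 : ℝ)..τ, damp lam ν n * X n s ^ 2 :=
        intervalIntegral.integral_nonneg hτ0.le fun s _ => mul_nonneg (hd n) (sq_nonneg _)
      linarith
    have h3 := hpart (N + 1)
    linarith
  -- the smooth part
  obtain ⟨m, hm⟩ := exists_nat_ge (max β 1)
  have hmβ : β ≤ m := (le_max_left _ _).trans hm
  have hm1 : 1 ≤ m := by exact_mod_cast (le_max_right _ _).trans hm
  obtain ⟨C, hC⟩ := hsm τ hτ0 m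
  have hC0 : 0 ≤ C := le_trans (by positivity) (hC 0 τ le_rfl)
  have hbd : ∀ N s, τ ≤ s → coup lam β N * X N s ^ 2 * X (N + 1) s ≤ C ^ 3 * (lam⁻¹) ^ N := by
    intro N s hs
    have hs0 : 0 ≤ s := hτ0.le.trans hs
    have h1 := hC N s hs
    have h2 := hC (N + 1) s hs
    rw [abs_of_nonneg (hpos _ _ hs0)] at h1 h2
    have h3 : coup lam β N ≤ lam ^ (m * N) := by
      unfold coup
      rw [← Real.rpow_natCast]
      apply Real.rpow_le_rpow_of_exponent_le hlam.le
      push_cast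
      exact mul_le_mul_of_nonneg_right hmβ (Nat.cast_nonneg _)
    have h4 : X (N + 1) s ≤ C := by
      have h5 : 1 ≤ lam ^ (m * (N + 1)) := one_le_pow₀ hlam.le
      exact (le_mul_of_one_le_left (hpos _ _ hs0) h5).trans h2
    have h5 : X N s ≤ C * (lam⁻¹) ^ N := by
      rw [inv_pow, ← div_eq_mul_inv, le_div_iff₀ (by positivity)]
      have h6 : lam ^ N ≤ lam ^ (m * N) :=
        pow_le_pow_right₀ hlam.le (Nat.le_mul_of_pos_left N hm1)
      calc X N s * lam ^ N ≤ X N s * lam ^ (m * N) :=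
            mul_le_mul_of_nonneg_left h6 (hpos _ _ hs0)
        _ = lam ^ (m * N) * X N s := mul_comm _ _
        _ ≤ C := h1
    have hXN := hpos N s hs0
    have hXN1 := hpos (N + 1) s hs0
    calc coup lam β N * X N s ^ 2 * X (N + 1) s
        ≤ lam ^ (m * N) * X N s ^ 2 * X (N + 1) s := by gcongr
      _ = (lam ^ (m * N) * X N s) * X N s * X (N + 1) s := by ring
      _ ≤ C * (C * (lam⁻¹) ^ N) * C := by gcongr
      _ = C ^ 3 * (lam⁻¹) ^ N := by ring
  have hint : ∀ N, ∫ s in τ..t, coup lam β N * X N s ^ 2 * X (N + 1) s ≤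
      C ^ 3 * (lam⁻¹) ^ N * |t - τ| := by
    intro N
    refine (le_abs_self _).trans ?_
    rw [← Real.norm_eq_abs]
    refine intervalIntegral.norm_integral_le_of_norm_le_const fun s hs => ?_
    rw [uIoc_of_le hτt.le] at hs
    rw [Real.norm_of_nonneg (hf0 N s (hτ0.le.trans hs.1.le))]
    exact hbd N s hs.1.le
  have hlim : Tendsto (fun N : ℕ => C ^ 3 * (lam⁻¹) ^ N * |t - τ|) atTop (𝓝 0) := by
    have h1 : Tendsto (fun N : ℕ => (lam⁻¹) ^ N) atTop (𝓝 0) :=
      tendsto_pow_atTop_nhds_zero_of_lt_one (by positivity) (inv_lt_one_of_one_lt₀ hlam)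
    have h2 := (h1.const_mul (C ^ 3)).mul_const |t - τ|
    rwa [mul_zero, zero_mul] at h2
  obtain ⟨N1, hN1⟩ := eventually_atTop.1 (hlim.eventually (gt_mem_nhds (half_pos hε)))
  refine ⟨max M N1, fun N hN => ?_⟩
  have hi : ∀ a b : ℝ, 0 ≤ a → 0 ≤ b → IntervalIntegrable
      (fun s => coup lam β N * X N s ^ 2 * X (N + 1) s) volume a b := by
    intro a b ha hb
    have hsub : uIcc a b ⊆ Ici 0 := fun s hs => le_trans (le_min ha hb) hs.1
    exact ((continuousOn_const.mul (((contX hX N).mono hsub).pow 2)).mul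
      ((contX hX (N + 1)).mono hsub)).intervalIntegrable
  have hadd : flux (coup lam β) X t N = flux (coup lam β) X τ N +
      ∫ s in τ..t, coup lam β N * X N s ^ 2 * X (N + 1) s := by
    unfold flux
    rw [intervalIntegral.integral_add_adjacent_intervals (hi _ _ le_rfl hτ0.le)
      (hi _ _ hτ0.le ht)]
  rw [Real.dist_eq, sub_zero, abs_of_nonneg (hfl0 t ht N), hadd]
  have h1 := hsmall N (le_trans (le_max_left _ _) hN)
  have h2 := hint N
  have h3 := hN1 N (le_trans (le_max_right _ _) hN)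
  linarith

end Pool.Agent.N841.DY.Noanom
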