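import Pool.Agent.N841.DY.Stm3
import Pool.Agent.N841.DY.Energy

/-!
# Energy balance of the first shells (helper134)
-/

set_option autoImplicit false

open Set Filter Topology MeasureTheory

noncomputable section

namespace Pool.Agent.N841.DY.Tel

open Pool.Agent.N841.DY Pool.Agent.N841.DY.Energy

theorem t_TEL : S_TEL := by
  intro k d X hX t ht N
  have hcX : ∀ n, ContinuousOn (X n) (uIcc 0 t) := fun n =>
    (contX hX n).mono (by rw [uIcc_of_le ht]; exact Icc_subset_Ici_self)
  have hG : ContinuousOn (fun s => k N * X N s ^ 2 * X (N + 1) s) (uIcc 0 t) :=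
    (continuousOn_const.mul ((hcX N).pow 2)).mul (hcX (N + 1))
  have hD : ∀ n, ContinuousOn (fun s => d n * X n s ^ 2) (uIcc 0 t) := fun n =>
    continuousOn_const.mul ((hcX n).pow 2)
  have hDs : ContinuousOn (fun s => ∑ n ∈ Finset.range (N + 1), d n * X n s ^ 2) (uIcc 0 t) :=
    continuousOn_finsetSum _ fun n _ => hD n
  have c1 : ContinuousOn (fun s => -(2 * (k N * X N s ^ 2 * X (N + 1) s))) (uIcc 0 t) :=
    (continuousOn_const.mul hG).neg
  have c2 : ContinuousOn (fun s => 2 * ∑ n ∈ Finset.range (N + 1), d n * X n s ^ 2) (uIcc 0 t) :=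
    continuousOn_const.mul hDs
  have h1 : ∫ s in (0 : ℝ)..t, (-(2 * (k N * X N s ^ 2 * X (N + 1) s)) -
      2 * ∑ n ∈ Finset.range (N + 1), d n * X n s ^ 2) =
      (∑ n ∈ Finset.range (N + 1), X n t ^ 2) - ∑ n ∈ Finset.range (N + 1), X n 0 ^ 2 := by
    refine intervalIntegral.integral_eq_sub_of_hasDeriv_right_of_le
      (f := fun s => ∑ n ∈ Finset.range (N + 1), X n s ^ 2) ht ?_ ?_ ?_
    · refine ContinuousOn.mono ?_ (Icc_subset_Ici_self)
      exact continuousOn_finsetSum _ fun n _ => (contX hX n).pow 2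
    · intro s hs
      exact ((sum_deriv hX N hs.1.le).hasDerivAt (Ici_mem_nhds hs.1)).hasDerivWithinAt
    · exact (c1.sub c2).intervalIntegrable
  rw [intervalIntegral.integral_sub c1.intervalIntegrable c2.intervalIntegrable,
    intervalIntegral.integral_neg, intervalIntegral.integral_const_mul,
    intervalIntegral.integral_const_mul,
    intervalIntegral.integral_finsetSum fun n _ => (hD n).intervalIntegrable] at h1
  unfold flux
  rw [Finset.sum_add_distrib, ← Finset.mul_sum]
  linarith

end Pool.Agent.N841.DY.Tel
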