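import Pool.Agent.N841.DY.Main
import Pool.Agent.N841.DY.Anom
import Pool.Agent.N841.DY.Fdec
import Pool.Agent.N841.DY.Noanom
import Pool.Agent.N841.DY.Tel

/-!
Energy equality of the dyadic model.
-/

set_option autoImplicit false

open Set Filter Topology

noncomputable section

namespace Pool.Agent.N841.DY

/-- The energy of shell `n` at time `t` plus the energy which viscosity has taken out of shell `n`
up to time `t`. -/
def account (d : ℕ → ℝ) (X : ℕ → ℝ → ℝ) (t : ℝ) (n : ℕ) : ℝ :=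
  X n t ^ 2 + 2 * ∫ s in (0 : ℝ)..t, d n * X n s ^ 2

/-- The energy equality at time `t`: the energy at time `t` plus the energy dissipated by
viscosity up to time `t` is the energy of the datum. -/
def EnergyEquality (d : ℕ → ℝ) (X : ℕ → ℝ → ℝ) (t : ℝ) : Prop :=
  HasSum (account d X t) (∑' n, X n 0 ^ 2)

namespace EE

variable {k d : ℕ → ℝ} {X : ℕ → ℝ → ℝ}

theorem cont (hX : IsSol k d X) (n : ℕ) {t : ℝ} (ht : 0 ≤ t) : ContinuousOn (X n) (Icc 0 t) := by
  intro s hs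
  exact ((hX n s hs.1).continuousWithinAt).mono (fun u hu => hu.1)

theorem flux_mono (hk : ∀ n, 0 ≤ k n) (hX : IsSol k d X) (hX0 : ∀ n t, 0 ≤ t → 0 ≤ X n t)
    {s t : ℝ} (hs : 0 ≤ s) (hst : s ≤ t) (n : ℕ) : flux k X s n ≤ flux k X t n := by
  unfold flux
  have hc : ContinuousOn (fun s => k n * X n s ^ 2 * X (n + 1) s) (Icc 0 t) :=
    (continuousOn_const.mul ((cont hX n (hs.trans hst)).pow 2)).mul (cont hX (n + 1) (hs.trans hst))
  apply intervalIntegral.integral_mono_interval le_rfl hs hst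
  · refine (MeasureTheory.ae_restrict_iff' measurableSet_Ioc).2 (Eventually.of_forall ?_)
    intro u hu
    have h1 := hX0 (n + 1) u hu.1.le
    have h2 := hk n
    positivity
  · apply ContinuousOn.intervalIntegrable
    rwa [uIcc_of_le (hs.trans hst)]

theorem flux_nonneg (hk : ∀ n, 0 ≤ k n) (hX : IsSol k d X) (hX0 : ∀ n t, 0 ≤ t → 0 ≤ X n t)
    {t : ℝ} (ht : 0 ≤ t) (n : ℕ) : 0 ≤ flux k X t n := by
  have := flux_mono hk hX hX0 le_rfl ht n
  unfold flux at *
  simpa using this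

theorem account_nonneg (hd : ∀ n, 0 ≤ d n) {t : ℝ} (ht : 0 ≤ t) (n : ℕ) :
    0 ≤ account d X t n := by
  unfold account
  have : 0 ≤ ∫ s in (0 : ℝ)..t, d n * X n s ^ 2 := by
    apply intervalIntegral.integral_nonneg ht
    intro u _
    have := hd n
    positivity
  positivity

theorem account_sum (hX : IsSol k d X) {t : ℝ} (ht : 0 ≤ t) (N : ℕ) :
    ∑ n ∈ Finset.range (N + 1), account d X t n =
      ∑ n ∈ Finset.range (N + 1), X n 0 ^ 2 - 2 * flux k X t N :=
  Tel.t_TEL k d X hX t ht N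

theorem account_summable (hk : ∀ n, 0 ≤ k n) (hd : ∀ n, 0 ≤ d n) (hX : IsSol k d X)
    (hX0 : ∀ n t, 0 ≤ t → 0 ≤ X n t) (hs : Summable (fun n => X n 0 ^ 2)) {t : ℝ} (ht : 0 ≤ t) :
    Summable (account d X t) := by
  apply summable_of_sum_range_le (c := ∑' n, X n 0 ^ 2) (account_nonneg hd ht)
  intro N
  have h1 : ∑ n ∈ Finset.range N, account d X t n ≤ ∑ n ∈ Finset.range (N + 1), account d X t n :=
    Finset.sum_le_sum_of_subset_of_nonneg (Finset.range_mono (Nat.le_succ N))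
      (fun n _ _ => account_nonneg hd ht n)
  rw [account_sum hX ht N] at h1
  have h2 := flux_nonneg hk hX hX0 ht N
  have h3 : ∑ n ∈ Finset.range (N + 1), X n 0 ^ 2 ≤ ∑' n, X n 0 ^ 2 :=
    hs.sum_le_tsum _ (fun n _ => sq_nonneg _)
  linarith

/-- the flux converges to half the missing energy -/
theorem flux_lim (hk : ∀ n, 0 ≤ k n) (hd : ∀ n, 0 ≤ d n) (hX : IsSol k d X)
    (hX0 : ∀ n t, 0 ≤ t → 0 ≤ X n t) (hs : Summable (fun n => X n 0 ^ 2)) {t : ℝ} (ht : 0 ≤ t) :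
    Tendsto (flux k X t) atTop (𝓝 ((∑' n, X n 0 ^ 2 - ∑' n, account d X t n) / 2)) := by
  have h1 := (account_summable hk hd hX hX0 hs ht).hasSum.tendsto_sum_nat.comp (tendsto_add_atTop_nat 1)
  have h2 := hs.hasSum.tendsto_sum_nat.comp (tendsto_add_atTop_nat 1)
  have h3 := (h2.sub h1).div_const 2
  refine h3.congr fun N => ?_
  simp only [Function.comp_apply]
  rw [account_sum hX ht N]
  ring

theorem energyEquality_iff (hk : ∀ n, 0 ≤ k n) (hd : ∀ n, 0 ≤ d n) (hX : IsSol k d X)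
    (hX0 : ∀ n t, 0 ≤ t → 0 ≤ X n t) (hs : Summable (fun n => X n 0 ^ 2)) {t : ℝ} (ht : 0 ≤ t) :
    EnergyEquality d X t ↔ Tendsto (flux k X t) atTop (𝓝 0) := by
  have h1 := account_summable hk hd hX hX0 hs ht
  have h2 := flux_lim hk hd hX hX0 hs ht
  constructor
  · intro h
    have h3 := h.tsum_eq
    rw [h3] at h2
    simpa using h2
  · intro h
    have h3 := tendsto_nhds_unique h h2
    have h4 : ∑' n, account d X t n = ∑' n, X n 0 ^ 2 := by linarith
    unfold EnergyEquality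
    rw [← h4]
    exact h1.hasSum

/-- if there is no energy equality then energy is lost -/
theorem lost (hk : ∀ n, 0 ≤ k n) (hd : ∀ n, 0 ≤ d n) (hX : IsSol k d X)
    (hX0 : ∀ n t, 0 ≤ t → 0 ≤ X n t) (hs : Summable (fun n => X n 0 ^ 2)) {T t : ℝ} (hT : 0 ≤ T)
    (hTt : T ≤ t) (h : ¬ Tendsto (flux k X T) atTop (𝓝 0)) :
    Summable (account d X t) ∧ ∑' n, account d X t n < ∑' n, X n 0 ^ 2 := by
  have ht : 0 ≤ t := hT.trans hTt
  refine ⟨account_summable hk hd hX hX0 hs ht, ?_⟩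
  by_contra hcon
  push Not at hcon
  have h2 := flux_lim hk hd hX hX0 hs ht
  have h3 : 0 ≤ (∑' n, X n 0 ^ 2 - ∑' n, account d X t n) / 2 :=
    ge_of_tendsto h2 (Eventually.of_forall fun n => flux_nonneg hk hX hX0 ht n)
  have h4 : (∑' n, X n 0 ^ 2 - ∑' n, account d X t n) / 2 = 0 := by linarith
  rw [h4] at h2
  apply h
  exact squeeze_zero (fun n => flux_nonneg hk hX hX0 hT n)
    (fun n => flux_mono hk hX hX0 hT hTt n) h2

theorem summable_single {x : ℕ → ℝ} (h : ∀ n, 0 < n → x n = 0) : Summable (fun n => x n ^ 2) := by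
  apply summable_of_ne_finset_zero (s := {0})
  intro n hn
  have : 0 < n := Nat.pos_of_ne_zero (by simpa using hn)
  rw [h n this]; norm_num

theorem tsum_single {x : ℕ → ℝ} (h : ∀ n, 0 < n → x n = 0) : ∑' n, x n ^ 2 = x 0 ^ 2 := by
  apply tsum_eq_single
  intro n hn
  rw [h n (Nat.pos_of_ne_zero hn)]; norm_num

/-- energy equality for `β ≤ 3` -/
theorem holds {lam β ν : ℝ} (hlam : 2 ≤ lam) (hν : 0 < ν) (hβ : β ≤ 3) {X : ℕ → ℝ → ℝ}
    (hX : IsSol (coup lam β) (damp lam ν) X) (h0 : ∀ n, 0 ≤ X n 0)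
    (hs : Summable (fun n => X n 0 ^ 2)) {t : ℝ} (ht : 0 ≤ t) :
    EnergyEquality (damp lam ν) X t := by
  have hlam0 : 0 < lam := by linarith
  have hlam1 : 1 < lam := by linarith
  have hk : ∀ n, 0 ≤ coup lam β n := fun n => by unfold coup; positivity
  have hd : ∀ n, 0 ≤ damp lam ν n := fun n => by unfold damp; positivity
  have hX0 := Pos.t_POS _ _ X hk hX h0
  rw [energyEquality_iff hk hd hX hX0 hs ht]
  exact Noanom.t_NOANOM Tel.t_TEL lam β ν hlam1 hν X hX hX0 hs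
    (fun τ hτ => Main.smoothing KA.t_KA KB.t_KB hlam hν hβ hX hX0 hs hτ) t ht

/-- loss of energy for `β > 3` -/
theorem fails {lam β ν : ℝ} (hlam : 1 < lam) (hν : 0 < ν) (hβ : 3 < β) {T : ℝ} (hT : 0 < T) :
    ∃ R₀ : ℝ, 0 < R₀ ∧ ∀ R, R₀ ≤ R → ∀ X : ℕ → ℝ → ℝ,
      IsSol (coup lam β) (damp lam ν) X → X 0 0 = R → (∀ n, 0 < n → X n 0 = 0) → ∀ t, T ≤ t →
        Summable (account (damp lam ν) X t) ∧ ∑' n, account (damp lam ν) X t n < R ^ 2 := by
  have hlam0 : 0 < lam := by linarith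
  have hk : ∀ n, 0 ≤ coup lam β n := fun n => by unfold coup; positivity
  have hd : ∀ n, 0 ≤ damp lam ν n := fun n => by unfold damp; positivity
  obtain ⟨R₀, hR₀, H⟩ := Anom.t_ANOM Fdec.t_FDEC lam β ν hlam hν hβ T hT
  refine ⟨R₀, hR₀, fun R hR X hX hR0 hz t ht => ?_⟩
  have h0 : ∀ n, 0 ≤ X n 0 := by
    intro n
    rcases Nat.eq_zero_or_pos n with rfl | hn
    · rw [hR0]; linarith
    · rw [hz n hn]
  have hX0 := Pos.t_POS _ _ X hk hX h0
  have hs := summable_single (x := fun n => X n 0) hz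
  have h1 := H R hR X hX hX0 hR0 hz
  have h2 := lost hk hd hX hX0 hs hT.le ht h1
  rw [tsum_single (x := fun n => X n 0) hz, hR0] at h2
  exact h2

theorem exists_sol {lam β ν : ℝ} (hlam : 1 < lam) (hν : 0 < ν) {x : ℕ → ℝ} (hx : ∀ n, 0 ≤ x n)
    (hs : Summable (fun n => x n ^ 2)) : ∃ X : ℕ → ℝ → ℝ,
      IsSol (coup lam β) (damp lam ν) X ∧ ∀ n, X n 0 = x n := by
  have hlam0 : 0 < lam := by linarith
  have hk : ∀ n, 0 ≤ coup lam β n := fun n => by unfold coup; positivity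
  have hd : ∀ n, 0 ≤ damp lam ν n := fun n => by unfold damp; positivity
  exact Exist.t_EXIST Gal.t_GAL _ _ x hk hd hx hs

end EE

end Pool.Agent.N841.DY
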