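import Pool.Agent.N841.DY.Stm2

/-!
# Energy inequality: bounded dissipation at some small time (helper803)
-/

set_option autoImplicit false

open Set Filter Topology MeasureTheory

noncomputable section

namespace Pool.Agent.N841.DY.Energy2

open Pool.Agent.N841.DY

lemma sq_deriv {k d : ℕ → ℝ} {X : ℕ → ℝ → ℝ} (hX : IsSol k d X) (n : ℕ) {t : ℝ} (ht : 0 ≤ t) :
    HasDerivWithinAt (fun s => X n s ^ 2) (2 * X n t * field k d (fun j => X j t) n)
      (Ici 0) t := by
  have h := (hX n t ht).fun_pow 2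
  refine h.congr_deriv ?_
  norm_num

lemma sum_deriv {k d : ℕ → ℝ} {X : ℕ → ℝ → ℝ} (hX : IsSol k d X) (N : ℕ) {t : ℝ} (ht : 0 ≤ t) :
    HasDerivWithinAt (fun s => ∑ n ∈ Finset.range (N + 1), X n s ^ 2)
      (-(2 * (k N * X N t ^ 2 * X (N + 1) t)) -
        2 * ∑ n ∈ Finset.range (N + 1), d n * X n t ^ 2) (Ici 0) t := by
  induction N with
  | zero =>
    have h := sq_deriv hX 0 ht
    simp only [zero_add, Finset.sum_range_one]
    refine h.congr_deriv ?_
    simp only [field, feed]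
    ring
  | succ N ih =>
    have h := ih.add (sq_deriv hX (N + 1) ht)
    have e : (fun s => ∑ n ∈ Finset.range (N + 1 + 1), X n s ^ 2) =
        fun s => (∑ n ∈ Finset.range (N + 1), X n s ^ 2) + X (N + 1) s ^ 2 := by
      ext1 s
      rw [Finset.sum_range_succ]
    rw [e, Finset.sum_range_succ (fun n => d n * X n t ^ 2)]
    refine h.congr_deriv ?_
    simp only [field, feed]
    ring

lemma contX {k d : ℕ → ℝ} {X : ℕ → ℝ → ℝ} (hX : IsSol k d X) (n : ℕ) :
    ContinuousOn (X n) (Ici 0) := fun t ht => (hX n t ht).continuousWithinAt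

lemma contY {k d : ℕ → ℝ} {X : ℕ → ℝ → ℝ} (hX : IsSol k d X) (n : ℕ) :
    Continuous (fun t : ℝ => X n (max t 0)) := by
  have h := (contX hX n).comp_continuous (f := fun t : ℝ => max t 0) (by fun_prop)
    (fun t => mem_Ici.2 (le_max_right t 0))
  exact h

theorem t_ENERGY2 : S_ENERGY2 := by
  intro k d X hk hd hX hpos hsum τ hτ
  obtain ⟨D, hD⟩ : ∃ D : ℕ → ℝ → ℝ,
      D = fun N t => ∑ n ∈ Finset.range (N + 1), d n * X n (max t 0) ^ 2 := ⟨_, rfl⟩
  have hDc : ∀ N, Continuous (D N) := by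
    intro N
    rw [hD]
    exact continuous_finsetSum _ fun n _ => continuous_const.mul ((contY hX n).pow 2)
  have hD0 : ∀ N t, 0 ≤ D N t := by
    intro N t
    rw [hD]
    exact Finset.sum_nonneg fun n _ => mul_nonneg (hd n) (sq_nonneg _)
  have hDm : ∀ t, Monotone (fun N => D N t) := by
    intro t
    refine monotone_nat_of_le_succ fun N => ?_
    rw [hD]
    simp only
    rw [Finset.sum_range_succ (fun n => d n * X n (max t 0) ^ 2) (N + 1)]
    have := mul_nonneg (hd (N + 1)) (sq_nonneg (X (N + 1) (max t 0)))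
    linarith
  -- the integral bound
  have hint : ∀ N, ∫ t in (0 : ℝ)..τ, D N t ≤ ∑' n, X n 0 ^ 2 := by
    intro N
    obtain ⟨G, hG⟩ : ∃ G : ℝ → ℝ, G = fun t => k N * X N (max t 0) ^ 2 * X (N + 1) (max t 0) :=
      ⟨_, rfl⟩
    have hGc : Continuous G := by
      rw [hG]
      exact (continuous_const.mul ((contY hX N).pow 2)).mul (contY hX (N + 1))
    have hG0 : ∀ t, 0 ≤ G t := by
      intro t
      rw [hG]
      exact mul_nonneg (mul_nonneg (hk N) (sq_nonneg _)) (hpos _ _ (le_max_right _ _))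
    have hDN := hDc N
    have c1 : Continuous fun t => -(2 * G t) := by fun_prop
    have c2 : Continuous fun t => 2 * D N t := by fun_prop
    have h1 : ∫ t in (0 : ℝ)..τ, (-(2 * G t) - 2 * D N t) =
        (∑ n ∈ Finset.range (N + 1), X n τ ^ 2) - ∑ n ∈ Finset.range (N + 1), X n 0 ^ 2 := by
      refine intervalIntegral.integral_eq_sub_of_hasDeriv_right_of_le
        (f := fun s => ∑ n ∈ Finset.range (N + 1), X n s ^ 2) hτ.le ?_ ?_ ?_
      · refine ContinuousOn.mono ?_ (Icc_subset_Ici_self)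
        exact continuousOn_finsetSum _ fun n _ => (contX hX n).pow 2
      · intro t ht
        have h2 := (sum_deriv hX N ht.1.le).hasDerivAt (Ici_mem_nhds ht.1)
        have h3 := h2.hasDerivWithinAt (s := Ioi t)
        refine h3.congr_deriv ?_
        rw [hG, hD]
        simp only [max_eq_left ht.1.le]
      · exact (c1.sub c2).intervalIntegrable _ _
    have h4 : ∫ t in (0 : ℝ)..τ, (-(2 * G t) - 2 * D N t) =
        -(2 * ∫ t in (0 : ℝ)..τ, G t) - 2 * ∫ t in (0 : ℝ)..τ, D N t := by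
      rw [intervalIntegral.integral_sub (c1.intervalIntegrable _ _) (c2.intervalIntegrable _ _),
        intervalIntegral.integral_neg, intervalIntegral.integral_const_mul,
        intervalIntegral.integral_const_mul]
    have h5 : 0 ≤ ∫ t in (0 : ℝ)..τ, G t :=
      intervalIntegral.integral_nonneg hτ.le fun t _ => hG0 t
    have h6 : 0 ≤ ∑ n ∈ Finset.range (N + 1), X n τ ^ 2 :=
      Finset.sum_nonneg fun n _ => sq_nonneg _
    have h7 : ∑ n ∈ Finset.range (N + 1), X n 0 ^ 2 ≤ ∑' n, X n 0 ^ 2 :=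
      hsum.sum_le_tsum _ fun n _ => sq_nonneg _
    have h8 : 0 ≤ ∫ t in (0 : ℝ)..τ, D N t :=
      intervalIntegral.integral_nonneg hτ.le fun t _ => hD0 N t
    rw [h4] at h1
    linarith
  -- monotone convergence
  have hmeas : ∀ N, Measurable fun t => ENNReal.ofReal (D N t) := fun N =>
    (hDc N).measurable.ennreal_ofReal
  have hlin : ∀ N, ∫⁻ t in Ioc 0 τ, ENNReal.ofReal (D N t) ≤
      ENNReal.ofReal (∑' n, X n 0 ^ 2) := by
    intro N
    rw [← ofReal_integral_eq_lintegral_ofReal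
      ((hDc N).integrableOn_Ioc) (Eventually.of_forall fun t => hD0 N t),
      ← intervalIntegral.integral_of_le hτ.le]
    exact ENNReal.ofReal_le_ofReal (hint N)
  have hsup : ∫⁻ t in Ioc 0 τ, ⨆ N, ENNReal.ofReal (D N t) ≤
      ENNReal.ofReal (∑' n, X n 0 ^ 2) := by
    rw [lintegral_iSup hmeas]
    · exact iSup_le hlin
    · intro a b hab t
      exact ENNReal.ofReal_le_ofReal (hDm t hab)
  have hae := ae_lt_top (Measurable.iSup hmeas) (ne_top_of_le_ne_top ENNReal.ofReal_ne_top hsup)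
  have hne : (volume.restrict (Ioc (0 : ℝ) τ)) ≠ 0 := by
    rw [Ne, Measure.restrict_eq_zero, Real.volume_Ioc, sub_zero, ENNReal.ofReal_eq_zero, not_le]
    exact hτ
  have : (ae (volume.restrict (Ioc (0 : ℝ) τ))).NeBot := ae_neBot.2 hne
  obtain ⟨t₀, h1, h2⟩ := (hae.and (ae_restrict_mem measurableSet_Ioc)).exists
  refine ⟨t₀, h2.1.le, h2.2, (⨆ N, ENNReal.ofReal (D N t₀)).toReal, fun n => ?_⟩
  have h3 : ∑ j ∈ Finset.range n, d j * X j t₀ ^ 2 ≤ D n t₀ := by
    rw [hD]
    simp only [max_eq_left h2.1.le]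
    exact Finset.sum_le_sum_of_subset_of_nonneg
      (Finset.range_subset_range.2 (Nat.le_succ n)) (fun j _ _ => mul_nonneg (hd j) (sq_nonneg _))
  refine h3.trans ?_
  rw [← ENNReal.toReal_ofReal (hD0 n t₀)]
  exact ENNReal.toReal_mono h1.ne (le_iSup (fun N => ENNReal.ofReal (D N t₀)) n)

end Pool.Agent.N841.DY.Energy2
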