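import Pool.Agent.N841.DY.Stm

/-!
# Existence of solutions by compactness
-/

set_option autoImplicit false

open Set Filter Topology

noncomputable section

namespace Pool.Agent.N841.DY.Exist

open Pool.Agent.N841.DY

/-- a bound for the field -/
def LL (k d : ℕ → ℝ) (R : ℝ) (n : ℕ) : ℝ := feed k (fun _ => R) n + k n * (R * R) + d n * R

/-- part of the Lipschitz constant of the field -/
def fc (k : ℕ → ℝ) (R : ℝ) (L : ℕ → ℝ) : ℕ → ℝ
  | 0 => 0
  | n + 1 => k n * (2 * R * L n)

/-- the Lipschitz constant of the field -/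
def CC (k d : ℕ → ℝ) (R : ℝ) (L : ℕ → ℝ) (n : ℕ) : ℝ :=
  fc k R L n + k n * (R * L n + R * L (n + 1)) + d n * L n

lemma field_bound {k d a : ℕ → ℝ} {R : ℝ} (hk : ∀ n, 0 ≤ k n) (hd : ∀ n, 0 ≤ d n) (hR : 0 ≤ R)
    (ha : ∀ j, |a j| ≤ R) (n : ℕ) : |field k d a n| ≤ LL k d R n := by
  have h1 : |feed k a n| ≤ feed k (fun _ => R) n := by
    cases n with
    | zero => simp [feed]
    | succ n =>
      simp only [feed]
      rw [abs_mul, abs_of_nonneg (hk n), abs_pow]
      exact mul_le_mul_of_nonneg_left (pow_le_pow_left₀ (abs_nonneg _) (ha n) 2) (hk n)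
  have h2 : |k n * a n * a (n + 1)| ≤ k n * (R * R) := by
    rw [mul_assoc, abs_mul, abs_mul, abs_of_nonneg (hk n)]
    exact mul_le_mul_of_nonneg_left
      (mul_le_mul (ha n) (ha (n + 1)) (abs_nonneg _) hR) (hk n)
  have h3 : |d n * a n| ≤ d n * R := by
    rw [abs_mul, abs_of_nonneg (hd n)]
    exact mul_le_mul_of_nonneg_left (ha n) (hd n)
  unfold field LL
  have h4 := abs_sub (feed k a n - k n * a n * a (n + 1)) (d n * a n)
  have h5 := abs_sub (feed k a n) (k n * a n * a (n + 1))
  linarith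

lemma field_lip {k d a b L : ℕ → ℝ} {R δ : ℝ} (hk : ∀ n, 0 ≤ k n) (hd : ∀ n, 0 ≤ d n)
    (hR : 0 ≤ R) (ha : ∀ j, |a j| ≤ R) (hb : ∀ j, |b j| ≤ R)
    (hab : ∀ j, |a j - b j| ≤ L j * δ) (n : ℕ) :
    |field k d a n - field k d b n| ≤ CC k d R L n * δ := by
  have h1 : |feed k a n - feed k b n| ≤ fc k R L n * δ := by
    cases n with
    | zero => simp [feed, fc]
    | succ n =>
      simp only [feed, fc]
      have e : k n * a n ^ 2 - k n * b n ^ 2 = k n * ((a n + b n) * (a n - b n)) := by ring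
      rw [e, abs_mul, abs_mul, abs_of_nonneg (hk n), mul_assoc]
      refine mul_le_mul_of_nonneg_left ?_ (hk n)
      have h2 : |a n + b n| ≤ 2 * R := by
        have := abs_add_le (a n) (b n)
        linarith [ha n, hb n]
      rw [mul_assoc]
      exact (mul_le_mul h2 (hab n) (abs_nonneg _) (by linarith)).trans_eq (by ring)
  have h2 : |k n * a n * a (n + 1) - k n * b n * b (n + 1)| ≤
      k n * (R * L n + R * L (n + 1)) * δ := by
    have e : k n * a n * a (n + 1) - k n * b n * b (n + 1) =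
        k n * ((a n - b n) * a (n + 1) + b n * (a (n + 1) - b (n + 1))) := by ring
    rw [e, abs_mul, abs_of_nonneg (hk n), mul_assoc]
    refine mul_le_mul_of_nonneg_left ?_ (hk n)
    have h3 := abs_add_le ((a n - b n) * a (n + 1)) (b n * (a (n + 1) - b (n + 1)))
    rw [abs_mul, abs_mul] at h3
    have h4 : |a n - b n| * |a (n + 1)| ≤ L n * δ * R :=
      mul_le_mul (hab n) (ha (n + 1)) (abs_nonneg _) ((abs_nonneg _).trans (hab n))
    have h5 : |b n| * |a (n + 1) - b (n + 1)| ≤ R * (L (n + 1) * δ) :=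
      mul_le_mul (hb n) (hab (n + 1)) (abs_nonneg _) hR
    linarith
  have h3 : |d n * a n - d n * b n| ≤ d n * L n * δ := by
    rw [← mul_sub, abs_mul, abs_of_nonneg (hd n), mul_assoc]
    exact mul_le_mul_of_nonneg_left (hab n) (hd n)
  unfold field CC
  have e : feed k a n - k n * a n * a (n + 1) - d n * a n -
      (feed k b n - k n * b n * b (n + 1) - d n * b n) =
      (feed k a n - feed k b n) - (k n * a n * a (n + 1) - k n * b n * b (n + 1)) -
        (d n * a n - d n * b n) := by ring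
  rw [e]
  have h4 := abs_sub (feed k a n - feed k b n -
    (k n * a n * a (n + 1) - k n * b n * b (n + 1))) (d n * a n - d n * b n)
  have h5 := abs_sub (feed k a n - feed k b n) (k n * a n * a (n + 1) - k n * b n * b (n + 1))
  linarith

/-- the bounds for the Galerkin approximations -/
lemma gal_bounds {k d : ℕ → ℝ} {R : ℝ} (hk : ∀ n, 0 ≤ k n) (hd : ∀ n, 0 ≤ d n) (hR : 0 ≤ R)
    {N : ℕ} {Y : ℕ → ℝ → ℝ} (hY : ∀ n t, 0 ≤ t → |Y n t| ≤ R)
    (h0 : ∀ n, N < n → ∀ t, Y n t = 0)
    (hD : ∀ n, n ≤ N → ∀ t, 0 ≤ t →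
      HasDerivWithinAt (Y n) (field k d (fun j => Y j t) n) (Ici 0) t) :
    (∀ n s t, 0 ≤ s → s ≤ t → |Y n t - Y n s| ≤ LL k d R n * (t - s)) ∧
    ∀ n s t, n ≤ N → 0 ≤ s → s ≤ t → |Y n t - Y n s - (t - s) * field k d (fun j => Y j s) n| ≤
      CC k d R (LL k d R) n * (t - s) * (t - s) := by
  have hL : ∀ n s t, 0 ≤ s → s ≤ t → |Y n t - Y n s| ≤ LL k d R n * (t - s) := by
    intro n s t hs hst
    rcases le_or_gt n N with hn | hn
    · have h1 := Convex.norm_image_sub_le_of_norm_hasDerivWithin_le (f := Y n)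
        (f' := fun t => field k d (fun j => Y j t) n) (s := Ici (0 : ℝ)) (C := LL k d R n)
        (x := s) (y := t) (fun t ht => hD n hn t ht)
        (fun t ht => by
          rw [Real.norm_eq_abs]
          exact field_bound hk hd hR (fun j => hY j t ht) n)
        (convex_Ici 0) hs (hs.trans hst)
      rw [Real.norm_eq_abs, Real.norm_eq_abs, abs_of_nonneg (sub_nonneg.2 hst)] at h1
      exact h1
    · rw [h0 n hn, h0 n hn, sub_self, abs_zero]
      have h1 : 0 ≤ LL k d R n :=
        (abs_nonneg _).trans (field_bound hk hd hR (fun j => hY j 0 le_rfl) n)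
      exact mul_nonneg h1 (sub_nonneg.2 hst)
  refine ⟨hL, ?_⟩
  intro n s t hn hs hst
  have hC : 0 ≤ CC k d R (LL k d R) n := by
    have h1 := field_lip (δ := 1) hk hd hR (fun j => hY j 0 le_rfl) (fun j => hY j 0 le_rfl)
      (L := LL k d R) (fun j => by
        rw [sub_self, abs_zero, mul_one]
        exact (abs_nonneg _).trans (field_bound hk hd hR (fun j => hY j 0 le_rfl) j)) n
    rw [sub_self, abs_zero, mul_one] at h1
    exact h1
  have h1 := Convex.norm_image_sub_le_of_norm_hasDerivWithin_le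
    (f := fun r => Y n r - r * field k d (fun j => Y j s) n)
    (f' := fun r => field k d (fun j => Y j r) n - 1 * field k d (fun j => Y j s) n)
    (s := Icc s t) (C := CC k d R (LL k d R) n * (t - s))
    (x := s) (y := t)
    (fun r hr => by
      have h2 := (hD n hn r (hs.trans hr.1)).mono
        (show Icc s t ⊆ Ici 0 from fun r hr => hs.trans hr.1)
      exact h2.sub ((hasDerivWithinAt_id r (Icc s t)).mul_const _))
    (fun r hr => by
      rw [Real.norm_eq_abs, one_mul]
      refine (field_lip (δ := r - s) hk hd hR (fun j => hY j r (hs.trans hr.1))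
        (fun j => hY j s hs) (L := LL k d R) (fun j => hL j s r hs hr.1) n).trans ?_
      exact mul_le_mul_of_nonneg_left (by linarith [hr.2]) hC)
    (convex_Icc s t) ⟨le_rfl, hst⟩ ⟨hst, le_rfl⟩
  rw [Real.norm_eq_abs, Real.norm_eq_abs, abs_of_nonneg (sub_nonneg.2 hst)] at h1
  refine le_trans (le_of_eq ?_) h1
  congr 1
  ring

/-- passing to the limit -/
lemma deriv_of_bounds {k d : ℕ → ℝ} {R : ℝ} (hk : ∀ n, 0 ≤ k n) (hd : ∀ n, 0 ≤ d n) (hR : 0 ≤ R)
    {X : ℕ → ℝ → ℝ} (hX : ∀ n t, 0 ≤ t → |X n t| ≤ R)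
    (hL : ∀ n s t, 0 ≤ s → s ≤ t → |X n t - X n s| ≤ LL k d R n * (t - s))
    (hC : ∀ n s t, 0 ≤ s → s ≤ t → |X n t - X n s - (t - s) * field k d (fun j => X j s) n| ≤
      CC k d R (LL k d R) n * (t - s) * (t - s)) : IsSol k d X := by
  intro n t ht
  have hC0 : 0 ≤ CC k d R (LL k d R) n := by
    have h1 := hC n 0 1 le_rfl zero_le_one
    rw [sub_zero, mul_one, mul_one] at h1
    exact (abs_nonneg _).trans h1
  rw [hasDerivWithinAt_iff_isLittleO]
  have h1 : (fun x' : ℝ => ‖x' - t‖ ^ 2) =o[𝓝[Ici 0] t] fun x' => x' - t :=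
    (Asymptotics.isLittleO_pow_sub_sub t (one_lt_two)).mono nhdsWithin_le_nhds
  refine Asymptotics.IsBigO.trans_isLittleO (Asymptotics.IsBigO.of_bound
    (2 * CC k d R (LL k d R) n) ?_) h1
  filter_upwards [self_mem_nhdsWithin] with r hr
  have hr0 : 0 ≤ r := hr
  rw [Real.norm_eq_abs, smul_eq_mul, norm_pow, norm_norm, Real.norm_eq_abs]
  rcases le_total t r with h | h
  · have h2 := hC n t r ht h
    rw [abs_of_nonneg (sub_nonneg.2 h)]
    refine h2.trans ?_
    have h3 : 0 ≤ CC k d R (LL k d R) n * ((r - t) * (r - t)) :=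
      mul_nonneg hC0 (mul_self_nonneg _)
    nlinarith
  · have h2 := hC n r t hr0 h
    have h3 := field_lip (δ := t - r) hk hd hR (fun j => hX j t ht) (fun j => hX j r hr0)
      (L := LL k d R) (fun j => hL j r t hr0 h) n
    have e : X n r - X n t - (r - t) * field k d (fun j => X j t) n =
        -(X n t - X n r - (t - r) * field k d (fun j => X j r) n) +
        (t - r) * (field k d (fun j => X j t) n - field k d (fun j => X j r) n) := by ring
    rw [e, abs_sub_comm r t, abs_of_nonneg (sub_nonneg.2 h)]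
    refine (abs_add_le _ _).trans ?_
    rw [abs_neg, abs_mul, abs_of_nonneg (sub_nonneg.2 h)]
    have h4 := mul_le_mul_of_nonneg_left h3 (sub_nonneg.2 h)
    nlinarith

theorem t_EXIST (hG : S_GAL) : S_EXIST := by
  intro k d x hk hd hx hsum
  set R := Real.sqrt (∑' n, x n ^ 2) with hRdef
  have hR : 0 ≤ R := Real.sqrt_nonneg _
  choose Y hpos h0 hz hder hen using fun N => hG k d x N hk hd hx
  have hYR : ∀ N n t, 0 ≤ t → Y N n t ∈ Icc 0 R := by
    intro N n t ht
    refine ⟨hpos N n t ht, ?_⟩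
    apply Real.le_sqrt_of_sq_le
    exact (hen N n t ht).trans (hsum.sum_le_tsum _ (fun j _ => sq_nonneg _))
  have hYa : ∀ N n t, 0 ≤ t → |Y N n t| ≤ R := by
    intro N n t ht
    rw [abs_of_nonneg (hYR N n t ht).1]
    exact (hYR N n t ht).2
  -- the limit
  have hlim : ∀ n t, ∃ y ∈ Icc 0 R, Tendsto (fun N => Y N n (max t 0)) (hyperfilter ℕ) (𝓝 y) := by
    intro n t
    have h1 : ((hyperfilter ℕ).map (fun N => Y N n (max t 0)) : Filter ℝ) ≤ 𝓟 (Icc 0 R) := by
      rw [le_principal_iff]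
      exact Filter.mem_map.2 (Filter.univ_mem' fun N => hYR N n _ (le_max_right _ _))
    obtain ⟨y, hy, hy2⟩ := (isCompact_Icc (a := (0 : ℝ)) (b := R)).ultrafilter_le_nhds
      ((hyperfilter ℕ).map (fun N => Y N n (max t 0))) h1
    exact ⟨y, hy, hy2⟩
  choose X hXR hXl using hlim
  have hX : ∀ n t, 0 ≤ t → Tendsto (fun N => Y N n t) (hyperfilter ℕ) (𝓝 (X n t)) := by
    intro n t ht
    have := hXl n t
    rwa [max_eq_left ht] at this
  have hev : ∀ n : ℕ, ∀ᶠ N in (hyperfilter ℕ : Filter ℕ), n ≤ N := by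
    intro n
    have h1 : (hyperfilter ℕ : Filter ℕ) ≤ atTop := by
      rw [← Nat.cofinite_eq_atTop]
      exact hyperfilter_le_cofinite
    exact h1 (eventually_ge_atTop n)
  have hXa : ∀ n t, 0 ≤ t → |X n t| ≤ R := by
    intro n t _
    rw [abs_of_nonneg (hXR n t).1]
    exact (hXR n t).2
  have hfield : ∀ n t, 0 ≤ t → Tendsto (fun N => field k d (fun j => Y N j t) n) (hyperfilter ℕ)
      (𝓝 (field k d (fun j => X j t) n)) := by
    intro n t ht
    have h1 : Tendsto (fun N => feed k (fun j => Y N j t) n) (hyperfilter ℕ)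
        (𝓝 (feed k (fun j => X j t) n)) := by
      cases n with
      | zero => exact tendsto_const_nhds
      | succ n => exact ((hX n t ht).pow 2).const_mul _
    exact (h1.sub (((hX n t ht).const_mul _).mul (hX (n + 1) t ht))).sub
      ((hX n t ht).const_mul _)
  refine ⟨X, ?_, ?_⟩
  · refine deriv_of_bounds hk hd hR hXa ?_ ?_
    · intro n s t hs hst
      have h1 : Tendsto (fun N => |Y N n t - Y N n s|) (hyperfilter ℕ) (𝓝 |X n t - X n s|) :=
        ((hX n t (hs.trans hst)).sub (hX n s hs)).abs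
      refine le_of_tendsto h1 (Filter.univ_mem' fun N => ?_)
      exact (gal_bounds hk hd hR (hYa N) (hz N) (hder N)).1 n s t hs hst
    · intro n s t hs hst
      have h1 : Tendsto (fun N => |Y N n t - Y N n s - (t - s) * field k d (fun j => Y N j s) n|)
          (hyperfilter ℕ) (𝓝 |X n t - X n s - (t - s) * field k d (fun j => X j s) n|) :=
        (((hX n t (hs.trans hst)).sub (hX n s hs)).sub ((hfield n s hs).const_mul _)).abs
      refine le_of_tendsto h1 ?_
      filter_upwards [hev n] with N hN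
      exact (gal_bounds hk hd hR (hYa N) (hz N) (hder N)).2 n s t hN hs hst
  · intro n
    have h1 : Tendsto (fun N => Y N n 0) (hyperfilter ℕ) (𝓝 (x n)) := by
      refine tendsto_const_nhds.congr' ?_
      filter_upwards [hev n] with N hN
      exact (h0 N n hN).symm
    exact tendsto_nhds_unique (hX n 0 le_rfl) h1

end Pool.Agent.N841.DY.Exist
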