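import Pool.Agent.N841.DY.Stm

/-!
# DY/EXIT: first exit lemma for a finite family
-/

set_option autoImplicit false

noncomputable section

namespace Pool.Agent.N841.DY.Exit

open Pool.Agent.N841.DY Set Filter Topology

theorem t_EXIT : S_EXIT := by
  intro ι _ φ φ' T hd h0 hz t ht0 htT i
  by_contra hcon
  push Not at hcon
  have hcont : ∀ i, ContinuousOn (φ i) (Icc 0 T) := by
    intro i s hs
    exact (hd i s hs.1 hs.2).continuousWithinAt.mono Icc_subset_Ici_self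
  obtain ⟨S, hS⟩ : ∃ S : Set ℝ, S = ⋃ i, (Icc 0 T ∩ φ i ⁻¹' Iic 0) := ⟨_, rfl⟩
  have hSc : IsClosed S := by
    rw [hS]
    exact isClosed_iUnion_of_finite fun i =>
      (hcont i).preimage_isClosed_of_isClosed isClosed_Icc isClosed_Iic
  have hmem : ∀ s, s ∈ S ↔ (0 ≤ s ∧ s ≤ T) ∧ ∃ i, φ i s ≤ 0 := by
    intro s
    rw [hS]
    simp only [mem_iUnion, mem_inter_iff, mem_Icc, mem_preimage, mem_Iic]
    constructor
    · rintro ⟨i, h1, h2⟩
      exact ⟨h1, i, h2⟩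
    · rintro ⟨h1, i, h2⟩
      exact ⟨i, h1, h2⟩
  have htS : t ∈ S := (hmem t).2 ⟨⟨ht0, htT⟩, i, hcon⟩
  have hbdd : BddBelow S := ⟨0, fun s hs => ((hmem s).1 hs).1.1⟩
  obtain ⟨u, hu⟩ : ∃ u, u = sInf S := ⟨_, rfl⟩
  have huS : u ∈ S := by rw [hu]; exact hSc.csInf_mem ⟨t, htS⟩ hbdd
  obtain ⟨⟨hu0, huT⟩, k, hk⟩ := (hmem u).1 huS
  have hbelow : ∀ s, 0 ≤ s → s < u → ∀ j, 0 < φ j s := by
    intro s hs0 hsu j
    by_contra hc
    push Not at hc
    have h1 : s ∈ S := (hmem s).2 ⟨⟨hs0, hsu.le.trans huT⟩, j, hc⟩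
    have h2 : u ≤ s := by rw [hu]; exact csInf_le hbdd h1
    linarith
  have hupos : 0 < u := by
    rcases hu0.lt_or_eq with h | h
    · exact h
    · rw [← h] at hk
      exact absurd (h0 k) (not_lt.2 hk)
  -- derivative is two sided
  have hdu : ∀ j, HasDerivAt (φ j) (φ' j u) u := fun j =>
    (hd j u hu0 huT).hasDerivAt (Ici_mem_nhds hupos)
  have hnn : ∀ j, 0 ≤ φ j u := by
    intro j
    have h1 : Tendsto (φ j) (𝓝[<] u) (𝓝 (φ j u)) :=
      (hdu j).continuousAt.tendsto.mono_left nhdsWithin_le_nhds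
    refine ge_of_tendsto h1 ?_
    filter_upwards [Ioo_mem_nhdsLT hupos] with s hs
    exact (hbelow s hs.1.le hs.2 j).le
  have hk0 : φ k u = 0 := le_antisymm hk (hnn k)
  have hpos : 0 < φ' k u := hz u hu0 huT hnn k hk0
  have hslope : Tendsto (slope (φ k) u) (𝓝[<] u) (𝓝 (φ' k u)) :=
    (hasDerivAt_iff_tendsto_slope.1 (hdu k)).mono_left
      (nhdsWithin_mono _ fun s hs => ne_of_lt hs)
  have hev : ∀ᶠ s in 𝓝[<] u, 0 < slope (φ k) u s := hslope.eventually (lt_mem_nhds hpos)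
  obtain ⟨s, hs1, hs2⟩ := (hev.and (Ioo_mem_nhdsLT hupos)).exists
  have h1 := hbelow s hs2.1.le hs2.2 k
  rw [slope_def_field, hk0, sub_zero] at hs1
  have h2 : s - u < 0 := by linarith [hs2.2]
  have h3 : φ k s / (s - u) < 0 := div_neg_of_pos_of_neg h1 h2
  linarith

end Pool.Agent.N841.DY.Exit
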