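import Pool.Agent.N841.DY.Stm
import Pool.Agent.R213.GlobalODE

/-!
# Galerkin approximations of the dyadic model
-/

set_option autoImplicit false

open Set Filter Topology
open scoped NNReal

noncomputable section

namespace Pool.Agent.N841.DY.Gal

open Pool.Agent.N841.DY

variable {N : ℕ}

/-- extension by zero -/
def ext (v : Fin (N + 1) → ℝ) (n : ℕ) : ℝ := if h : n < N + 1 then v ⟨n, h⟩ else 0

/-- the clamp -/
def cl (R y : ℝ) : ℝ := max 0 (min R y)

/-- extension by zero of the clamped vector -/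
def pv (R : ℝ) (v : Fin (N + 1) → ℝ) (n : ℕ) : ℝ :=
  if h : n < N + 1 then cl R (v ⟨n, h⟩) else 0

lemma cl_nonneg (R y : ℝ) : 0 ≤ cl R y := le_max_left _ _

lemma cl_le {R : ℝ} (hR : 0 ≤ R) (y : ℝ) : cl R y ≤ R := max_le hR (min_le_left _ _)

lemma cl_sub (R y z : ℝ) : |cl R y - cl R z| ≤ |y - z| := by
  unfold cl
  have h1 := abs_max_sub_max_le_max 0 (min R y) 0 (min R z)
  have h2 := abs_min_sub_min_le_max R y R z
  simp only [sub_self, abs_zero] at h1 h2
  have h3 := max_eq_right (abs_nonneg (min R y - min R z))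
  have h4 := max_eq_right (abs_nonneg (y - z))
  rw [h3] at h1
  rw [h4] at h2
  exact h1.trans h2

lemma cl_eq {R y : ℝ} (h0 : 0 ≤ y) (hR : y ≤ R) : cl R y = y := by
  rw [cl, min_eq_right hR, max_eq_right h0]

lemma cl_eq_zero {R y : ℝ} (h : y ≤ 0) : cl R y = 0 := by
  rw [cl, max_eq_left]; exact (min_le_right _ _).trans h

/-- bounded Lipschitz functions -/
def BL (g : (Fin (N + 1) → ℝ) → ℝ) : Prop :=
  ∃ K : ℝ, 0 ≤ K ∧ (∀ v, |g v| ≤ K) ∧ ∀ v w, |g v - g w| ≤ K * dist v w

lemma BL.const (c : ℝ) : BL (fun _ : Fin (N + 1) → ℝ => c) :=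
  ⟨|c|, abs_nonneg _, fun _ => le_rfl, fun v w => by
    rw [sub_self, abs_zero]; positivity⟩

lemma BL.mul {g h : (Fin (N + 1) → ℝ) → ℝ} (hg : BL g) (hh : BL h) :
    BL (fun v => g v * h v) := by
  obtain ⟨K, hK, h1, h2⟩ := hg
  obtain ⟨L, hL, h3, h4⟩ := hh
  refine ⟨2 * K * L, by positivity, fun v => ?_, fun v w => ?_⟩
  · rw [abs_mul]
    have a1 : |g v| * |h v| ≤ K * L := mul_le_mul (h1 v) (h3 v) (abs_nonneg _) hK
    have a2 : 0 ≤ K * L := by positivity
    linarith
  · have e : g v * h v - g w * h w = g v * (h v - h w) + (g v - g w) * h w := by ring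
    rw [e]
    refine (abs_add_le _ _).trans ?_
    rw [abs_mul, abs_mul]
    have a1 : |g v| * |h v - h w| ≤ K * (L * dist v w) :=
      mul_le_mul (h1 v) (h4 v w) (abs_nonneg _) hK
    have a2 : |g v - g w| * |h w| ≤ (K * dist v w) * L :=
      mul_le_mul (h2 v w) (h3 w) (abs_nonneg _) (by positivity)
    linarith

lemma BL.sub {g h : (Fin (N + 1) → ℝ) → ℝ} (hg : BL g) (hh : BL h) :
    BL (fun v => g v - h v) := by
  obtain ⟨K, hK, h1, h2⟩ := hg
  obtain ⟨L, hL, h3, h4⟩ := hh
  refine ⟨K + L, by positivity, fun v => ?_, fun v w => ?_⟩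
  · exact (abs_sub _ _).trans (add_le_add (h1 v) (h3 v))
  · have e : g v - h v - (g w - h w) = (g v - g w) - (h v - h w) := by ring
    rw [e]
    refine (abs_sub _ _).trans ?_
    have := h2 v w
    have := h4 v w
    linarith

lemma BL.pv {R : ℝ} (hR : 0 ≤ R) (n : ℕ) :
    BL (fun v : Fin (N + 1) → ℝ => Gal.pv R v n) := by
  refine ⟨R + 1, by positivity, fun v => ?_, fun v w => ?_⟩
  · unfold Gal.pv
    split_ifs with h
    · rw [abs_of_nonneg (cl_nonneg _ _)]
      linarith [cl_le hR (v ⟨n, h⟩)]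
    · rw [abs_zero]; positivity
  · have h0 : (0 : ℝ) ≤ dist v w := dist_nonneg
    unfold Gal.pv
    split_ifs with h
    · have h1 := cl_sub R (v ⟨n, h⟩) (w ⟨n, h⟩)
      have h2 := dist_le_pi_dist v w ⟨n, h⟩
      rw [Real.dist_eq] at h2
      have h3 : 0 ≤ R * dist v w := by positivity
      linarith
    · rw [sub_self, abs_zero]; positivity

lemma BL_field (k d : ℕ → ℝ) {R : ℝ} (hR : 0 ≤ R) (n : ℕ) :
    BL (fun v : Fin (N + 1) → ℝ => field k d (pv R v) n) := by
  have h1 : BL (fun v : Fin (N + 1) → ℝ => feed k (pv R v) n) := by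
    cases n with
    | zero => exact BL.const 0
    | succ n =>
      have := (BL.const (N := N) (k n)).mul ((BL.pv (N := N) hR n).mul (BL.pv (N := N) hR n))
      simpa only [feed, pow_two] using this
  have h2 := ((BL.const (N := N) (k n)).mul (BL.pv (N := N) hR n)).mul
    (BL.pv (N := N) hR (n + 1))
  have h3 := (BL.const (N := N) (d n)).mul (BL.pv (N := N) hR n)
  exact (h1.sub h2).sub h3

/-- the truncated and clamped vector field -/
def G (k d : ℕ → ℝ) (R : ℝ) (v : Fin (N + 1) → ℝ) : Fin (N + 1) → ℝ :=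
  fun i => field k d (pv R v) i

lemma G_lip (k d : ℕ → ℝ) {R : ℝ} (hR : 0 ≤ R) : ∃ K : ℝ≥0, LipschitzWith K (G (N := N) k d R) ∧
    ∀ v, ‖G (N := N) k d R v‖ ≤ K := by
  choose K hK h1 h2 using fun i : Fin (N + 1) => BL_field (N := N) k d hR i
  have hS : 0 ≤ ∑ i, K i := Finset.sum_nonneg fun i _ => hK i
  have hle : ∀ i, K i ≤ ∑ i, K i := fun i =>
    Finset.single_le_sum (f := K) (fun i _ => hK i) (Finset.mem_univ i)
  refine ⟨⟨∑ i, K i, hS⟩, ?_, ?_⟩
  · apply LipschitzWith.of_dist_le_mul
    intro v w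
    change _ ≤ (∑ i, K i) * dist v w
    rw [dist_pi_le_iff (by positivity)]
    intro i
    rw [Real.dist_eq]
    exact (h2 i v w).trans (mul_le_mul_of_nonneg_right (hle i) dist_nonneg)
  · intro v
    change _ ≤ ∑ i, K i
    rw [pi_norm_le_iff_of_nonneg hS]
    intro i
    rw [Real.norm_eq_abs]
    exact (h1 i v).trans (hle i)

/-- a barrier lemma -/
lemma barrier {f f' : ℝ → ℝ} {B T : ℝ} (hf : ∀ t, 0 ≤ t → HasDerivWithinAt f (f' t) (Ici 0) t)
    (h0 : f 0 ≤ B) {δ : ℝ} (hδ : 0 < δ)
    (hb : ∀ t, 0 ≤ t → B < f t → f t < B + δ → f' t ≤ 0) (hT : 0 ≤ T) : f T ≤ B := by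
  have hcont : ContinuousOn f (Icc 0 T) := fun t ht =>
    ((hf t ht.1).continuousWithinAt).mono Icc_subset_Ici_self
  have key : ∀ ε : ℝ, 0 < ε → ε * (1 + T) < δ → f T ≤ B + ε * (1 + T) := by
    intro ε hε hεδ
    have := image_le_of_deriv_right_lt_deriv_boundary' (f := f) (f' := f') (a := 0) (b := T)
      (B := fun t => B + ε * (1 + t)) (B' := fun _ => ε) hcont
      (fun t ht => (hf t ht.1).mono (Ici_subset_Ici.2 ht.1)) (by simp; linarith)
      (by fun_prop) (fun t _ => by
        have h1 : HasDerivAt (fun t : ℝ => B + ε * (1 + t)) ε t := by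
          have h2 := (((hasDerivAt_id t).const_add 1).const_mul ε).const_add B
          simpa using h2
        exact h1.hasDerivWithinAt)
      (fun t ht htB => by
        have h1 : 0 < ε * (1 + t) := by have := ht.1; positivity
        have h2 : ε * (1 + t) ≤ ε * (1 + T) :=
          mul_le_mul_of_nonneg_left (by linarith [ht.2]) hε.le
        have h3 : f t = B + ε * (1 + t) := htB
        have := hb t ht.1 (by linarith) (by linarith)
        exact lt_of_le_of_lt this hε)
      (right_mem_Icc.2 hT)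
    exact this
  by_contra hcon
  push Not at hcon
  have hpos : 0 < 1 + T := by linarith
  obtain ⟨ε, hε, hε2⟩ : ∃ ε, 0 < ε ∧ ε < min δ (f T - B) :=
    exists_between (lt_min hδ (by linarith))
  have h1 : ε / (1 + T) * (1 + T) = ε := by field_simp
  have := key (ε / (1 + T)) (by positivity) (by rw [h1]; exact hε2.trans_le (min_le_left _ _))
  rw [h1] at this
  have := hε2.trans_le (min_le_right _ _)
  linarith

lemma tele (k a : ℕ → ℝ) (M : ℕ) :
    ∑ n ∈ Finset.range (M + 1), a n * (feed k a n - k n * a n * a (n + 1)) =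
      - (k M * a M ^ 2 * a (M + 1)) := by
  induction M with
  | zero => simp [feed]; ring
  | succ M ih => rw [Finset.sum_range_succ, ih]; simp only [feed]; ring

theorem t_GAL : S_GAL := by
  intro k d x N hk hd hx
  set E0 : ℝ := ∑ j ∈ Finset.range (N + 1), x j ^ 2 with hE0
  have hE0n : 0 ≤ E0 := Finset.sum_nonneg fun _ _ => sq_nonneg _
  set R : ℝ := √E0 + 1 with hRdef
  have hR : 0 < R := by positivity
  have hR2 : E0 + 1 ≤ R ^ 2 := by
    have h1 := Real.sq_sqrt hE0n
    have h2 : 0 ≤ √E0 := Real.sqrt_nonneg _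
    nlinarith
  obtain ⟨K, hK1, hK2⟩ := G_lip (N := N) k d hR.le
  obtain ⟨v, hv0, hv⟩ := Pool.Agent.R213.exists_solution_Ici hK1 hK2
    (fun i : Fin (N + 1) => x i)
  have hvi : ∀ i : Fin (N + 1), ∀ t, 0 ≤ t →
      HasDerivWithinAt (fun t => v t i) (field k d (pv R (v t)) i) (Ici 0) t := by
    intro i t ht
    exact (hasDerivWithinAt_pi.1 (hv t ht)) i
  have hpvn : ∀ (w : Fin (N + 1) → ℝ) n, 0 ≤ pv R w n := by
    intro w n; unfold pv; split_ifs
    · exact cl_nonneg _ _
    · exact le_rfl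
  have hfeed : ∀ (w : Fin (N + 1) → ℝ) n, 0 ≤ feed k (pv R w) n := by
    intro w n
    cases n with
    | zero => exact le_rfl
    | succ n => exact mul_nonneg (hk n) (sq_nonneg _)
  -- nonnegativity
  have hnn : ∀ i : Fin (N + 1), ∀ t, 0 ≤ t → 0 ≤ v t i := by
    intro i t ht
    have := barrier (f := fun t => - v t i) (f' := fun t => - field k d (pv R (v t)) i) (B := 0)
      (T := t) (fun s hs => (hvi i s hs).neg) (by rw [hv0]; simpa using hx i) zero_lt_one
      (fun s hs h1 _ => by
        have h2 : pv R (v s) i = 0 := by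
          unfold pv
          rw [dif_pos i.2]
          exact cl_eq_zero (by simpa using h1.le)
        have h3 := hfeed (v s) i
        simp only [field, h2]
        simpa using h3) ht
    linarith
  -- the energy
  have hEd : ∀ t, 0 ≤ t → HasDerivWithinAt (fun t => ∑ i, v t i ^ 2)
      (∑ i, 2 * v t i * field k d (pv R (v t)) i) (Ici 0) t := by
    intro t ht
    have := HasDerivWithinAt.fun_sum (u := Finset.univ) (A := fun (i : Fin (N + 1)) t => v t i ^ 2)
      (A' := fun i => 2 * v t i * field k d (pv R (v t)) i) (x := t) (s := Ici 0)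
      (fun i _ => by
        have h1 := (hvi i t ht).mul (hvi i t ht)
        have h2 : HasDerivWithinAt (fun t => v t i ^ 2)
            (field k d (pv R (v t)) i * v t i + v t i * field k d (pv R (v t)) i) (Ici 0) t :=
          h1.congr_of_mem (fun s _ => by simp [pow_two]) ht
        exact h2.congr_deriv (by ring))
    exact this
  have hpe : ∀ t, 0 ≤ t → ∑ i, v t i ^ 2 ≤ R ^ 2 → ∀ n, pv R (v t) n = ext (v t) n := by
    intro t ht hE n
    unfold pv ext
    split_ifs with h
    · apply cl_eq (hnn _ t ht)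
      have h1 : v t ⟨n, h⟩ ^ 2 ≤ ∑ i, v t i ^ 2 :=
        Finset.single_le_sum (f := fun i => v t i ^ 2) (fun i _ => sq_nonneg _)
          (Finset.mem_univ _)
      exact abs_le_of_sq_le_sq' (h1.trans hE) hR.le |>.2
    · rfl
  have hEb : ∀ t, 0 ≤ t → ∑ i, v t i ^ 2 ≤ E0 := by
    intro t ht
    refine barrier (f := fun t => ∑ i, v t i ^ 2)
      (f' := fun t => ∑ i, 2 * v t i * field k d (pv R (v t)) i) (B := E0) hEd ?_ zero_lt_one
      (fun s hs _ h2 => ?_) ht
    · rw [hv0, hE0, Finset.sum_range]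
    · have h3 := hpe s hs (by linarith)
      have h4 : pv R (v s) = ext (v s) := funext h3
      rw [h4]
      have h5 : ∑ i : Fin (N + 1), 2 * v s i * field k d (ext (v s)) i =
          ∑ n ∈ Finset.range (N + 1), 2 * ext (v s) n * field k d (ext (v s)) n := by
        rw [Finset.sum_range]
        refine Finset.sum_congr rfl fun i _ => ?_
        have : ext (v s) i = v s i := by unfold ext; rw [dif_pos i.2]
        rw [this]
      have h6 : ∑ n ∈ Finset.range (N + 1), 2 * ext (v s) n * field k d (ext (v s)) n =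
          2 * ∑ n ∈ Finset.range (N + 1), ext (v s) n *
            (feed k (ext (v s)) n - k n * ext (v s) n * ext (v s) (n + 1)) -
          2 * ∑ n ∈ Finset.range (N + 1), d n * ext (v s) n ^ 2 := by
        rw [Finset.mul_sum, Finset.mul_sum, ← Finset.sum_sub_distrib]
        refine Finset.sum_congr rfl fun n _ => ?_
        simp only [field]; ring
      have h7 : ext (v s) (N + 1) = 0 := by unfold ext; rw [dif_neg (by omega)]
      rw [h5, h6, tele, h7]
      have h8 : 0 ≤ ∑ n ∈ Finset.range (N + 1), d n * ext (v s) n ^ 2 :=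
        Finset.sum_nonneg fun n _ => mul_nonneg (hd n) (sq_nonneg _)
      simp only [mul_zero, neg_zero]
      linarith
  refine ⟨fun n t => ext (v t) n, ?_, ?_, ?_, ?_, ?_⟩
  · intro n t ht
    simp only [ext]
    split_ifs with h
    · exact hnn _ t ht
    · exact le_rfl
  · intro n hn
    simp only [ext]
    rw [dif_pos (by omega), hv0]
  · intro n hn t
    simp only [ext]
    rw [dif_neg (by omega)]
  · intro n hn t ht
    have h1 := hvi ⟨n, by omega⟩ t ht
    have h2 : pv R (v t) = ext (v t) := funext (hpe t ht (by linarith [hEb t ht]))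
    rw [h2] at h1
    have h3 : (fun t => ext (v t) n) = fun t => v t ⟨n, by omega⟩ := by
      funext s
      simp only [ext]
      rw [dif_pos (by omega)]
    change HasDerivWithinAt (fun t => ext (v t) n) _ _ _
    rw [h3]
    exact h1
  · intro n t ht
    simp only [ext]
    split_ifs with h
    · exact (Finset.single_le_sum (f := fun i => v t i ^ 2) (fun i _ => sq_nonneg _)
          (Finset.mem_univ _)).trans (hEb t ht)
    · simpa using hE0n

end Pool.Agent.N841.DY.Gal
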