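import Pool.Agent.N841.DY.Stm

/-!
Key inequality A (lower barrier) for the dyadic model.
-/

set_option autoImplicit false

noncomputable section

namespace Pool.Agent.N841.DY.KA

open Pool.Agent.N841.DY

/-- `11 w ^ 2 ≤ 1 + 10 gcurve w`. -/
lemma sq_le (w m : ℝ) (h : gcurve w ≤ m) : w ^ 2 ≤ (1 + 10 * m) / 11 := by
  unfold gcurve at h
  nlinarith [sq_nonneg (w - 1)]

/-- Core inequality, region `m ≤ 1`, multiplied by `x`. -/
lemma coreI (x m : ℝ) (hx : 1 / 6 ≤ x) (hxm : x ≤ m) (hm : m ≤ 1) :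
    (12 * x - 1) / 5 * ((1 + 10 * m) / 11 - x * ((6 * x - 1) / 5 * x)) * x
      + x / 20 * ((1 - x) + (m - x)) ≤
    4 * (m * x ^ 2 - 12 / 25 * ((6 * x - 1) / 5) * m * x
      - 13 / 25 * ((6 * x - 1) / 5 * x) ^ 2 * x - 1 / 18 * ((6 * x - 1) / 5) * m * (m - x)) := by
  have hx1 : x ≤ 1 := hxm.trans hm
  have h1 : 0 ≤ -7 / 220 + 503 / 1375 * x - 102 / 625 * x ^ 2 + 72 / 625 * x ^ 3 := by
    have h3 : 0 ≤ x ^ 3 := by positivity
    nlinarith [mul_nonneg (sub_nonneg.2 hx) (sub_nonneg.2 hx1)]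
  have h2 : 0 ≤ 2 / 45 + 163 / 750 * x - 3 / 25 * x ^ 2 - 102 / 625 * x ^ 3
      + 72 / 625 * x ^ 4 := by
    have h4 : 0 ≤ x ^ 4 := by positivity
    have h3 : x ^ 3 ≤ x ^ 2 := by nlinarith [sq_nonneg x]
    nlinarith [mul_nonneg (sub_nonneg.2 hx) (sub_nonneg.2 hx1)]
  have h3 : 0 ≤ (1 - m) * (x * (-7 / 220 + 503 / 1375 * x - 102 / 625 * x ^ 2
      + 72 / 625 * x ^ 3)) := mul_nonneg (by linarith) (mul_nonneg (by linarith) h1)
  have h4 : 0 ≤ (m - x) * (2 / 45 + 163 / 750 * x - 3 / 25 * x ^ 2 - 102 / 625 * x ^ 3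
      + 72 / 625 * x ^ 4) := mul_nonneg (by linarith) h2
  have h5 : 0 ≤ 2 * ((6 * x - 1) / 5) / 9 * ((m - x) * (1 - m)) :=
    mul_nonneg (by linarith) (mul_nonneg (by linarith) (by linarith))
  linarith [h3, h4, h5, show 4 * (m * x ^ 2 - 12 / 25 * ((6 * x - 1) / 5) * m * x
      - 13 / 25 * ((6 * x - 1) / 5 * x) ^ 2 * x - 1 / 18 * ((6 * x - 1) / 5) * m * (m - x))
      - ((12 * x - 1) / 5 * ((1 + 10 * m) / 11 - x * ((6 * x - 1) / 5 * x)) * x
      + x / 20 * ((1 - x) + (m - x))) =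
      (1 - m) * (x * (-7 / 220 + 503 / 1375 * x - 102 / 625 * x ^ 2
      + 72 / 625 * x ^ 3)) + (m - x) * (2 / 45 + 163 / 750 * x - 3 / 25 * x ^ 2
      - 102 / 625 * x ^ 3 + 72 / 625 * x ^ 4)
      + 2 * ((6 * x - 1) / 5) / 9 * ((m - x) * (1 - m)) by ring]

/-- Core inequality, region `1 ≤ m ≤ 9 x`, multiplied by `x`. -/
lemma coreII (x m : ℝ) (hx : 1 / 6 ≤ x) (hx1 : x ≤ 1) (hm : 1 ≤ m) (hm9 : m ≤ 9 * x) :
    (12 * x - 1) / 5 * (1 - x * ((6 * x - 1) / 5 * x)) * x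
      + 1 / 20 * (m - x) ≤
    4 * (m * x ^ 2 - 12 / 25 * ((6 * x - 1) / 5) * m * x
      - 13 / 25 * ((6 * x - 1) / 5 * x) ^ 2 * x - 1 / 18 * ((6 * x - 1) / 5) * m * (m - x)) := by
  have h1 : 0 ≤ -1 / 180 + 119 / 375 * x - 3 / 25 * x ^ 2 - 102 / 625 * x ^ 3
      + 72 / 625 * x ^ 4 := by
    have h4 : 0 ≤ x ^ 4 := by positivity
    have h3 : x ^ 3 ≤ x ^ 2 := by nlinarith [sq_nonneg x]
    nlinarith [mul_nonneg (sub_nonneg.2 hx) (sub_nonneg.2 hx1)]
  have h2 : 0 ≤ -1 / 5 + 532 / 125 * x - 2487 / 625 * x ^ 2 + 174 / 625 * x ^ 3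
      - 72 / 625 * x ^ 4 := by
    have h4 : x ^ 4 ≤ x ^ 3 := by
      have : 0 ≤ x ^ 3 := by positivity
      nlinarith
    have h3 : 0 ≤ x ^ 3 := by positivity
    nlinarith [mul_nonneg (sub_nonneg.2 hx) (sub_nonneg.2 hx1)]
  have h3 : 0 ≤ (9 * x - m) * ((1 - x) * (-1 / 180 + 119 / 375 * x - 3 / 25 * x ^ 2
      - 102 / 625 * x ^ 3 + 72 / 625 * x ^ 4)) :=
    mul_nonneg (by linarith) (mul_nonneg (by linarith) h1)
  have h4 : 0 ≤ (m - 1) * (x * (-1 / 5 + 532 / 125 * x - 2487 / 625 * x ^ 2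
      + 174 / 625 * x ^ 3 - 72 / 625 * x ^ 4)) :=
    mul_nonneg (by linarith) (mul_nonneg (by linarith) h2)
  have h5 : 0 ≤ 2 * ((6 * x - 1) / 5) / 9 * ((m - 1) * (9 * x - m) * (9 * x - 1)) :=
    mul_nonneg (by linarith) (mul_nonneg (mul_nonneg (by linarith) (by linarith)) (by linarith))
  have h6 : 0 ≤ (9 * x - 1) * (4 * (m * x ^ 2 - 12 / 25 * ((6 * x - 1) / 5) * m * x
      - 13 / 25 * ((6 * x - 1) / 5 * x) ^ 2 * x - 1 / 18 * ((6 * x - 1) / 5) * m * (m - x))
      - ((12 * x - 1) / 5 * (1 - x * ((6 * x - 1) / 5 * x)) * x + 1 / 20 * (m - x))) := by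
    have : (9 * x - 1) * (4 * (m * x ^ 2 - 12 / 25 * ((6 * x - 1) / 5) * m * x
      - 13 / 25 * ((6 * x - 1) / 5 * x) ^ 2 * x - 1 / 18 * ((6 * x - 1) / 5) * m * (m - x))
      - ((12 * x - 1) / 5 * (1 - x * ((6 * x - 1) / 5 * x)) * x + 1 / 20 * (m - x))) =
      (9 * x - m) * ((1 - x) * (-1 / 180 + 119 / 375 * x - 3 / 25 * x ^ 2
      - 102 / 625 * x ^ 3 + 72 / 625 * x ^ 4)) + (m - 1) * (x * (-1 / 5 + 532 / 125 * x
      - 2487 / 625 * x ^ 2 + 174 / 625 * x ^ 3 - 72 / 625 * x ^ 4))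
      + 2 * ((6 * x - 1) / 5) / 9 * ((m - 1) * (9 * x - m) * (9 * x - 1)) := by ring
    rw [this]
    linarith
  have h7 := nonneg_of_mul_nonneg_right h6 (by linarith)
  linarith

/-- Core inequality, region `m ≥ 9 x`. -/
lemma coreIII (x : ℝ) (hx : 1 / 6 ≤ x) (hx1 : x ≤ 1) :
    (12 * x - 1) * (5 + 5 * x + 6 * x ^ 2) / 5 ≤ 36 * x := by
  have h3 : x ^ 3 ≤ x ^ 2 := by nlinarith [sq_nonneg x]
  nlinarith [mul_nonneg (sub_nonneg.2 hx) (sub_nonneg.2 hx1)]

/-- The last step: from a bound for `4 K` to the claim. -/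
lemma fin (G V U K σ Λ : ℝ) (hG : 0 ≤ G) (hV : 0 ≤ V) (hUV : U ≤ V) (hσ : 0 < σ) (hΛ : 4 ≤ Λ)
    (h : σ * (G * V) ≤ 4 * K) : G * U ≤ Λ / σ * K := by
  have h1 : 0 ≤ σ * (G * V) := by positivity
  have hK : 0 ≤ K := by linarith
  rw [div_mul_eq_mul_div, le_div_iff₀ hσ]
  calc G * U * σ ≤ G * V * σ := by
        apply mul_le_mul_of_nonneg_right _ hσ.le
        exact mul_le_mul_of_nonneg_left hUV hG
    _ = σ * (G * V) := by ring
    _ ≤ 4 * K := h
    _ ≤ Λ * K := mul_le_mul_of_nonneg_right hΛ hK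

lemma caseA (w x y z D θ σ Λ : ℝ) (hw : 0 ≤ w) (hw1 : w ≤ 1) (hx0 : 0 ≤ x) (hx1 : x ≤ 1)
    (hy : 0 ≤ y) (hz1 : z ≤ 1) (hD : 0 < D) (hσ : 1 ≤ σ) (hσ' : σ ≤ 1 + D / 500)
    (hθ : 1 - 3 * D / 500 ≤ θ) (hΛ : 4 ≤ Λ) (hu : θ * y + D = gcurve x)
    (hz : z ≤ 1 - 13 / 25 * (1 - y) + (σ * D + θ - 1) / 18)
    (hg : gcurve w ≤ θ * x + D / σ) (hθ0 : 0 < θ) :
    (12 * x - 1) / 5 * (w ^ 2 - x * (θ * y + D)) ≤
      Λ / σ * (θ * (x ^ 2 - y * (θ * z + σ * D))) := by
  obtain ⟨a, ha⟩ : ∃ a, a = (6 * x - 1) / 5 := ⟨_, rfl⟩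
  obtain ⟨P, hP⟩ : ∃ P, P = θ * y := ⟨_, rfl⟩
  obtain ⟨δ, hδ⟩ : ∃ δ, δ = σ - 1 := ⟨_, rfl⟩
  obtain ⟨m, hm⟩ : ∃ m, m = θ * x + D := ⟨_, rfl⟩
  have hPD : P + D = a * x := by
    rw [hP, hu, ha]; unfold gcurve; ring
  have hP0 : 0 ≤ P := by rw [hP]; positivity
  have hδ0 : 0 ≤ δ := by linarith
  have hδ1 : δ ≤ D / 500 := by linarith
  have hax : 0 < a * x := by linarith
  have hxpos : 0 < x := lt_of_le_of_ne hx0 (by rintro rfl; simp at hax)
  have ha0 : 0 < a := (pos_iff_pos_of_mul_pos hax).2 hxpos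
  have hx6 : 1 / 6 ≤ x := by linarith
  have ha1 : a ≤ 1 := by linarith
  have hax1 : a * x ≤ x := mul_le_of_le_one_left hx0 ha1
  have hxx : x ^ 2 ≤ x := by
    have := mul_nonneg hx0 (sub_nonneg.2 hx1)
    linarith only [this]
  have hxa0 : 0 ≤ x * (a * x) := by positivity
  have hxa1 : x * (a * x) ≤ x := by
    calc x * (a * x) ≤ x * 1 := mul_le_mul_of_nonneg_left (by linarith) hx0
      _ = x := mul_one x
  have hD1 : D ≤ 1 := by linarith
  have hPx : P ≤ a * x := by linarith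
  have hP1 : P ≤ 1 := by linarith
  have hθ1 : 0.994 ≤ θ := by linarith
  have he : 0.994 * D ≤ θ + D - 1 := by linarith
  -- bounds for `m`
  have hmx : 0.994 * D ≤ m - x := by
    have h1 := mul_nonneg hx0 (by linarith : 0 ≤ θ - 1 + 3 * D / 500)
    have h2 := mul_nonneg hD.le (sub_nonneg.2 hx1)
    rw [hm]
    linarith only [h1, h2]
  have hσpos : 0 < σ := by linarith
  have hgm : gcurve w ≤ m := by
    have : D / σ ≤ D := div_le_self hD.le hσ
    linarith
  have hw2 : w ^ 2 ≤ (1 + 10 * m) / 11 := sq_le w m hgm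
  have hw3 : w ^ 2 ≤ 1 := pow_le_one₀ hw hw1
  have hδD : δ * D ≤ D / 500 := by
    have h1 : δ ≤ 1 / 500 := by linarith
    have h2 := mul_le_mul_of_nonneg_right h1 hD.le
    linarith only [h2]
  have hG0 : 0 ≤ (12 * x - 1) / 5 := by linarith
  have hG1 : (12 * x - 1) / 5 ≤ 11 / 5 := by linarith
  have hKe : θ * (x ^ 2 - y * (θ * z + σ * D)) = θ * x ^ 2 - P * (θ * z + σ * D) := by
    rw [hP]; ring
  rw [hKe, ← hP, hPD]
  -- the bound for the last factor
  have hZ1 : θ * z + σ * D ≤ θ * (12 / 25) + 13 / 25 * P + 1 / 18 * θ * (D + θ - 1) + D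
      + δ * D * (1 + θ / 18) := by
    have h1 : θ * z ≤ θ * (1 - 13 / 25 * (1 - y) + (σ * D + θ - 1) / 18) :=
      mul_le_mul_of_nonneg_left hz hθ0.le
    have h2 : θ * (1 - 13 / 25 * (1 - y) + (σ * D + θ - 1) / 18) + σ * D =
      θ * (12 / 25) + 13 / 25 * P + 1 / 18 * θ * (D + θ - 1) + D + δ * D * (1 + θ / 18) := by
      rw [hP, hδ]; ring
    linarith
  by_cases hm9 : m ≤ 9 * x
  · -- the lower bound by the core expression
    have hK1 : m * x ^ 2 - 12 / 25 * a * m * x - 13 / 25 * (a * x) ^ 2 * x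
        - 1 / 18 * a * m * (m - x) ≤
        x * (θ * x ^ 2 - P * (θ * (12 / 25) + 13 / 25 * P + 1 / 18 * θ * (D + θ - 1) + D)) := by
      have hB : 0 ≤ -x + 12 / 25 * (a + θ + D) + 1 / 25 * (a * x) := by
        have h1 := mul_nonneg (sub_nonneg.2 hx1) (by linarith : (0:ℝ) ≤ 8 - x)
        rw [ha]
        linarith only [h1, he, hD]
      have hC : P * (θ * (x * (θ + D - 1))) ≤ a * (m * (m - x)) := by
        have h1 : x * (θ + D - 1) ≤ m - x := by
          have := mul_nonneg hD.le (sub_nonneg.2 hx1)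
          rw [hm]
          linarith only [this]
        have h2 : θ * x ≤ m := by rw [hm]; linarith
        have h3 : 0 ≤ x * (θ + D - 1) := mul_nonneg hx0 (by linarith)
        calc P * (θ * (x * (θ + D - 1))) ≤ (a * x) * (θ * (x * (θ + D - 1))) :=
              mul_le_mul_of_nonneg_right hPx (mul_nonneg hθ0.le h3)
          _ = a * ((θ * x) * (x * (θ + D - 1))) := by ring
          _ ≤ a * (m * (m - x)) := by
              apply mul_le_mul_of_nonneg_left _ ha0.le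
              exact mul_le_mul h2 h1 h3 (by linarith)
      have hE : x * (θ * x ^ 2 - P * (θ * (12 / 25) + 13 / 25 * P + 1 / 18 * θ * (D + θ - 1) + D))
          - (m * x ^ 2 - 12 / 25 * a * m * x - 13 / 25 * (a * x) ^ 2 * x
        - 1 / 18 * a * m * (m - x)) =
          x * D * (-x + 12 / 25 * (a + θ + D) + 1 / 25 * (a * x))
          + 1 / 18 * (a * (m * (m - x)) - P * (θ * (x * (θ + D - 1)))) := by
        have hP' : P = a * x - D := by linarith
        rw [hP', hm]; ring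
      have h5 : 0 ≤ x * D * (-x + 12 / 25 * (a + θ + D) + 1 / 25 * (a * x)) := by positivity
      linarith
    have hK2 : x * (θ * x ^ 2 - P * (θ * (12 / 25) + 13 / 25 * P + 1 / 18 * θ * (D + θ - 1) + D))
        - x * (P * (δ * D * (1 + θ / 18))) ≤ x * (θ * x ^ 2 - P * (θ * z + σ * D)) := by
      have h1 := mul_le_mul_of_nonneg_left hZ1 hP0
      have h2 : x * (P * (θ * z + σ * D)) ≤ x * (P * (θ * (12 / 25) + 13 / 25 * P
        + 1 / 18 * θ * (D + θ - 1) + D + δ * D * (1 + θ / 18))) :=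
        mul_le_mul_of_nonneg_left h1 hx0
      linarith only [h2]
    have hPD2 : P * (δ * D * (1 + θ / 18)) ≤ (1 + P * θ / 18) * (D / 500) := by
      have h1 : δ * D ≤ D / 500 := hδD
      have h2 : P * (δ * D * (1 + θ / 18)) = (P + P * θ / 18) * (δ * D) := by ring
      rw [h2]
      have h3 : 0 ≤ P * θ / 18 := by positivity
      have h4 : 0 ≤ δ * D := by positivity
      calc (P + P * θ / 18) * (δ * D) ≤ (1 + P * θ / 18) * (δ * D) := by
            apply mul_le_mul_of_nonneg_right _ h4; linarith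
        _ ≤ (1 + P * θ / 18) * (D / 500) := by
            apply mul_le_mul_of_nonneg_left h1; linarith
    rcases le_total m 1 with hm1 | hm1
    · -- region I
      have hc := coreI x m hx6 (by linarith) hm1
      rw [← ha] at hc
      have hPθ : P * θ ≤ 1 := by
        have h1 : θ * x ≤ 1 := by linarith
        calc P * θ ≤ a * x * θ := mul_le_mul_of_nonneg_right hPx hθ0.le
          _ = a * (θ * x) := by ring
          _ ≤ 1 := mul_le_one₀ ha1 (by positivity) h1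
      have hV0 : 0 ≤ (1 + 10 * m) / 11 - x * (a * x) := by
        have : x ≤ m := by linarith
        linarith only [this, hxa1, hx1]
      have hV1 : (1 + 10 * m) / 11 - x * (a * x) ≤ 1 := by linarith only [hm1, hxa0]
      apply fin _ ((1 + 10 * m) / 11 - x * (a * x)) _ _ σ Λ hG0 hV0 (by linarith) hσpos hΛ
      have hGV : (12 * x - 1) / 5 * ((1 + 10 * m) / 11 - x * (a * x)) ≤ 11 / 5 := by
        have := mul_le_mul hG1 hV1 hV0 (by norm_num)
        linarith only [this]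
      have hGV0 : 0 ≤ (12 * x - 1) / 5 * ((1 + 10 * m) / 11 - x * (a * x)) := by positivity
      have hδG : δ * ((12 * x - 1) / 5 * ((1 + 10 * m) / 11 - x * (a * x))) ≤
          D / 500 * (11 / 5) := by
        exact mul_le_mul hδ1 hGV hGV0 (by positivity)
      have hP3 : (1 + P * θ / 18) * (D / 500) ≤ 2 * (D / 500) := by
        apply mul_le_mul_of_nonneg_right _ (by positivity); linarith
      have hsum : 0 ≤ (m - x) / 20 + (1 - x) / 20 - 4 * (2 * (D / 500))
          - D / 500 * (11 / 5) := by linarith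
      have hx5 : 0 ≤ x * ((m - x) / 20 + (1 - x) / 20 - 4 * (P * (δ * D * (1 + θ / 18)))
          - δ * ((12 * x - 1) / 5 * ((1 + 10 * m) / 11 - x * (a * x)))) := by
        apply mul_nonneg hx0
        linarith
      have hfin : x * (σ * ((12 * x - 1) / 5 * ((1 + 10 * m) / 11 - x * (a * x)))) ≤
          x * (4 * (θ * x ^ 2 - P * (θ * z + σ * D))) := by
        have e1 : x * (σ * ((12 * x - 1) / 5 * ((1 + 10 * m) / 11 - x * (a * x)))) =
            x * ((12 * x - 1) / 5 * ((1 + 10 * m) / 11 - x * (a * x)))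
            + x * (δ * ((12 * x - 1) / 5 * ((1 + 10 * m) / 11 - x * (a * x)))) := by
          rw [hδ]; ring
        rw [e1]
        linarith only [hc, hK1, hK2, hx5]
      exact le_of_mul_le_mul_left hfin hxpos
    · -- region II
      have hc := coreII x m hx6 hx1 hm1 hm9
      rw [← ha] at hc
      have hPθ : P * θ ≤ 9 := by
        have h1 : θ * x ≤ 9 * x := by linarith
        have h2 : θ ≤ 9 := le_of_mul_le_mul_right h1 hxpos
        have h3 := mul_le_mul hP1 h2 hθ0.le (by norm_num)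
        linarith only [h3]
      have hV0 : 0 ≤ 1 - x * (a * x) := by linarith only [hxa1, hx1]
      have hV1 : 1 - x * (a * x) ≤ 1 := by linarith only [hxa0]
      apply fin _ (1 - x * (a * x)) _ _ σ Λ hG0 hV0 (by linarith) hσpos hΛ
      have hGV : (12 * x - 1) / 5 * (1 - x * (a * x)) ≤ 11 / 5 := by
        have := mul_le_mul hG1 hV1 hV0 (by norm_num)
        linarith only [this]
      have hGV0 : 0 ≤ (12 * x - 1) / 5 * (1 - x * (a * x)) := by positivity
      have hδG : δ * ((12 * x - 1) / 5 * (1 - x * (a * x))) ≤ D / 500 * (11 / 5) := by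
        exact mul_le_mul hδ1 hGV hGV0 (by positivity)
      have hP3 : (1 + P * θ / 18) * (D / 500) ≤ 2 * (D / 500) := by
        apply mul_le_mul_of_nonneg_right _ (by positivity); linarith
      have hx5 : 0 ≤ (m - x) / 20 - x * (4 * (P * (δ * D * (1 + θ / 18)))
          + δ * ((12 * x - 1) / 5 * (1 - x * (a * x)))) := by
        have h1 : 4 * (P * (δ * D * (1 + θ / 18))) + δ * ((12 * x - 1) / 5 * (1 - x * (a * x)))
          ≤ 4 * (2 * (D / 500)) + D / 500 * (11 / 5) := by linarith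
        have h2 : x * (4 * (P * (δ * D * (1 + θ / 18)))
          + δ * ((12 * x - 1) / 5 * (1 - x * (a * x)))) ≤ 1 * (4 * (2 * (D / 500))
          + D / 500 * (11 / 5)) := by
          apply mul_le_mul hx1 h1 _ (by norm_num)
          have : 0 ≤ P * (δ * D * (1 + θ / 18)) := by positivity
          have : 0 ≤ δ * ((12 * x - 1) / 5 * (1 - x * (a * x))) := by positivity
          linarith
        linarith
      have hfin : x * (σ * ((12 * x - 1) / 5 * (1 - x * (a * x)))) ≤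
          x * (4 * (θ * x ^ 2 - P * (θ * z + σ * D))) := by
        have e1 : x * (σ * ((12 * x - 1) / 5 * (1 - x * (a * x)))) =
            x * ((12 * x - 1) / 5 * (1 - x * (a * x)))
            + x * (δ * ((12 * x - 1) / 5 * (1 - x * (a * x)))) := by
          rw [hδ]; ring
        rw [e1]
        linarith only [hc, hK1, hK2, hx5]
      exact le_of_mul_le_mul_left hfin hxpos
  · -- region III
    push Not at hm9
    have hZ2 : θ * z + σ * D ≤ θ + D + δ * D := by
      have : θ * z ≤ θ * 1 := mul_le_mul_of_nonneg_left hz1 hθ0.le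
      rw [hδ]; linarith
    have hK2 : x * (θ * x ^ 2 - P * (θ + D)) - x * (P * (δ * D)) ≤
        x * (θ * x ^ 2 - P * (θ * z + σ * D)) := by
      have h1 := mul_le_mul_of_nonneg_left hZ2 hP0
      have h2 := mul_le_mul_of_nonneg_left h1 hx0
      linarith only [h2]
    have hE : x * (θ * x ^ 2 - P * (θ + D)) = m * (x ^ 2 - a * x) + D * (m - x ^ 2)
        + D * (1 - x) * P := by
      have hP' : P = a * x - D := by linarith
      rw [hP', hm]; ring
    have hE2 : 0 ≤ D * (1 - x) * P := mul_nonneg (mul_nonneg hD.le (by linarith)) hP0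
    have hxa : x ^ 2 - a * x = x * (1 - x) / 5 := by rw [ha]; ring
    have hxa2 : 1 - x * (a * x) = (1 - x) * (5 + 5 * x + 6 * x ^ 2) / 5 := by rw [ha]; ring
    have hc := coreIII x hx6 hx1
    have hm1 : 9 * x * (x ^ 2 - a * x) ≤ m * (x ^ 2 - a * x) := by
      apply mul_le_mul_of_nonneg_right hm9.le
      rw [hxa]
      exact div_nonneg (mul_nonneg hx0 (by linarith)) (by norm_num)
    have hm2 : x * ((12 * x - 1) / 5 * (1 - x * (a * x))) ≤ 4 * (9 * x * (x ^ 2 - a * x)) := by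
      rw [hxa, hxa2]
      have h1 : 0 ≤ x * (1 - x) / 5 := div_nonneg (mul_nonneg hx0 (by linarith)) (by norm_num)
      have h2 := mul_le_mul_of_nonneg_left hc h1
      linarith only [h2]
    have hm3 : 8 * x * D ≤ D * (m - x ^ 2) := by
      have h1 : 8 * x ≤ m - x ^ 2 := by linarith only [hm9, hxx]
      have h2 := mul_le_mul_of_nonneg_left h1 hD.le
      linarith only [h2]
    have hV0 : 0 ≤ 1 - x * (a * x) := by linarith only [hxa1, hx1]
    have hV1 : 1 - x * (a * x) ≤ 1 := by linarith only [hxa0]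
    apply fin _ (1 - x * (a * x)) _ _ σ Λ hG0 hV0 (by linarith) hσpos hΛ
    have hGV : (12 * x - 1) / 5 * (1 - x * (a * x)) ≤ 11 / 5 := by
      have := mul_le_mul hG1 hV1 hV0 (by norm_num)
      linarith only [this]
    have hGV0 : 0 ≤ (12 * x - 1) / 5 * (1 - x * (a * x)) := by positivity
    have hδG : δ * ((12 * x - 1) / 5 * (1 - x * (a * x))) ≤ D / 500 * (11 / 5) := by
      exact mul_le_mul hδ1 hGV hGV0 (by positivity)
    have hPδ : P * (δ * D) ≤ D / 500 := by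
      have h2 : 0 ≤ δ * D := by positivity
      have h3 := mul_le_mul_of_nonneg_right hP1 h2
      linarith only [h3, hδD]
    have hx5 : 0 ≤ x * (32 * D - 4 * (P * (δ * D))
        - δ * ((12 * x - 1) / 5 * (1 - x * (a * x)))) := by
      apply mul_nonneg hx0
      linarith
    have hfin : x * (σ * ((12 * x - 1) / 5 * (1 - x * (a * x)))) ≤
        x * (4 * (θ * x ^ 2 - P * (θ * z + σ * D))) := by
      have e1 : x * (σ * ((12 * x - 1) / 5 * (1 - x * (a * x)))) =
          x * ((12 * x - 1) / 5 * (1 - x * (a * x)))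
          + x * (δ * ((12 * x - 1) / 5 * (1 - x * (a * x)))) := by
        rw [hδ]; ring
      rw [e1]
      linarith only [hK2, hE, hE2, hm1, hm2, hm3, hx5]
    exact le_of_mul_le_mul_left hfin hxpos

/-- The key inequality A. -/
theorem t_KA : S_KA := by
  intro w x y z D θ σ Λ hw hw1 hx0 hx1 hy hz0 hz1 hD hσ hσ' hθ hΛ hu hz hg
  by_cases hθ0 : 0 < θ
  · exact caseA w x y z D θ σ Λ hw hw1 hx0 hx1 hy hz1 hD hσ hσ' hθ hΛ hu hz hg hθ0
  · push Not at hθ0
    have hD1 : 500 / 3 ≤ D := by linarith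
    have hg1 : gcurve x ≤ 1 := by unfold gcurve; nlinarith
    have hg0 : -1 ≤ gcurve x := by unfold gcurve; nlinarith
    have hσpos : 0 < σ := by linarith
    have hxg : -1 ≤ x * gcurve x := by nlinarith
    have hU : w ^ 2 - x * (θ * y + D) ≤ 2 := by
      rw [hu]; nlinarith
    have hU0 : -1 ≤ w ^ 2 - x * (θ * y + D) := by
      rw [hu]; nlinarith [sq_nonneg w]
    have hLHS : (12 * x - 1) / 5 * (w ^ 2 - x * (θ * y + D)) ≤ 5 := by nlinarith
    have hZ : D * (497 / 500) + 1 ≤ θ * z + σ * D := by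
      have h1 : θ ≤ θ * z := by nlinarith
      have h2 : D ≤ σ * D := by nlinarith
      linarith
    have hy2 : D - 1 ≤ -(θ * y) := by linarith
    have hK : (D - 1) * (D * (497 / 500) + 1) + θ ≤ θ * (x ^ 2 - y * (θ * z + σ * D)) := by
      have h1 : (D - 1) * (D * (497 / 500) + 1) ≤ -(θ * y) * (θ * z + σ * D) :=
        mul_le_mul hy2 hZ (by linarith) (by linarith)
      have hx2 : 0 ≤ 1 - x ^ 2 := by nlinarith
      have h2 : θ ≤ θ * x ^ 2 := by nlinarith [mul_nonneg (neg_nonneg.2 hθ0) hx2]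
      nlinarith
    have hK2 : 5 * σ ≤ 4 * (θ * (x ^ 2 - y * (θ * z + σ * D))) := by nlinarith
    have hK0 : 0 ≤ θ * (x ^ 2 - y * (θ * z + σ * D)) := by linarith
    have h5 : 5 ≤ Λ / σ * (θ * (x ^ 2 - y * (θ * z + σ * D))) := by
      rw [div_mul_eq_mul_div, le_div_iff₀ hσpos]
      exact hK2.trans (mul_le_mul_of_nonneg_right hΛ hK0)
    linarith

end Pool.Agent.N841.DY.KA
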