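import Pool.Agent.N841.DY.Stm

set_option autoImplicit false

/-!
Project DY (helper841), task KB: the key inequality for the upper barrier.
-/

namespace Pool.Agent.N841.DY.KB

open Pool.Agent.N841.DY

lemma Hpos (v s : ℝ) (hv0 : 0 ≤ v) (hv1 : v ≤ 1) (hs0 : 0 ≤ s) (hs : s ≤ 13 / 25 * v) :
    0 ≤ (1 - s) ^ 2 * (5 - 6 * s) / 5 - (1 - v) ^ 2 := by
  nlinarith [mul_nonneg hs0 (sub_nonneg.2 hs), mul_nonneg hv0 (sub_nonneg.2 hv1),
    mul_nonneg hs0 hv0, mul_nonneg (mul_nonneg hs0 hv0) (sub_nonneg.2 hv1),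
    mul_nonneg (mul_nonneg hs0 hs0) (sub_nonneg.2 hs), mul_nonneg hs0 (sub_nonneg.2 hv1),
    mul_nonneg (sub_nonneg.2 hs) (sub_nonneg.2 hv1)]

lemma P1 (v s : ℝ) (hv0 : 0 ≤ v) (hv1 : v ≤ 1) (hs0 : 0 ≤ s) (hs : s ≤ 13 / 25 * v) :
    0 ≤ 4 / (1 + 1 / 500) * ((1 - s) ^ 2 * (5 - 6 * s) / 5 - (1 - v) ^ 2) +
      13 / 25 * (1 - 38 / 13 * v + 25 / 13 * s) ^ 2 -
      13 / 25 * ((1 - v) * (1 - s + 101 / 100 * (18 * (13 / 25 * v - s)))) := by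
  nlinarith [mul_nonneg hs0 (sub_nonneg.2 hs), mul_nonneg hv0 (sub_nonneg.2 hv1),
    mul_nonneg hs0 hv0, mul_nonneg (mul_nonneg hs0 hs0) (sub_nonneg.2 hs),
    mul_nonneg (mul_nonneg hs0 hs0) (sub_nonneg.2 hv1), sq_nonneg (v - 3 / 2 * s),
    sq_nonneg (v - 2 * s)]

lemma P2 (v s : ℝ) (hv0 : 0 ≤ v) (hv1 : v ≤ 1) (hs0 : 0 ≤ s) (hs : s ≤ 13 / 25 * v)
    (hw : 1 - 38 / 13 * v + 25 / 13 * s ≤ 0) :
    0 ≤ 4 / (1 + 1 / 500) * ((1 - s) ^ 2 * (5 - 6 * s) / 5 - (1 - v) ^ 2) -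
      13 / 25 * ((1 - v) * (1 - s + 101 / 100 * (18 * (13 / 25 * v - s)))) := by
  nlinarith [mul_nonneg hs0 (sub_nonneg.2 hs), mul_nonneg hv0 (sub_nonneg.2 hv1),
    mul_nonneg hs0 hv0, mul_nonneg (mul_nonneg hs0 hs0) (sub_nonneg.2 hs),
    mul_nonneg (mul_nonneg hs0 hs0) (sub_nonneg.2 hv1), sq_nonneg (v - 3 / 2 * s),
    sq_nonneg (v - 2 * s), mul_nonneg (sub_nonneg.2 hs) (sub_nonneg.2 hw),
    mul_nonneg hs0 (sub_nonneg.2 hw)]

theorem t_KB : S_KB := by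
  intro w x y z D θ σ Λ hw0 hw1 hx0 hx1 hy0 hy1 hz0 hz1 hD hσ1 _ hσ2 hθ1 hθ2 hΛ hy hx hg
  obtain ⟨v, hv⟩ : ∃ v, v = 1 - x := ⟨_, rfl⟩
  obtain ⟨s, hs⟩ : ∃ s, s = 1 - y := ⟨_, rfl⟩
  obtain ⟨e, he⟩ : ∃ e, e = D + θ - 1 := ⟨_, rfl⟩
  have hv0 : 0 ≤ v := by linarith
  have hv1 : v ≤ 1 := by linarith
  have hs0 : 0 ≤ s := by linarith
  have hse : s = 13 / 25 * v - e / 18 := by
    rw [hs, hy, hv, he]; ring
  have heD : 497 / 500 * D ≤ e := by linarith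
  have he0 : 0 < e := by nlinarith
  have hsv : s ≤ 13 / 25 * v := by linarith
  have hee : e = 18 * (13 / 25 * v - s) := by linarith
  -- (1)
  have h1 : θ * y + D ≤ 1 - s + 101 / 100 * e := by
    have e1 : θ * y + D = 1 - s + e - (θ - 1) * s := by
      rw [hs, he]; ring
    have e2 : -((θ - 1) * s) ≤ 3 * D / 500 * s := by nlinarith
    have e3 : s ≤ 13 / 25 := by linarith
    have e4 : 3 * D / 500 * s ≤ 3 * D / 500 * (13 / 25) := by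
      apply mul_le_mul_of_nonneg_left e3; positivity
    nlinarith
  -- (2)
  have hDs : D / σ ≤ D := div_le_self hD.le hσ1
  have h2 : 1 - 38 / 13 * v + 25 / 13 * s ≤ w := by
    have e1 : e / 18 = 13 / 25 * v - s := by linarith
    have e2 : (D / σ + θ - 1) / 18 ≤ e / 18 := by
      rw [he]; linarith
    linarith
  -- (3)
  obtain ⟨H, hH⟩ : ∃ H, H = (1 - s) ^ 2 * (5 - 6 * s) / 5 - (1 - v) ^ 2 := ⟨_, rfl⟩
  have hH0 : 0 ≤ H := by rw [hH]; exact Hpos v s hv0 hv1 hs0 hsv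
  have h3 : H ≤ y * (θ * z + σ * D) - x ^ 2 := by
    have e1 : y * gcurve y ≤ y * (θ * z + σ * D) := mul_le_mul_of_nonneg_left hg hy0
    have e2 : H = y * gcurve y - x ^ 2 := by
      have ey : y = 1 - s := by linarith
      have ex : x = 1 - v := by linarith
      rw [hH, gcurve, ey, ex]; ring
    linarith
  have hσ0 : 0 < σ := by linarith
  have h4 : 4 / (1 + 1 / 500) ≤ Λ / σ := by
    rw [div_le_div_iff₀ (by norm_num) hσ0]
    nlinarith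
  have h5 : 4 / (1 + 1 / 500) * H ≤ Λ / σ * (y * (θ * z + σ * D) - x ^ 2) := by
    have hL : 0 ≤ Λ / σ := by positivity
    calc 4 / (1 + 1 / 500) * H ≤ Λ / σ * H := mul_le_mul_of_nonneg_right h4 hH0
      _ ≤ _ := mul_le_mul_of_nonneg_left h3 hL
  -- (4)
  have h6 : x * (θ * y + D) ≤ (1 - v) * (1 - s + 101 / 100 * (18 * (13 / 25 * v - s))) := by
    rw [← hee]
    have ex : x = 1 - v := by linarith
    rw [ex]
    exact mul_le_mul_of_nonneg_left h1 (by linarith)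
  have h7 : 0 ≤ 4 / (1 + 1 / 500) * H + 13 / 25 * w ^ 2 -
      13 / 25 * ((1 - v) * (1 - s + 101 / 100 * (18 * (13 / 25 * v - s)))) := by
    rcases le_or_gt 0 (1 - 38 / 13 * v + 25 / 13 * s) with hc | hc
    · have e1 := P1 v s hv0 hv1 hs0 hsv
      have e2 : (1 - 38 / 13 * v + 25 / 13 * s) ^ 2 ≤ w ^ 2 := pow_le_pow_left₀ hc h2 2
      rw [← hH] at e1
      linarith
    · have e1 := P2 v s hv0 hv1 hs0 hsv hc.le
      rw [← hH] at e1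
      nlinarith [sq_nonneg w]
  have h8 : Λ / σ * (x ^ 2 - y * (θ * z + σ * D)) = -(Λ / σ * (y * (θ * z + σ * D) - x ^ 2)) := by
    ring
  rw [h8]
  linarith

end Pool.Agent.N841.DY.KB
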