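import Pool.Agent.N841.DY.Stm

/-!
# Nonnegative data have nonnegative solutions
-/

set_option autoImplicit false

open Set Filter Topology

noncomputable section

namespace Pool.Agent.N841.DY.Pos

open Pool.Agent.N841.DY

theorem feed_nonneg {k : ℕ → ℝ} (hk : ∀ n, 0 ≤ k n) (a : ℕ → ℝ) (n : ℕ) : 0 ≤ feed k a n := by
  cases n with
  | zero => exact le_rfl
  | succ n => exact mul_nonneg (hk n) (sq_nonneg _)

theorem t_POS : S_POS := by
  intro k d X hk hX hX0 n t ht
  have hcont : ∀ m, ContinuousOn (X m) (Ici 0) := fun m s hs => (hX m s hs).continuousWithinAt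
  obtain ⟨c, hcdef⟩ : ∃ c : ℝ → ℝ, c = fun s => k n * X (n + 1) (max s 0) + d n := ⟨_, rfl⟩
  have hc : Continuous c := by
    have h1 : Continuous fun s : ℝ => X (n + 1) (max s 0) :=
      (hcont (n + 1)).comp_continuous (continuous_id.max continuous_const)
        (fun s => mem_Ici.2 (le_max_right _ _))
    rw [hcdef]
    exact (continuous_const.mul h1).add continuous_const
  obtain ⟨F, hFdef⟩ : ∃ F : ℝ → ℝ, F = fun s => ∫ u in (0 : ℝ)..s, c u := ⟨_, rfl⟩
  have hF : ∀ s, HasDerivAt F (c s) s := fun s => by
    rw [hFdef]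
    exact (hc.integral_hasStrictDerivAt 0 s).hasDerivAt
  have hh : ∀ s, 0 < s → HasDerivAt (fun s => X n s * Real.exp (F s))
      (feed k (fun j => X j s) n * Real.exp (F s)) s := by
    intro s hs
    have h1 := (hX n s hs.le).hasDerivAt (Ici_mem_nhds hs)
    have h2 := (hF s).exp
    refine (h1.mul h2).congr_deriv ?_
    have h3 : c s = k n * X (n + 1) s + d n := by rw [hcdef]; simp only [max_eq_left hs.le]
    rw [h3]
    unfold field
    ring
  have hFc : Continuous F := continuous_iff_continuousAt.2 fun s => (hF s).continuousAt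
  have hmono : MonotoneOn (fun s => X n s * Real.exp (F s)) (Ici 0) := by
    refine monotoneOn_of_deriv_nonneg (convex_Ici 0)
      ((hcont n).mul (Real.continuous_exp.comp hFc).continuousOn) ?_ ?_
    · rw [interior_Ici]
      exact fun s hs => (hh s hs).differentiableAt.differentiableWithinAt
    · rw [interior_Ici]
      intro s hs
      rw [(hh s hs).deriv]
      exact mul_nonneg (feed_nonneg hk _ _) (Real.exp_pos _).le
  have h1 : X n 0 * Real.exp (F 0) ≤ X n t * Real.exp (F t) := hmono self_mem_Ici ht ht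
  have h2 : 0 ≤ X n t * Real.exp (F t) :=
    (mul_nonneg (hX0 n) (Real.exp_pos _).le).trans h1
  exact nonneg_of_mul_nonneg_left h2 (Real.exp_pos _)

end Pool.Agent.N841.DY.Pos
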