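import Pool.Agent.N841.DY.Bar3
import Pool.Agent.N841.DY.Energy2
import Pool.Agent.N841.DY.Exist
import Pool.Agent.N841.DY.Exit
import Pool.Agent.N841.DY.Flux
import Pool.Agent.N841.DY.Gal
import Pool.Agent.N841.DY.KA
import Pool.Agent.N841.DY.KB
import Pool.Agent.N841.DY.Pos
import Pool.Agent.N841.DY.Blow

/-!
Assembly.
-/

set_option autoImplicit false

open Set Filter Topology

noncomputable section

namespace Pool.Agent.N841.DY.Main

open Pool.Agent.N841.DY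

theorem shift {k d : ℕ → ℝ} {X : ℕ → ℝ → ℝ} (hX : IsSol k d X) {t₀ : ℝ} (h₀ : 0 ≤ t₀) :
    IsSol k d (fun n t => X n (t + t₀)) := by
  intro n t ht
  have h1 := hX n (t + t₀) (by linarith)
  have h2 : HasDerivWithinAt (fun t : ℝ => t + t₀) 1 (Ici 0) t :=
    ((hasDerivAt_id t).add_const t₀).hasDerivWithinAt
  have h3 : MapsTo (fun t : ℝ => t + t₀) (Ici 0) (Ici 0) := by
    intro s hs
    have : 0 ≤ s := hs
    exact mem_Ici.2 (by linarith)
  have h4 := HasDerivWithinAt.scomp t h1 h2 h3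
  simpa [Function.comp_def] using h4

theorem smooth_shift {lam τ t₀ : ℝ} {X : ℕ → ℝ → ℝ}
    (h : SmoothFrom lam τ (fun n t => X n (t + t₀))) : SmoothFrom lam (τ + t₀) X := by
  intro s
  obtain ⟨C, hC⟩ := h s
  refine ⟨C, fun n t ht => ?_⟩
  have := hC n (t - t₀) (by linarith)
  simpa using this

theorem smooth_mono {lam τ τ' : ℝ} {X : ℕ → ℝ → ℝ} (hτ : τ ≤ τ') (h : SmoothFrom lam τ X) :
    SmoothFrom lam τ' X := by
  intro s
  obtain ⟨C, hC⟩ := h s
  exact ⟨C, fun n t ht => hC n t (hτ.trans ht)⟩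

theorem rapid_bound {lam : ℝ} (hlam : 1 < lam) {x : ℕ → ℝ} (h : Rapid lam x) {a : ℝ}
    (ha : 0 < a) : ∃ C, 0 < C ∧ ∀ n, x n ≤ C * a ^ n := by
  have hlam0 : 0 < lam := by linarith
  obtain ⟨s, hs⟩ := pow_unbounded_of_one_lt (a⁻¹) hlam
  obtain ⟨C, hC⟩ := h s
  refine ⟨max C 1, by positivity, fun n => ?_⟩
  have h1 := hC n
  have h2 : 0 < lam ^ (s * n) := by positivity
  have h3 : x n ≤ max C 1 / lam ^ (s * n) := by
    rw [le_div_iff₀ h2]
    have := le_abs_self (x n)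
    have h4 := le_max_left C 1
    calc x n * lam ^ (s * n) ≤ |x n| * lam ^ (s * n) := by gcongr
      _ = lam ^ (s * n) * |x n| := by ring
      _ ≤ max C 1 := h1.trans h4
  refine h3.trans ?_
  have h5 : (lam ^ (s * n))⁻¹ ≤ a ^ n := by
    rw [pow_mul, ← inv_pow]
    apply pow_le_pow_left₀ (by positivity)
    rw [inv_le_comm₀ (by positivity) ha]
    exact hs.le
  rw [div_eq_mul_inv]
  gcongr

section

variable (hKA : S_KA) (hKB : S_KB) (hU : S_UNIQ2)

include hKA hKB in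
/-- smoothing -/
theorem smoothing {lam β ν : ℝ} (hlam : 2 ≤ lam) (hν : 0 < ν) (hβ : β ≤ 3) {X : ℕ → ℝ → ℝ}
    (hX : IsSol (coup lam β) (damp lam ν) X) (hX0 : ∀ n t, 0 ≤ t → 0 ≤ X n t)
    (hsum : Summable (fun n => X n 0 ^ 2)) {τ : ℝ} (hτ : 0 < τ) : SmoothFrom lam τ X := by
  have hlam0 : 0 < lam := by linarith
  have hlam1 : 1 < lam := by linarith
  have hk : ∀ n, 0 ≤ coup lam β n := fun n => by unfold coup; positivity
  have hd : ∀ n, 0 ≤ damp lam ν n := fun n => by unfold damp; positivity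
  obtain ⟨t₀, h0, h1, C, hC⟩ := Energy2.t_ENERGY2 _ _ X hk hd hX hX0 hsum (τ / 3) (by positivity)
  have hC0 : 0 ≤ C := by simpa using hC 0
  set Y : ℕ → ℝ → ℝ := fun n t => X n (t + t₀) with hY
  have hYs : IsSol (coup lam β) (damp lam ν) Y := shift hX h0
  have hY0 : ∀ n t, 0 ≤ t → 0 ≤ Y n t := fun n t ht => hX0 n (t + t₀) (by linarith)
  rcases hβ.lt_or_eq with hβ' | hβ'
  · -- β < 3
    have hbd : ∀ n, Y n 0 ≤ (Real.sqrt (C / ν)) * (lam⁻¹) ^ n := by
      intro n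
      have h2 : damp lam ν n * X n t₀ ^ 2 ≤ C := by
        refine le_trans ?_ (hC (n + 1))
        exact Finset.single_le_sum (f := fun n => damp lam ν n * X n t₀ ^ 2)
          (fun j _ => mul_nonneg (hd j) (sq_nonneg _)) (Finset.mem_range.2 (Nat.lt_succ_self n))
      have h3 : (lam ^ n * X n t₀) ^ 2 ≤ C / ν := by
        rw [le_div_iff₀ hν]
        unfold damp at h2
        have : (lam ^ n * X n t₀) ^ 2 * ν = ν * lam ^ (2 * n) * X n t₀ ^ 2 := by ring
        rw [this]; exact h2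
      have h4 : lam ^ n * X n t₀ ≤ Real.sqrt (C / ν) := Real.le_sqrt_of_sq_le h3
      simp only [hY, zero_add]
      rw [inv_pow, ← div_eq_mul_inv, le_div_iff₀ (by positivity)]
      linarith
    have hlt : lam⁻¹ < lam ^ (2 - β) := by
      rw [← Real.rpow_neg_one]
      exact Real.rpow_lt_rpow_of_exponent_lt hlam1 (by linarith)
    obtain ⟨C', a, ha, ha', hbound⟩ := Bar.t_BAR Exit.t_EXIT hKA hKB lam β ν hlam hν hβ Y hYs hY0
      _ _ (by positivity) hlt hbd
    have h5 := (Boot.t_BOOT lam β ν hlam1 hν Y hYs hY0 C' a ha ha' hbound).1 (τ / 3) (by positivity)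
    exact smooth_mono (by linarith) (smooth_shift h5)
  · -- β = 3
    subst hβ'
    have hsummable : Summable (fun n => damp lam ν n * X n t₀ ^ 2) :=
      summable_of_sum_range_le (fun n => mul_nonneg (hd n) (sq_nonneg _)) hC
    have hlim : Tendsto (fun n => lam ^ n * Y n 0) atTop (𝓝 0) := by
      have h2 := hsummable.tendsto_atTop_zero
      have h3 : Tendsto (fun n => (lam ^ n * Y n 0) ^ 2) atTop (𝓝 0) := by
        have h4 := h2.const_mul ν⁻¹
        rw [mul_zero] at h4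
        refine h4.congr fun n => ?_
        simp only [hY, zero_add, damp]
        field_simp
        ring
      have h4 := h3.sqrt
      rw [Real.sqrt_zero] at h4
      refine h4.congr fun n => ?_
      rw [Real.sqrt_sq]
      have := hY0 n 0 le_rfl
      positivity
    obtain ⟨C', a, ha, ha', hbound⟩ := Bar3.t_BAR3 Exit.t_EXIT hKA hKB lam ν hlam hν Y hYs hY0
      hlim (τ / 3) (by positivity)
    set Z : ℕ → ℝ → ℝ := fun n t => Y n (t + τ / 3) with hZ
    have hZs : IsSol (coup lam 3) (damp lam ν) Z := shift hYs (by positivity)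
    have hZ0 : ∀ n t, 0 ≤ t → 0 ≤ Z n t := fun n t ht => hY0 n _ (by positivity)
    have hlt : a < lam ^ ((2 : ℝ) - 3) := by
      have : (2 : ℝ) - 3 = -1 := by norm_num
      rw [this, Real.rpow_neg_one]; exact ha'
    have h5 := (Boot.t_BOOT lam 3 ν hlam1 hν Z hZs hZ0 C' a ha hlt
      (fun n t ht => hbound n _ (by linarith))).1 (τ / 3) (by positivity)
    have h6 := smooth_shift h5
    exact smooth_mono (by linarith) (smooth_shift h6)

include hKA hKB in
/-- smoothness up to the initial time -/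
theorem smooth_zero {lam β ν : ℝ} (hlam : 2 ≤ lam) (hν : 0 < ν) (hβ : β ≤ 3) {X : ℕ → ℝ → ℝ}
    (hX : IsSol (coup lam β) (damp lam ν) X) (hX0 : ∀ n t, 0 ≤ t → 0 ≤ X n t)
    (hr : Rapid lam (fun n => X n 0)) : SmoothFrom lam 0 X := by
  have hlam0 : 0 < lam := by linarith
  have hlam1 : 1 < lam := by linarith
  have hc : 0 < lam ^ (2 - β) := by positivity
  obtain ⟨C, _, hC⟩ := rapid_bound hlam1 hr (a := lam ^ (2 - β) / 2) (by positivity)
  obtain ⟨C', a, ha, ha', hbound⟩ := Bar.t_BAR Exit.t_EXIT hKA hKB lam β ν hlam hν hβ X hX hX0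
    C (lam ^ (2 - β) / 2) (by positivity) (by linarith) hC
  exact (Boot.t_BOOT lam β ν hlam1 hν X hX hX0 C' a ha ha' hbound).2 hr

theorem rapid_summable {lam : ℝ} (hlam : 1 < lam) {x : ℕ → ℝ} (hx : ∀ n, 0 ≤ x n)
    (h : Rapid lam x) : Summable (fun n => x n ^ 2) := by
  obtain ⟨C, hC0, hC⟩ := rapid_bound hlam h (a := 1 / 2) (by norm_num)
  have h1 : Summable (fun n : ℕ => C ^ 2 * (1 / 4 : ℝ) ^ n) :=
    (summable_geometric_of_lt_one (by norm_num) (by norm_num)).mul_left _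
  refine h1.of_nonneg_of_le (fun n => sq_nonneg _) fun n => ?_
  have h2 := hC n
  have h3 := hx n
  calc x n ^ 2 ≤ (C * (1 / 2) ^ n) ^ 2 := by gcongr
    _ = C ^ 2 * (1 / 4) ^ n := by
      rw [mul_pow, ← pow_mul, mul_comm n 2, pow_mul]; norm_num

include hKA hKB hU in
theorem main (lam : ℝ) (hlam : 2 ≤ lam) (ν : ℝ) (hν : 0 < ν) (β : ℝ) :
    ((∀ x : ℕ → ℝ, (∀ n, 0 ≤ x n) → Rapid lam x → ∃ X : ℕ → ℝ → ℝ,
      IsSol (coup lam β) (damp lam ν) X ∧ (∀ n, X n 0 = x n) ∧ SmoothLoc lam X) ↔ β ≤ 3) ∧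
    (β ≤ 3 → ∀ x : ℕ → ℝ, (∀ n, 0 ≤ x n) → Summable (fun n => x n ^ 2) →
      ∃ X : ℕ → ℝ → ℝ, IsSol (coup lam β) (damp lam ν) X ∧ (∀ n, X n 0 = x n) ∧
        (∀ Y : ℕ → ℝ → ℝ, IsSol (coup lam β) (damp lam ν) Y → (∀ n, Y n 0 = x n) →
          ∀ n t, 0 ≤ t → Y n t = X n t) ∧
        (∀ n t, 0 ≤ t → 0 ≤ X n t) ∧
        (∀ τ, 0 < τ → SmoothFrom lam τ X) ∧
        (Rapid lam x → SmoothFrom lam 0 X)) := by
  have hlam0 : 0 < lam := by linarith
  have hlam1 : 1 < lam := by linarith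
  have hk : ∀ n, 0 ≤ coup lam β n := fun n => by unfold coup; positivity
  have hd : ∀ n, 0 ≤ damp lam ν n := fun n => by unfold damp; positivity
  have part2 : β ≤ 3 → ∀ x : ℕ → ℝ, (∀ n, 0 ≤ x n) → Summable (fun n => x n ^ 2) →
      ∃ X : ℕ → ℝ → ℝ, IsSol (coup lam β) (damp lam ν) X ∧ (∀ n, X n 0 = x n) ∧
        (∀ Y : ℕ → ℝ → ℝ, IsSol (coup lam β) (damp lam ν) Y → (∀ n, Y n 0 = x n) →
          ∀ n t, 0 ≤ t → Y n t = X n t) ∧
        (∀ n t, 0 ≤ t → 0 ≤ X n t) ∧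
        (∀ τ, 0 < τ → SmoothFrom lam τ X) ∧
        (Rapid lam x → SmoothFrom lam 0 X) := by
    intro hβ x hx hsum
    obtain ⟨X, hX, hX0⟩ := Exist.t_EXIST Gal.t_GAL _ _ x hk hd hx hsum
    have hpos := Pos.t_POS _ _ X hk hX (fun n => by rw [hX0]; exact hx n)
    have hsumX : Summable (fun n => X n 0 ^ 2) := by simpa [hX0] using hsum
    refine ⟨X, hX, hX0, ?_, hpos, ?_, ?_⟩
    · intro Y hY hY0 n t ht
      have hposY := Pos.t_POS _ _ Y hk hY (fun n => by rw [hY0]; exact hx n)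
      exact (hU lam β ν hlam1 hν X Y hX hY hpos hposY (fun n => by rw [hX0, hY0]) hsumX n t ht).symm
    · intro τ hτ
      exact smoothing hKA hKB hlam hν hβ hX hpos hsumX hτ
    · intro hr
      exact smooth_zero hKA hKB hlam hν hβ hX hpos (by simpa [hX0] using hr)
  refine ⟨⟨?_, ?_⟩, part2⟩
  · intro h
    by_contra hcon
    push Not at hcon
    obtain ⟨x, hx, hx0, hno⟩ := Blow.t_BLOW lam β ν hlam1 hν hcon
    apply hno
    apply h x hx
    intro s
    refine ⟨|x 0|, fun n => ?_⟩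
    by_cases hn : n = 0
    · subst hn; simp
    · rw [hx0 n (Nat.pos_of_ne_zero hn)]; simp
  · intro hβ x hx hr
    obtain ⟨X, hX, hX0, _, _, _, hs⟩ := part2 hβ x hx (rapid_summable hlam1 hx hr)
    refine ⟨X, hX, hX0, ?_⟩
    intro T s
    obtain ⟨C, hC⟩ := hs hr s
    exact ⟨C, fun n t ht _ => hC n t ht⟩

end

end Pool.Agent.N841.DY.Main
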