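import Pool.Agent.N841.DY.Def

/-!
Statements of the steps.
-/

set_option autoImplicit false

open Set Filter Topology

noncomputable section

namespace Pool.Agent.N841.DY

/-- first exit lemma for a finite family of functions -/
def S_EXIT : Prop := ∀ (ι : Type) [Finite ι] (φ φ' : ι → ℝ → ℝ) (T : ℝ),
  (∀ i, ∀ t, 0 ≤ t → t ≤ T → HasDerivWithinAt (φ i) (φ' i t) (Ici 0) t) →
  (∀ i, 0 < φ i 0) →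
  (∀ t, 0 ≤ t → t ≤ T → (∀ j, 0 ≤ φ j t) → ∀ i, φ i t = 0 → 0 < φ' i t) →
  ∀ t, 0 ≤ t → t ≤ T → ∀ i, 0 < φ i t

/-- nonnegative data have nonnegative solutions -/
def S_POS : Prop := ∀ (k d : ℕ → ℝ) (X : ℕ → ℝ → ℝ), (∀ n, 0 ≤ k n) → IsSol k d X →
  (∀ n, 0 ≤ X n 0) → ∀ n t, 0 ≤ t → 0 ≤ X n t

/-- Galerkin approximations -/
def S_GAL : Prop := ∀ (k d x : ℕ → ℝ) (N : ℕ), (∀ n, 0 ≤ k n) → (∀ n, 0 ≤ d n) →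
  (∀ n, 0 ≤ x n) → ∃ X : ℕ → ℝ → ℝ, (∀ n t, 0 ≤ t → 0 ≤ X n t) ∧ (∀ n, n ≤ N → X n 0 = x n) ∧
    (∀ n, N < n → ∀ t, X n t = 0) ∧
    (∀ n, n ≤ N → ∀ t, 0 ≤ t →
      HasDerivWithinAt (X n) (field k d (fun j => X j t) n) (Ici 0) t) ∧
    (∀ n t, 0 ≤ t → X n t ^ 2 ≤ ∑ j ∈ Finset.range (N + 1), x j ^ 2)

/-- existence of solutions for nonnegative data of finite energy -/
def S_EXIST : Prop := ∀ (k d x : ℕ → ℝ), (∀ n, 0 ≤ k n) → (∀ n, 0 ≤ d n) →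
  (∀ n, 0 ≤ x n) → Summable (fun n => x n ^ 2) →
  ∃ X : ℕ → ℝ → ℝ, IsSol k d X ∧ ∀ n, X n 0 = x n

/-- energy inequality, in the form of a bound for the dissipation at some time in `[0, τ]` -/
def S_ENERGY : Prop := ∀ (k d : ℕ → ℝ) (X : ℕ → ℝ → ℝ), (∀ n, 0 ≤ k n) → (∀ n, 0 ≤ d n) →
  IsSol k d X → (∀ n t, 0 ≤ t → 0 ≤ X n t) → Summable (fun n => X n 0 ^ 2) →
  ∀ τ, 0 < τ → ∃ t₀, 0 ≤ t₀ ∧ t₀ ≤ τ ∧ ∃ C, ∀ n, d n * X n t₀ ^ 2 ≤ C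

/-- a subcritical bound implies smoothness for positive times, and up to time `0` for
rapidly decreasing data -/
def S_BOOT : Prop := ∀ (lam β ν : ℝ), 1 < lam → 0 < ν → ∀ X : ℕ → ℝ → ℝ,
  IsSol (coup lam β) (damp lam ν) X → (∀ n t, 0 ≤ t → 0 ≤ X n t) →
  ∀ C a : ℝ, 0 < a → a < lam ^ (2 - β) → (∀ n t, 0 ≤ t → X n t ≤ C * a ^ n) →
  (∀ τ, 0 < τ → SmoothFrom lam τ X) ∧ (Rapid lam (fun n => X n 0) → SmoothFrom lam 0 X)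

/-- uniqueness -/
def S_UNIQ : Prop := ∀ (k d : ℕ → ℝ) (X Y : ℕ → ℝ → ℝ), (∀ n, 0 ≤ k n) → (∀ n, 0 ≤ d n) →
  IsSol k d X → IsSol k d Y → (∀ n t, 0 ≤ t → 0 ≤ X n t) → (∀ n t, 0 ≤ t → 0 ≤ Y n t) →
  ∀ C : ℝ, (∀ n t, 0 ≤ t → k n * X n t ≤ C) → (∀ n t, 0 ≤ t → k n * Y n t ≤ C) →
  ∀ e : ℕ → ℝ, Tendsto e atTop (𝓝 0) → (∀ n t, 0 ≤ t → X n t ≤ e n) →
  (∀ n t, 0 ≤ t → Y n t ≤ e n) → (∀ n, X n 0 = Y n 0) → ∀ n t, 0 ≤ t → X n t = Y n t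

/-- blow-up for `β > 3` (Cheskidov) -/
def S_BLOW : Prop := ∀ (lam β ν : ℝ), 1 < lam → 0 < ν → 3 < β →
  ∃ x : ℕ → ℝ, (∀ n, 0 ≤ x n) ∧ (∀ n, 0 < n → x n = 0) ∧
    ¬ ∃ X : ℕ → ℝ → ℝ, IsSol (coup lam β) (damp lam ν) X ∧ (∀ n, X n 0 = x n) ∧ SmoothLoc lam X

/-- the curve which bounds the region from below -/
def gcurve (x : ℝ) : ℝ := x * (6 * x - 1) / 5

/-- key inequality: lower barrier -/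
def S_KA : Prop := ∀ (w x y z D θ σ Λ : ℝ), 0 ≤ w → w ≤ 1 → 0 ≤ x → x ≤ 1 → 0 ≤ y → 0 ≤ z →
  z ≤ 1 → 0 < D → 1 ≤ σ → σ ≤ 1 + D / 500 → 1 - 3 * D / 500 ≤ θ → 4 ≤ Λ →
  θ * y + D = gcurve x → z ≤ 1 - 13 / 25 * (1 - y) + (σ * D + θ - 1) / 18 →
  gcurve w ≤ θ * x + D / σ →
  (12 * x - 1) / 5 * (w ^ 2 - x * (θ * y + D)) ≤
    Λ / σ * (θ * (x ^ 2 - y * (θ * z + σ * D)))

/-- key inequality: upper barrier -/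
def S_KB : Prop := ∀ (w x y z D θ σ Λ : ℝ), 0 ≤ w → w ≤ 1 → 0 ≤ x → x ≤ 1 → 0 ≤ y → y ≤ 1 →
  0 ≤ z → z ≤ 1 → 0 < D → 1 ≤ σ → σ ≤ 1 + D / 500 → σ ≤ 1 + 1 / 500 → 1 - 3 * D / 500 ≤ θ →
  1 - 3 / 500 ≤ θ → 4 ≤ Λ → y = 1 - 13 / 25 * (1 - x) + (D + θ - 1) / 18 →
  x ≤ 1 - 13 / 25 * (1 - w) + (D / σ + θ - 1) / 18 →
  gcurve y ≤ θ * z + σ * D →
  Λ / σ * (x ^ 2 - y * (θ * z + σ * D)) ≤ 13 / 25 * (w ^ 2 - x * (θ * y + D))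

/-- the barrier: a subcritical bound for all times -/
def S_BAR : Prop := ∀ (lam β ν : ℝ), 2 ≤ lam → 0 < ν → β ≤ 3 → ∀ X : ℕ → ℝ → ℝ,
  IsSol (coup lam β) (damp lam ν) X → (∀ n t, 0 ≤ t → 0 ≤ X n t) →
  ∀ C a₁ : ℝ, 0 < a₁ → a₁ < lam ^ (2 - β) → (∀ n, X n 0 ≤ C * a₁ ^ n) →
  ∃ C' a : ℝ, 0 < a ∧ a < lam ^ (2 - β) ∧ ∀ n t, 0 ≤ t → X n t ≤ C' * a ^ n

end Pool.Agent.N841.DY
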