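import Pool.Agent.N841.DY.Stm2

/-!
Statements for the energy equality.
-/

set_option autoImplicit false

open Set Filter Topology

noncomputable section

namespace Pool.Agent.N841.DY

/-- The energy which has passed through shell `n` up to time `t`. -/
def flux (k : ℕ → ℝ) (X : ℕ → ℝ → ℝ) (t : ℝ) (n : ℕ) : ℝ :=
  ∫ s in (0 : ℝ)..t, k n * X n s ^ 2 * X (n + 1) s

/-- energy balance of the shells `0, ..., N` -/
def S_TEL : Prop := ∀ (k d : ℕ → ℝ) (X : ℕ → ℝ → ℝ), IsSol k d X → ∀ t, 0 ≤ t → ∀ N : ℕ,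
  ∑ n ∈ Finset.range (N + 1), (X n t ^ 2 + 2 * ∫ s in (0 : ℝ)..t, d n * X n s ^ 2) =
    ∑ n ∈ Finset.range (N + 1), X n 0 ^ 2 - 2 * flux k X t N

/-- if there is no anomalous dissipation then the cubic integrals tend to zero -/
def S_FDEC : Prop := ∀ (lam β ν : ℝ), 1 < lam → 0 < ν → ∀ X : ℕ → ℝ → ℝ,
  IsSol (coup lam β) (damp lam ν) X → (∀ n t, 0 ≤ t → 0 ≤ X n t) →
  Summable (fun n => X n 0 ^ 2) → ∀ T, 0 ≤ T →
  Tendsto (flux (coup lam β) X T) atTop (𝓝 0) →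
  Tendsto (fun n => ∫ t in (0 : ℝ)..T, coup lam β n * X n t ^ 3) atTop (𝓝 0)

/-- anomalous dissipation for `β > 3` and data which are large in the first shell -/
def S_ANOM : Prop := ∀ (lam β ν : ℝ), 1 < lam → 0 < ν → 3 < β → ∀ T, 0 < T →
  ∃ R₀ : ℝ, 0 < R₀ ∧ ∀ R, R₀ ≤ R → ∀ X : ℕ → ℝ → ℝ,
    IsSol (coup lam β) (damp lam ν) X → (∀ n t, 0 ≤ t → 0 ≤ X n t) → X 0 0 = R →
    (∀ n, 0 < n → X n 0 = 0) →
    ¬ Tendsto (flux (coup lam β) X T) atTop (𝓝 0)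

/-- no anomalous dissipation for solutions which are smooth for positive times -/
def S_NOANOM : Prop := ∀ (lam β ν : ℝ), 1 < lam → 0 < ν → ∀ X : ℕ → ℝ → ℝ,
  IsSol (coup lam β) (damp lam ν) X → (∀ n t, 0 ≤ t → 0 ≤ X n t) →
  Summable (fun n => X n 0 ^ 2) → (∀ τ, 0 < τ → SmoothFrom lam τ X) →
  ∀ t, 0 ≤ t → Tendsto (flux (coup lam β) X t) atTop (𝓝 0)

end Pool.Agent.N841.DY
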