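import Pool.Agent.N841.DY.Stm2

set_option autoImplicit false

/-!
DY/UNI2 (helper42): uniqueness of nonnegative solutions with data of finite energy.
-/

open Set Filter Topology MeasureTheory

noncomputable section

namespace Pool.Agent.N841.DY.Uni2

open Pool.Agent.N841.DY

lemma cube {x y : ℝ} (hx : 0 ≤ x) (hy : 0 ≤ y) : x ^ 2 * y ≤ x ^ 3 + y ^ 3 := by
  rcases le_total y x with h | h
  · have h1 : x ^ 2 * y ≤ x ^ 2 * x := mul_le_mul_of_nonneg_left h (sq_nonneg x)
    have h2 : 0 ≤ y ^ 3 := by positivity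
    nlinarith
  · have h0 : x ^ 2 ≤ y ^ 2 := pow_le_pow_left₀ hx h 2
    have h1 : x ^ 2 * y ≤ y ^ 2 * y := mul_le_mul_of_nonneg_right h0 hy
    have h2 : 0 ≤ x ^ 3 := by positivity
    nlinarith

lemma tot (k d a b : ℕ → ℝ) (hk : ∀ n, 0 ≤ k n) (hd : ∀ n, 0 ≤ d n) (ha : ∀ n, 0 ≤ a n)
    (hb : ∀ n, 0 ≤ b n) (N : ℕ) :
    ∑ n ∈ Finset.range (N + 1), (1 / 2 : ℝ) ^ n *
      (2 * (a n - b n) * (field k d a n - field k d b n)) ≤
      -((1 / 2 : ℝ) ^ N * (k N * ((a N + b N) * (a N - b N) * (a (N + 1) - b (N + 1))))) := by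
  induction N with
  | zero =>
    rw [Finset.sum_range_one]
    have h1 : 0 ≤ k 0 * (a 1 + b 1) * (a 0 - b 0) ^ 2 :=
      mul_nonneg (mul_nonneg (hk 0) (add_nonneg (ha 1) (hb 1))) (sq_nonneg _)
    have h2 : 0 ≤ 2 * d 0 * (a 0 - b 0) ^ 2 :=
      mul_nonneg (mul_nonneg (by norm_num) (hd 0)) (sq_nonneg _)
    simp only [field, feed, zero_add, pow_zero]
    nlinarith
  | succ N ih =>
    rw [Finset.sum_range_succ]
    have h1 : 0 ≤ (1 / 2 : ℝ) ^ (N + 1) * (k (N + 1) * (a (N + 2) + b (N + 2)) * (a (N + 1) - b (N + 1)) ^ 2) :=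
      mul_nonneg (by positivity)
        (mul_nonneg (mul_nonneg (hk _) (add_nonneg (ha _) (hb _))) (sq_nonneg _))
    have h2 : 0 ≤ (1 / 2 : ℝ) ^ (N + 1) * (2 * d (N + 1) * (a (N + 1) - b (N + 1)) ^ 2) :=
      mul_nonneg (by positivity) (mul_nonneg (mul_nonneg (by norm_num) (hd _)) (sq_nonneg _))
    have h3 : (1 / 2 : ℝ) ^ (N + 1) *
        (2 * (a (N + 1) - b (N + 1)) * (field k d a (N + 1) - field k d b (N + 1))) =
        (1 / 2 : ℝ) ^ N * (k N * ((a N + b N) * (a N - b N) * (a (N + 1) - b (N + 1)))) -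
        (1 / 2 : ℝ) ^ (N + 1) * (k (N + 1) * ((a (N + 1) + b (N + 1)) * (a (N + 1) - b (N + 1)) *
          (a (N + 1 + 1) - b (N + 1 + 1)))) -
        (1 / 2 : ℝ) ^ (N + 1) * (k (N + 1) * (a (N + 2) + b (N + 2)) * (a (N + 1) - b (N + 1)) ^ 2) -
        (1 / 2 : ℝ) ^ (N + 1) * (2 * d (N + 1) * (a (N + 1) - b (N + 1)) ^ 2) := by
      simp only [field, feed]
      ring
    linarith

lemma tot2 (k d a b : ℕ → ℝ) (hk : ∀ n, 0 ≤ k n) (hd : ∀ n, 0 ≤ d n) (ha : ∀ n, 0 ≤ a n)
    (hb : ∀ n, 0 ≤ b n) (N : ℕ) :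
    ∑ n ∈ Finset.range (N + 1), (1 / 2 : ℝ) ^ n *
      (2 * (a n - b n) * (field k d a n - field k d b n)) ≤
      (1 / 2 : ℝ) ^ N * (k N * a N ^ 3 + k N * b N ^ 3 + (k N * a (N + 1) ^ 3 +
        k N * b (N + 1) ^ 3)) := by
  refine (tot k d a b hk hd ha hb N).trans ?_
  rw [← mul_neg]
  apply mul_le_mul_of_nonneg_left _ (by positivity)
  have h1 := cube (ha N) (hb (N + 1))
  have h2 := cube (hb N) (ha (N + 1))
  have h3 : 0 ≤ a N ^ 2 * a (N + 1) := mul_nonneg (sq_nonneg _) (ha _)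
  have h4 : 0 ≤ b N ^ 2 * b (N + 1) := mul_nonneg (sq_nonneg _) (hb _)
  have h5 : -((a N + b N) * (a N - b N) * (a (N + 1) - b (N + 1))) ≤
      a N ^ 3 + b N ^ 3 + (a (N + 1) ^ 3 + b (N + 1) ^ 3) := by nlinarith
  have h6 := mul_le_mul_of_nonneg_left h5 (hk N)
  nlinarith

theorem t_UNIQ2 (hF : S_FLUX) : S_UNIQ2 := by
  intro lam β ν hlam hν X Y hX hY hX0 hY0 h0 hE n t ht
  have hlam0 : 0 < lam := by linarith
  obtain ⟨CX, hCX⟩ := hF lam β ν hlam hν X hX hX0 hE t ht
  obtain ⟨CY, hCY⟩ := hF lam β ν hlam hν Y hY hY0 (by simpa only [h0] using hE) t ht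
  have hk : ∀ n, 0 ≤ coup lam β n := fun n => (Real.rpow_pos_of_pos hlam0 _).le
  have hd : ∀ n, 0 ≤ damp lam ν n := fun n => by unfold damp; positivity
  have hks : ∀ n, coup lam β n = (lam ^ β)⁻¹ * coup lam β (n + 1) := by
    intro n
    have h1 : lam ^ β ≠ 0 := (Real.rpow_pos_of_pos hlam0 _).ne'
    unfold coup
    push_cast
    rw [mul_add, mul_one, Real.rpow_add hlam0]
    field_simp
  have hXc : ∀ n, ContinuousOn (X n) (Icc 0 t) := fun n s hs =>
    (hX n s hs.1).continuousWithinAt.mono (fun r hr => hr.1)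
  have hYc : ∀ n, ContinuousOn (Y n) (Icc 0 t) := fun n s hs =>
    (hY n s hs.1).continuousWithinAt.mono (fun r hr => hr.1)
  have hfc : ∀ (Z : ℕ → ℝ → ℝ), (∀ n, ContinuousOn (Z n) (Icc 0 t)) → ∀ n,
      ContinuousOn (fun s => field (coup lam β) (damp lam ν) (fun j => Z j s) n) (Icc 0 t) := by
    intro Z hZ n
    cases n with
    | zero =>
      simp only [field, feed]
      exact (continuousOn_const.sub ((continuousOn_const.mul (hZ 0)).mul (hZ (0 + 1)))).sub
        (continuousOn_const.mul (hZ 0))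
    | succ n =>
      simp only [field, feed]
      exact ((continuousOn_const.mul ((hZ n).pow 2)).sub
        ((continuousOn_const.mul (hZ (n + 1))).mul (hZ (n + 1 + 1)))).sub
        (continuousOn_const.mul (hZ (n + 1)))
  have hint : ∀ (Z : ℕ → ℝ → ℝ), (∀ n, ContinuousOn (Z n) (Icc 0 t)) → ∀ (c : ℝ) (n : ℕ),
      IntervalIntegrable (fun s => c * Z n s ^ 3) volume 0 t := by
    intro Z hZ c n
    apply ContinuousOn.intervalIntegrable
    rw [uIcc_of_le ht]
    exact continuousOn_const.mul ((hZ n).pow 3)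
  set C : ℝ := CX + CY + (lam ^ β)⁻¹ * (CX + CY) with hC
  have key : ∀ N : ℕ, ∑ j ∈ Finset.range (N + 1), (1 / 2 : ℝ) ^ j * (X j t - Y j t) ^ 2 ≤
      (1 / 2 : ℝ) ^ N * C := by
    intro N
    set f : ℝ → ℝ := fun s => ∑ j ∈ Finset.range (N + 1), (1 / 2 : ℝ) ^ j * (X j s - Y j s) ^ 2
      with hf
    set f' : ℝ → ℝ := fun s => ∑ j ∈ Finset.range (N + 1), (1 / 2 : ℝ) ^ j *
      (2 * (X j s - Y j s) * (field (coup lam β) (damp lam ν) (fun j => X j s) j -
        field (coup lam β) (damp lam ν) (fun j => Y j s) j)) with hf'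
    have hder : ∀ s, 0 ≤ s → HasDerivWithinAt f (f' s) (Ici 0) s := by
      intro s hs
      apply HasDerivWithinAt.fun_sum
      intro j _
      have h1 := (((hX j s hs).sub (hY j s hs)).mul ((hX j s hs).sub (hY j s hs))).const_mul
        ((1 / 2 : ℝ) ^ j)
      refine (h1.congr_deriv ?_).congr_of_eventuallyEq ?_ ?_
      · simp only [Pi.sub_apply]
        ring
      · refine Eventually.of_forall fun r => ?_
        simp only [Pi.sub_apply, Pi.mul_apply]
        ring
      · simp only [Pi.sub_apply, Pi.mul_apply]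
        ring
    have hcont : ContinuousOn f (Icc 0 t) := fun s hs =>
      (hder s hs.1).continuousWithinAt.mono (fun r hr => hr.1)
    have hcont' : ContinuousOn f' (Icc 0 t) := by
      apply continuousOn_finsetSum
      intro j _
      exact continuousOn_const.mul ((continuousOn_const.mul ((hXc j).sub (hYc j))).mul
        ((hfc X hXc j).sub (hfc Y hYc j)))
    have hint' : IntervalIntegrable f' volume 0 t := by
      apply ContinuousOn.intervalIntegrable
      rwa [uIcc_of_le ht]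
    have h1 := intervalIntegral.integral_eq_sub_of_hasDeriv_right_of_le ht hcont
      (fun s hs => (hder s hs.1.le).mono (fun r hr => hs.1.le.trans (le_of_lt hr))) hint'
    have hf0 : f 0 = 0 := by
      rw [hf]
      simp only
      refine Finset.sum_eq_zero fun j _ => ?_
      rw [h0 j, sub_self]
      norm_num
    rw [hf0, sub_zero] at h1
    have e : (∑ j ∈ Finset.range (N + 1), (1 / 2 : ℝ) ^ j * (X j t - Y j t) ^ 2) = f t := rfl
    rw [e, ← h1]
    have iX1 := hint X hXc (coup lam β N) N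
    have iY1 := hint Y hYc (coup lam β N) N
    have iX2 := hint X hXc (coup lam β N) (N + 1)
    have iY2 := hint Y hYc (coup lam β N) (N + 1)
    have h2 : ∫ s in (0:ℝ)..t, f' s ≤ ∫ s in (0:ℝ)..t, (1 / 2 : ℝ) ^ N *
        ((coup lam β N * X N s ^ 3 + coup lam β N * Y N s ^ 3) +
          (coup lam β N * X (N + 1) s ^ 3 + coup lam β N * Y (N + 1) s ^ 3)) := by
      apply intervalIntegral.integral_mono_on ht hint'
        (((iX1.add iY1).add (iX2.add iY2)).const_mul _)
      intro s hs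
      exact tot2 (coup lam β) (damp lam ν) (fun j => X j s) (fun j => Y j s) hk hd
        (fun j => hX0 j s hs.1) (fun j => hY0 j s hs.1) N
    refine h2.trans ?_
    rw [intervalIntegral.integral_const_mul]
    apply mul_le_mul_of_nonneg_left _ (by positivity)
    rw [intervalIntegral.integral_add (iX1.add iY1) (iX2.add iY2),
      intervalIntegral.integral_add iX1 iY1, intervalIntegral.integral_add iX2 iY2]
    have q0 : (0:ℝ) ≤ (lam ^ β)⁻¹ := (inv_pos.2 (Real.rpow_pos_of_pos hlam0 _)).le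
    have q : ∀ (Z : ℕ → ℝ → ℝ) (B : ℝ), (∫ s in (0:ℝ)..t, coup lam β (N + 1) * Z (N + 1) s ^ 3) ≤ B →
        (∫ s in (0:ℝ)..t, coup lam β N * Z (N + 1) s ^ 3) ≤ (lam ^ β)⁻¹ * B := by
      intro Z B hB
      have h3 : (∫ s in (0:ℝ)..t, coup lam β N * Z (N + 1) s ^ 3) =
          (lam ^ β)⁻¹ * ∫ s in (0:ℝ)..t, coup lam β (N + 1) * Z (N + 1) s ^ 3 := by
        rw [← intervalIntegral.integral_const_mul]
        congr 1
        ext s
        rw [hks N]
        ring
      rw [h3]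
      exact mul_le_mul_of_nonneg_left hB q0
    have q1 := q X CX (hCX (N + 1))
    have q2 := q Y CY (hCY (N + 1))
    have q3 := hCX N
    have q4 := hCY N
    rw [hC, mul_add]
    linarith
  have hlim : Tendsto (fun N : ℕ => (1 / 2 : ℝ) ^ N * C) atTop (𝓝 0) := by
    have h1 := (tendsto_pow_atTop_nhds_zero_of_lt_one (r := (1 / 2 : ℝ)) (by norm_num)
      (by norm_num)).mul_const C
    simpa using h1
  have hle : (1 / 2 : ℝ) ^ n * (X n t - Y n t) ^ 2 ≤ 0 := by
    refine ge_of_tendsto hlim ?_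
    filter_upwards [eventually_ge_atTop n] with N hN
    refine le_trans ?_ (key N)
    exact Finset.single_le_sum (f := fun j => (1 / 2 : ℝ) ^ j * (X j t - Y j t) ^ 2)
      (fun j _ => by positivity) (Finset.mem_range.2 (by omega))
  have h5 : (X n t - Y n t) ^ 2 ≤ 0 := by
    have hp : (0:ℝ) < (1 / 2 : ℝ) ^ n := by positivity
    by_contra hcon
    push Not at hcon
    have := mul_pos hp hcon
    linarith
  have h6 : X n t - Y n t = 0 := by
    have := le_antisymm h5 (sq_nonneg _)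
    exact pow_eq_zero_iff (two_ne_zero) |>.1 this
  linarith

end Pool.Agent.N841.DY.Uni2
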