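import Pool.Agent.N841.DY.Stm

set_option autoImplicit false

/-!
DY/UNIQ (helper498): uniqueness of solutions of the dyadic model.
-/

open Set Filter Topology

noncomputable section

namespace Pool.Agent.N841.DY.Uniq

open Pool.Agent.N841.DY

lemma gron (K ε x : ℝ) : gronwallBound 0 K ε x = ε * gronwallBound 0 K 1 x := by
  unfold gronwallBound
  split_ifs
  · ring
  · ring

section one

variable {k d a b : ℕ → ℝ} {C : ℝ}

lemma step (hk : ∀ n, 0 ≤ k n) (hd : ∀ n, 0 ≤ d n) (ha : ∀ n, 0 ≤ a n) (hb : ∀ n, 0 ≤ b n)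
    (haC : ∀ n, k n * a n ≤ C) (hbC : ∀ n, k n * b n ≤ C) (n : ℕ) :
    2 * (a (n + 1) - b (n + 1)) * (field k d a (n + 1) - field k d b (n + 1)) ≤
      2 * C * ((a n - b n) ^ 2 + (a (n + 1) - b (n + 1)) ^ 2) +
        C * ((a (n + 1) - b (n + 1)) ^ 2 + (a (n + 2) - b (n + 2)) ^ 2) := by
  have h1 : 0 ≤ k n * a n := mul_nonneg (hk n) (ha n)
  have h2 : 0 ≤ k n * b n := mul_nonneg (hk n) (hb n)
  have h3 : 0 ≤ k (n + 1) * a (n + 1) := mul_nonneg (hk _) (ha _)
  have h4 : 0 ≤ k (n + 1) * b (n + 2) := mul_nonneg (hk _) (hb _)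
  have e1 : 0 ≤ (k n * a n + k n * b n) * ((a n - b n) - (a (n + 1) - b (n + 1))) ^ 2 :=
    mul_nonneg (by linarith) (sq_nonneg _)
  have e2 : 0 ≤ (2 * C - k n * a n - k n * b n) * ((a n - b n) ^ 2 + (a (n + 1) - b (n + 1)) ^ 2) :=
    mul_nonneg (by linarith [haC n, hbC n]) (by positivity)
  have e3 : 0 ≤ (k (n + 1) * a (n + 1)) * ((a (n + 1) - b (n + 1)) + (a (n + 2) - b (n + 2))) ^ 2 :=
    mul_nonneg h3 (sq_nonneg _)
  have e4 : 0 ≤ (C - k (n + 1) * a (n + 1)) *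
      ((a (n + 1) - b (n + 1)) ^ 2 + (a (n + 2) - b (n + 2)) ^ 2) :=
    mul_nonneg (by linarith [haC (n + 1)]) (by positivity)
  have e5 : 0 ≤ (k (n + 1) * b (n + 2) + d (n + 1)) * (a (n + 1) - b (n + 1)) ^ 2 :=
    mul_nonneg (by linarith [hd (n + 1)]) (sq_nonneg _)
  have key : 2 * C * ((a n - b n) ^ 2 + (a (n + 1) - b (n + 1)) ^ 2) +
      C * ((a (n + 1) - b (n + 1)) ^ 2 + (a (n + 2) - b (n + 2)) ^ 2) -
      2 * (a (n + 1) - b (n + 1)) * (field k d a (n + 1) - field k d b (n + 1)) =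
      (k n * a n + k n * b n) * ((a n - b n) - (a (n + 1) - b (n + 1))) ^ 2 +
      (2 * C - k n * a n - k n * b n) * ((a n - b n) ^ 2 + (a (n + 1) - b (n + 1)) ^ 2) +
      (k (n + 1) * a (n + 1)) * ((a (n + 1) - b (n + 1)) + (a (n + 2) - b (n + 2))) ^ 2 +
      (C - k (n + 1) * a (n + 1)) * ((a (n + 1) - b (n + 1)) ^ 2 + (a (n + 2) - b (n + 2)) ^ 2) +
      2 * ((k (n + 1) * b (n + 2) + d (n + 1)) * (a (n + 1) - b (n + 1)) ^ 2) := by
    simp only [field, feed]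
    ring
  linarith

lemma step0 (hk : ∀ n, 0 ≤ k n) (hd : ∀ n, 0 ≤ d n) (ha : ∀ n, 0 ≤ a n) (hb : ∀ n, 0 ≤ b n)
    (haC : ∀ n, k n * a n ≤ C) :
    2 * (a 0 - b 0) * (field k d a 0 - field k d b 0) ≤
      C * ((a 0 - b 0) ^ 2 + (a 1 - b 1) ^ 2) := by
  have h3 : 0 ≤ k 0 * a 0 := mul_nonneg (hk _) (ha _)
  have h4 : 0 ≤ k 0 * b 1 := mul_nonneg (hk _) (hb _)
  have e3 : 0 ≤ (k 0 * a 0) * ((a 0 - b 0) + (a 1 - b 1)) ^ 2 := mul_nonneg h3 (sq_nonneg _)
  have e4 : 0 ≤ (C - k 0 * a 0) * ((a 0 - b 0) ^ 2 + (a 1 - b 1) ^ 2) :=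
    mul_nonneg (by linarith [haC 0]) (by positivity)
  have e5 : 0 ≤ (k 0 * b 1 + d 0) * (a 0 - b 0) ^ 2 :=
    mul_nonneg (by linarith [hd 0]) (sq_nonneg _)
  have key : C * ((a 0 - b 0) ^ 2 + (a 1 - b 1) ^ 2) -
      2 * (a 0 - b 0) * (field k d a 0 - field k d b 0) =
      (k 0 * a 0) * ((a 0 - b 0) + (a 1 - b 1)) ^ 2 +
      (C - k 0 * a 0) * ((a 0 - b 0) ^ 2 + (a 1 - b 1) ^ 2) +
      2 * ((k 0 * b 1 + d 0) * (a 0 - b 0) ^ 2) := by
    simp only [field, feed, zero_add]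
    ring
  linarith

lemma total (hk : ∀ n, 0 ≤ k n) (hd : ∀ n, 0 ≤ d n) (ha : ∀ n, 0 ≤ a n) (hb : ∀ n, 0 ≤ b n)
    (haC : ∀ n, k n * a n ≤ C) (hbC : ∀ n, k n * b n ≤ C) (N : ℕ) :
    ∑ n ∈ Finset.range (N + 1), 2 * (a n - b n) * (field k d a n - field k d b n) ≤
      6 * C * ∑ n ∈ Finset.range (N + 1), (a n - b n) ^ 2 - 2 * C * (a N - b N) ^ 2 +
        C * (a (N + 1) - b (N + 1)) ^ 2 := by
  have hC : 0 ≤ C := (mul_nonneg (hk 0) (ha 0)).trans (haC 0)
  induction N with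
  | zero =>
    rw [Finset.sum_range_one, Finset.sum_range_one]
    have h := step0 hk hd ha hb haC
    have h2 : 0 ≤ C * (a 0 - b 0) ^ 2 := mul_nonneg hC (sq_nonneg _)
    simp only [zero_add]
    nlinarith
  | succ N ih =>
    rw [Finset.sum_range_succ, Finset.sum_range_succ (fun n => (a n - b n) ^ 2)]
    have h := step hk hd ha hb haC hbC N
    have h2 : 0 ≤ C * (a (N + 1) - b (N + 1)) ^ 2 := mul_nonneg hC (sq_nonneg _)
    nlinarith

end one

theorem t_UNIQ : S_UNIQ := by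
  intro k d X Y hk hd hX hY hX0 hY0 C hXC hYC e he hXe hYe h0 n t ht
  have hC : 0 ≤ C := (mul_nonneg (hk 0) (hX0 0 0 le_rfl)).trans (hXC 0 0 le_rfl)
  -- the energy of the difference
  have hE : ∀ N : ℕ, ∑ j ∈ Finset.range (N + 1), (X j t - Y j t) ^ 2 ≤
      C * e (N + 1) ^ 2 * gronwallBound 0 (6 * C) 1 t := by
    intro N
    set f : ℝ → ℝ := fun s => ∑ j ∈ Finset.range (N + 1), (X j s - Y j s) ^ 2 with hf
    set f' : ℝ → ℝ := fun s => ∑ j ∈ Finset.range (N + 1), 2 * (X j s - Y j s) *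
      (field k d (fun j => X j s) j - field k d (fun j => Y j s) j) with hf'
    have hder : ∀ s, 0 ≤ s → HasDerivWithinAt f (f' s) (Ici 0) s := by
      intro s hs
      apply HasDerivWithinAt.fun_sum
      intro j _
      have h1 := ((hX j s hs).sub (hY j s hs)).mul ((hX j s hs).sub (hY j s hs))
      refine (h1.congr_deriv ?_).congr_of_eventuallyEq ?_ ?_
      · simp only [Pi.sub_apply]
        ring
      · refine Eventually.of_forall fun r => ?_
        simp only [Pi.sub_apply, Pi.mul_apply]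
        ring
      · simp only [Pi.sub_apply, Pi.mul_apply]
        ring
    have hcont : ContinuousOn f (Icc 0 t) := fun s hs =>
      (hder s hs.1).continuousWithinAt.mono (fun r hr => hr.1)
    have key := le_gronwallBound_of_liminf_deriv_right_le (f := f) (f' := f') (δ := 0)
      (K := 6 * C) (ε := C * e (N + 1) ^ 2) hcont (fun s hs r hr =>
        ((hder s hs.1).mono (Ici_subset_Ici.2 hs.1)).liminf_right_slope_le hr) (by
        rw [hf]
        simp only
        refine (Finset.sum_eq_zero fun j _ => ?_).le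
        rw [h0 j, sub_self]
        norm_num) (by
        intro s hs
        have h1 := total (a := fun j => X j s) (b := fun j => Y j s) hk hd (fun j => hX0 j s hs.1)
          (fun j => hY0 j s hs.1) (fun j => hXC j s hs.1) (fun j => hYC j s hs.1) N
        have h2 : (X (N + 1) s - Y (N + 1) s) ^ 2 ≤ e (N + 1) ^ 2 := by
          apply sq_le_sq'
          · linarith [hX0 (N + 1) s hs.1, hYe (N + 1) s hs.1]
          · linarith [hY0 (N + 1) s hs.1, hXe (N + 1) s hs.1]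
        have h3 : 0 ≤ C * (X N s - Y N s) ^ 2 := mul_nonneg hC (sq_nonneg _)
        have h4 : C * (X (N + 1) s - Y (N + 1) s) ^ 2 ≤ C * e (N + 1) ^ 2 :=
          mul_le_mul_of_nonneg_left h2 hC
        rw [hf', hf]
        simp only
        linarith) t ⟨ht, le_rfl⟩
    rw [gron, sub_zero] at key
    exact key
  have hlim : Tendsto (fun N : ℕ => C * e (N + 1) ^ 2 * gronwallBound 0 (6 * C) 1 t) atTop (𝓝 0) := by
    have h1 : Tendsto (fun N : ℕ => e (N + 1)) atTop (𝓝 0) := he.comp (tendsto_add_atTop_nat 1)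
    have h2 := ((h1.pow 2).const_mul C).mul_const (gronwallBound 0 (6 * C) 1 t)
    simpa using h2
  have hle : (X n t - Y n t) ^ 2 ≤ 0 := by
    refine ge_of_tendsto hlim ?_
    filter_upwards [eventually_ge_atTop n] with N hN
    refine le_trans ?_ (hE N)
    exact Finset.single_le_sum (f := fun j => (X j t - Y j t) ^ 2) (fun j _ => sq_nonneg _)
      (Finset.mem_range.2 (by omega))
  have h5 : X n t - Y n t = 0 := by
    have := le_antisymm hle (sq_nonneg _)
    exact pow_eq_zero_iff (two_ne_zero) |>.1 this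
  linarith

end Pool.Agent.N841.DY.Uniq
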